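import Pool.Agent.AcylTdc.Basic

open Filter Topology Set

namespace Pool.Agent.AcylTdc

variable {Y : Type*} [MetricSpace Y] {δ : ℝ}

private theorem A02_one (h : Hyp Y δ) (hδ : 0 ≤ δ) {c : ℝ} (_hc : 0 ≤ c) (x : ℕ → Y) (n : ℕ)
    (h1 : ∀ i, i + 2 ≤ n → gp (x (i + 1)) (x i) (x (i + 2)) ≤ c)
    (h2 : ∀ i, i + 1 ≤ n → 2 * c + 6 * δ + 1 ≤ dist (x i) (x (i + 1))) :
    ∀ k i, i < k → k + 1 ≤ n → gp (x k) (x i) (x (k + 1)) ≤ c + δ := by
  intro k
  induction k with
  | zero =>
    intro i hi
    exact absurd hi (Nat.not_lt_zero i)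
  | succ k ih =>
    intro i hi hk
    rcases Nat.lt_or_ge i k with hik | hik
    · have e1 := ih i hik (by omega)
      have e2 := h.ineq (x (k + 1)) (x k) (x i) (x (k + 2))
      have e3 := gp_add (x k) (x (k + 1)) (x i)
      have e4 := gp_comm (x k) (x (k + 1)) (x i)
      have e5 := h1 k (by omega)
      have e6 := h2 k (by omega)
      rcases min_cases (gp (x (k + 1)) (x k) (x i)) (gp (x (k + 1)) (x i) (x (k + 2))) with
        ⟨h3, _⟩ | ⟨h3, _⟩
      · rw [h3] at e2
        exfalso
        linarith
      · rw [h3] at e2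
        change gp (x (k + 1)) (x i) (x (k + 2)) ≤ c + δ
        linarith
    · have : i = k := by omega
      subst this
      have := h1 i (by omega)
      change gp (x (i + 1)) (x i) (x (i + 2)) ≤ c + δ
      linarith

/-- A02: local-to-global. Proof: (i) one-sided: for `i < k < n`, `gp (x k) (x i) (x (k+1)) ≤ c + δ`
by induction on `k`: `min (gp (x k) (x (k-1)) (x i)) (gp (x k) (x i) (x (k+1))) - δ ≤
gp (x k) (x (k-1)) (x (k+1)) ≤ c`, and `gp (x k) (x (k-1)) (x i) = dist (x (k-1)) (x k) -
gp (x (k-1)) (x k) (x i) ≥ (2c+6δ+1) - (c+δ) > c + δ` (for `i = k-1` it is the whole distance).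
(ii) `dist (x i) (x (k+1)) = dist (x i) (x k) + dist (x k) (x (k+1)) - 2 gp (x k) (x i) (x (k+1))
≥ dist (x i) (x k) + 1`. (iii) the reversed path satisfies the same hypotheses, so also
`gp (x (j+1)) (x j) (x k) ≤ c + δ` for `j + 1 < k`. (iv) for `i < j < k`:
`min (gp (x j) (x i) (x k)) (gp (x j) (x k) (x (j+1))) - δ ≤ gp (x j) (x i) (x (j+1)) ≤ c + δ` and
`gp (x j) (x k) (x (j+1)) = dist (x j) (x (j+1)) - gp (x (j+1)) (x j) (x k) > c + 2δ`.
In the cases `i = j`, `j = k` the product is `0`. -/
theorem local_global (h : Hyp Y δ) (hδ : 0 ≤ δ) {c : ℝ} (hc : 0 ≤ c) (x : ℕ → Y) (n : ℕ)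
    (h1 : ∀ i, i + 2 ≤ n → gp (x (i + 1)) (x i) (x (i + 2)) ≤ c)
    (h2 : ∀ i, i + 1 ≤ n → 2 * c + 6 * δ + 1 ≤ dist (x i) (x (i + 1))) :
    (∀ i k, i ≤ k → k ≤ n → ((k - i : ℕ) : ℝ) ≤ dist (x i) (x k)) ∧
    (∀ i j k, i ≤ j → j ≤ k → k ≤ n → gp (x j) (x i) (x k) ≤ c + 2 * δ) := by
  have hone := A02_one h hδ hc x n h1 h2
  have hrev : ∀ j k, j + 1 < k → k ≤ n → gp (x (j + 1)) (x j) (x k) ≤ c + δ := by
    intro j k hjk hkn
    have h1' : ∀ i, i + 2 ≤ n →
        gp ((fun i => x (n - i)) (i + 1)) ((fun i => x (n - i)) i) ((fun i => x (n - i)) (i + 2)) ≤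
          c := by
      intro i hi
      have := h1 (n - (i + 2)) (by omega)
      rw [gp_comm]
      have a1 : n - (i + 2) + 1 = n - (i + 1) := by omega
      have a2 : n - (i + 2) + 2 = n - i := by omega
      rw [a1, a2] at this
      exact this
    have h2' : ∀ i, i + 1 ≤ n →
        2 * c + 6 * δ + 1 ≤ dist ((fun i => x (n - i)) i) ((fun i => x (n - i)) (i + 1)) := by
      intro i hi
      have := h2 (n - (i + 1)) (by omega)
      have a1 : n - (i + 1) + 1 = n - i := by omega
      rw [a1, dist_comm] at this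
      exact this
    have := A02_one h hδ hc (fun i => x (n - i)) n h1' h2' (n - (j + 1)) (n - k) (by omega)
      (by omega)
    beta_reduce at this
    have a1 : n - (n - (j + 1)) = j + 1 := by omega
    have a2 : n - (n - k) = k := by omega
    have a3 : n - (n - (j + 1) + 1) = j := by omega
    rw [a1, a2, a3, gp_comm] at this
    exact this
  constructor
  · intro i k hik
    induction k, hik using Nat.le_induction with
    | base =>
      intro _
      rw [Nat.sub_self, Nat.cast_zero]
      exact dist_nonneg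
    | succ k hik ih =>
      intro hk
      have e1 := ih (by omega)
      have e2 := h2 k (by omega)
      have e3 := dist_eq_gp (x k) (x i) (x (k + 1))
      have e4 : ((k + 1 - i : ℕ) : ℝ) = ((k - i : ℕ) : ℝ) + 1 := by
        rw [Nat.succ_sub hik]
        push_cast
        ring
      rw [e4, e3, dist_comm (x k) (x i)]
      rcases Nat.lt_or_ge i k with h3 | h3
      · have e5 := hone k i h3 (by omega)
        linarith
      · have : i = k := by omega
        subst this
        have e5 : gp (x i) (x i) (x (i + 1)) ≤ 0 := by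
          have := gp_le_left (x i) (x i) (x (i + 1))
          rwa [dist_self] at this
        linarith
  · intro i j k hij hjk hk
    rcases Nat.lt_or_ge i j with h3 | h3
    · rcases Nat.lt_or_ge j k with h4 | h4
      · rcases Nat.lt_or_ge (j + 1) k with h5 | h5
        · have e1 := hone j i h3 (by omega)
          have e2 := hrev j k h5 hk
          have e3 := h.ineq (x j) (x i) (x k) (x (j + 1))
          have e4 := gp_add (x j) (x (j + 1)) (x k)
          have e5 := gp_comm (x j) (x (j + 1)) (x k)
          have e6 := h2 j (by omega)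
          rcases min_cases (gp (x j) (x i) (x k)) (gp (x j) (x k) (x (j + 1))) with
            ⟨h6, _⟩ | ⟨h6, _⟩
          · rw [h6] at e3
            linarith
          · rw [h6] at e3
            exfalso
            linarith
        · have : k = j + 1 := by omega
          subst this
          have e1 := hone j i h3 (by omega)
          linarith
      · have : k = j := by omega
        subst this
        have := gp_le_right (x k) (x i) (x k)
        rw [dist_self] at this
        linarith
    · have : i = j := by omega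
      subst this
      have := gp_le_left (x i) (x i) (x k)
      rw [dist_self] at this
      linarith

end Pool.Agent.AcylTdc
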