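import Pool.Agent.AcylTdc.Basic

open Filter Topology Set

namespace Pool.Agent.AcylTdc

/-- The orbit `i ↦ f^i o` is a quasi-geodesic line with constant `C`. -/
structure Axis {G Y : Type*} [Group G] [MetricSpace Y] [MulAction G Y] (δ : ℝ) (f : G) (o : Y)
    (C : ℝ) : Prop where
  nonneg : 0 ≤ C
  turn : ∀ i j k : ℤ, i ≤ j → j ≤ k → gp (f ^ j • o) (f ^ i • o) (f ^ k • o) ≤ C
  long : 2 * C + 2 * δ < dist o (f • o)
  lower : ∀ n : ℕ, (n : ℝ) ≤ dist o (f ^ n • o)

/-- `g • o` is almost the projection of `Q` to the translate of the axis by `g`. -/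
def Normal {G Y : Type*} [Group G] [MetricSpace Y] [MulAction G Y] (f : G) (o Q : Y) (C₁ : ℝ)
    (g : G) : Prop :=
  ∀ j : ℤ, gp (g • o) Q ((g * f ^ j) • o) ≤ C₁

/-- the conjugates of `F` by the prefixes of a word -/
def conjs {G : Type*} [Group G] (F : G) (l : List G) : Set G :=
  {a | ∃ i, i ≤ l.length ∧ a = (l.take i).prod * F * ((l.take i).prod)⁻¹}

/-- The elements represented by a word of length at most `n` with at most `m` different conjugates
of `F` by prefixes. -/
def few {G : Type*} [Group G] (X : Set G) (F : G) (m n : ℕ) : Set G :=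
  {g | ∃ l : List G, l.length ≤ n ∧ (∀ s ∈ l, s ∈ X ∨ s⁻¹ ∈ X) ∧ l.prod = g ∧
    (conjs F l).ncard ≤ m}

end Pool.Agent.AcylTdc
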