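import Pool.Agent.AcylTdc.A02
import Pool.Agent.AcylTdc.AxisDef

open Filter Topology Set

namespace Pool.Agent.AcylTdc

variable {G Y : Type*} [Group G] [MetricSpace Y] [MulAction G Y] [IsIsometricSMul G Y] {δ : ℝ}

/-- A03a: a criterion for an axis. Proof: `local_global` for `x i = g^i • o` with
`c = gp o (g⁻¹ • o) (g • o)` gives everything for natural exponents; for integers `i ≤ j ≤ k` apply
`g^(-i)` (`gp_smul`). The constant is `c + 2δ`. -/
theorem axis_of_turn (h : Hyp Y δ) (hδ : 0 ≤ δ) {g : G} {o : Y}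
    (hg : 2 * gp o (g⁻¹ • o) (g • o) + 6 * δ + 1 ≤ dist o (g • o)) :
    Axis δ g o (gp o (g⁻¹ • o) (g • o) + 2 * δ) := by
  have hc : 0 ≤ gp o (g⁻¹ • o) (g • o) := gp_nonneg _ _ _
  have key : ∀ n : ℕ, (∀ i k, i ≤ k → k ≤ n →
      ((k - i : ℕ) : ℝ) ≤ dist ((fun i : ℕ => g ^ i • o) i) ((fun i : ℕ => g ^ i • o) k)) ∧
      (∀ i j k, i ≤ j → j ≤ k → k ≤ n → gp ((fun i : ℕ => g ^ i • o) j)
        ((fun i : ℕ => g ^ i • o) i) ((fun i : ℕ => g ^ i • o) k) ≤
          gp o (g⁻¹ • o) (g • o) + 2 * δ) := by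
    intro n
    refine local_global h hδ hc (fun i : ℕ => g ^ i • o) n ?_ ?_
    · intro i _
      have e1 : g ^ i • o = g ^ (i + 1) • (g⁻¹ • o) := by
        rw [smul_smul, pow_succ, mul_assoc, mul_inv_cancel, mul_one]
      have e2 : g ^ (i + 2) • o = g ^ (i + 1) • (g • o) := by
        rw [smul_smul, pow_succ g (i + 1)]
      change gp (g ^ (i + 1) • o) (g ^ i • o) (g ^ (i + 2) • o) ≤ _
      rw [e1, e2, gp_smul]
    · intro i _
      have e2 : g ^ (i + 1) • o = g ^ i • (g • o) := by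
        rw [smul_smul, pow_succ g i]
      change _ ≤ dist (g ^ i • o) (g ^ (i + 1) • o)
      rw [e2, dist_smul]
      exact hg
  refine ⟨by linarith, ?_, by linarith, ?_⟩
  · intro i j k hij hjk
    obtain ⟨a, ha⟩ : ∃ a : ℕ, j = i + a := ⟨(j - i).toNat, by omega⟩
    obtain ⟨b, hb⟩ : ∃ b : ℕ, k = i + b := ⟨(k - i).toNat, by omega⟩
    have hab : a ≤ b := by omega
    have e0 : g ^ i • o = g ^ i • (g ^ (0 : ℕ) • o) := by
      rw [pow_zero, one_smul]
    have e1 : g ^ j • o = g ^ i • (g ^ a • o) := by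
      rw [ha, zpow_add, zpow_natCast, mul_smul]
    have e2 : g ^ k • o = g ^ i • (g ^ b • o) := by
      rw [hb, zpow_add, zpow_natCast, mul_smul]
    rw [e0, e1, e2, gp_smul]
    exact (key b).2 0 a b (Nat.zero_le _) hab le_rfl
  · intro n
    have := (key n).1 0 n (Nat.zero_le _) le_rfl
    change ((n - 0 : ℕ) : ℝ) ≤ dist (g ^ 0 • o) (g ^ n • o) at this
    rw [pow_zero, one_smul, Nat.sub_zero] at this
    exact this

/-- A03b: with an axis the element is loxodromic. -/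
theorem Axis.lox {f : G} {o : Y} {C : ℝ} (ax : Axis δ f o C) : Lox Y f := by
  refine ⟨o, 1, one_pos, fun n => ?_⟩
  rw [one_mul]
  exact ax.lower n

private theorem A03_dbl (f : G) (o : Y) (m : ℕ) :
    2 * gp o ((f ^ m)⁻¹ • o) ((f ^ m) • o) =
      2 * dist o (f ^ m • o) - dist o (f ^ (2 * m) • o) := by
  have e1 : dist ((f ^ m)⁻¹ • o) (f ^ m • o) = dist o (f ^ (2 * m) • o) := by
    have := dist_smul (f ^ m) ((f ^ m)⁻¹ • o) (f ^ m • o)
    rw [smul_inv_smul, smul_smul, ← pow_add, ← two_mul] at this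
    exact this.symm
  unfold gp
  rw [e1, dist_inv_smul]
  ring

/-- A03c: a power of a loxodromic element has an axis through the orbit of any point `o`. Proof: with
`l n = dist o (f^n • o) ≥ ε n - 2 dist o y` there is `m = 2^k` with `l (2m) ≥ l m + 6δ + 1`
(otherwise `l (2^k) ≤ l 1 + k (6δ+1)`); for `g = f^m` we have
`2 * gp o (g⁻¹ • o) (g • o) = 2 l m - l (2m)`, so `axis_of_turn` applies. -/
theorem Lox.exists_axis (h : Hyp Y δ) (hδ : 0 ≤ δ) {f : G} (hf : Lox Y f) (o : Y) :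
    ∃ m : ℕ, 1 ≤ m ∧ ∃ C, Axis δ (f ^ m) o C := by
  obtain ⟨y, ε, hε, hy⟩ := hf
  have hl : ∀ n : ℕ, ε * n - 2 * dist o y ≤ dist o (f ^ n • o) := by
    intro n
    have e1 := hy n
    have e2 := dist_triangle y o (f ^ n • y)
    have e3 := dist_triangle o (f ^ n • o) (f ^ n • y)
    rw [dist_smul] at e3
    rw [dist_comm y o] at e2
    linarith
  by_contra hcon
  push Not at hcon
  have hstep : ∀ m : ℕ, 1 ≤ m → dist o (f ^ (2 * m) • o) < dist o (f ^ m • o) + (6 * δ + 1) := by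
    intro m hm
    by_contra h2
    push Not at h2
    have h3 : 2 * gp o ((f ^ m)⁻¹ • o) ((f ^ m) • o) + 6 * δ + 1 ≤ dist o ((f ^ m) • o) := by
      rw [A03_dbl]
      linarith
    exact hcon m hm _ (axis_of_turn h hδ h3)
  have hpow : ∀ k : ℕ, dist o (f ^ (2 ^ k) • o) ≤ dist o (f • o) + k * (6 * δ + 1) := by
    intro k
    induction k with
    | zero =>
      rw [pow_zero, pow_one, Nat.cast_zero, zero_mul, add_zero]
    | succ k ih =>
      have e1 := hstep (2 ^ k) Nat.one_le_two_pow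
      rw [pow_succ, mul_comm (2 ^ k) 2]
      push_cast
      linarith
  set A : ℝ := dist o (f • o) + 2 * dist o y with hA
  have hA0 : 0 ≤ A := by positivity
  obtain ⟨t, ht⟩ := pow_unbounded_of_one_lt ((2 * (6 * δ + 1) + A) / ε) (one_lt_two (α := ℝ))
  rw [div_lt_iff₀ hε] at ht
  have e1 := hpow (2 * t)
  have e2 := hl (2 ^ (2 * t))
  have e3 : ((2 ^ (2 * t) : ℕ) : ℝ) = (2 : ℝ) ^ t * (2 : ℝ) ^ t := by
    push_cast
    rw [two_mul, pow_add]
  rw [e3] at e2
  have e4 : (t : ℝ) ≤ (2 : ℝ) ^ t := by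
    have := Nat.lt_two_pow_self (n := t)
    have h5 : (t : ℝ) < ((2 ^ t : ℕ) : ℝ) := by exact_mod_cast this
    push_cast at h5
    exact h5.le
  have e5 : (1 : ℝ) ≤ (2 : ℝ) ^ t := one_le_pow₀ one_le_two
  have e6 : (2 * (6 * δ + 1) + A) * (2 : ℝ) ^ t < (2 : ℝ) ^ t * ε * (2 : ℝ) ^ t :=
    mul_lt_mul_of_pos_right ht (by positivity)
  have e7 : (2 * (6 * δ + 1)) * (t : ℝ) ≤ (2 * (6 * δ + 1)) * (2 : ℝ) ^ t :=
    mul_le_mul_of_nonneg_left e4 (by positivity)
  have e8 : A * 1 ≤ A * (2 : ℝ) ^ t := mul_le_mul_of_nonneg_left e5 hA0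
  push_cast at e1
  nlinarith [e1, e2, e6, e7, e8]

end Pool.Agent.AcylTdc
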