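import Pool.Agent.AcylTdc.AxisDef

open Filter Topology Set

namespace Pool.Agent.AcylTdc

variable {G Y : Type*} [Group G] [MetricSpace Y] [MulAction G Y] [IsIsometricSMul G Y] {δ : ℝ}

/-- A04a: the distances `dist o (f^n • o)` increase: `l (n+1) = l n + l 1 - 2 gp (f^n o) o (f^(n+1) o)
≥ l n + l 1 - 2C > l n`. -/
theorem Axis.strictMono (hδ : 0 ≤ δ) {f : G} {o : Y} {C : ℝ} (ax : Axis δ f o C) :
    StrictMono fun n : ℕ => dist o (f ^ n • o) := by
  refine strictMono_nat_of_lt_succ fun n => ?_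
  have e1 := dist_eq_gp (f ^ n • o) o (f ^ (n + 1) • o)
  have e2 : dist (f ^ n • o) (f ^ (n + 1) • o) = dist o (f • o) := by
    rw [pow_succ, mul_smul, dist_smul]
  have e3 := ax.turn 0 n (n + 1) (by omega) (by omega)
  rw [zpow_zero, one_smul, zpow_natCast] at e3
  have e4 : f ^ ((n : ℤ) + 1) = f ^ (n + 1) := by
    rw [← zpow_natCast]
    push_cast
    rfl
  rw [e4] at e3
  have e5 := ax.long
  have e6 := dist_comm o (f ^ n • o)
  linarith

/-- A04b: `dist (f^i o) (f^j o) = dist o (f^|j-i| o)`. -/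
theorem dist_pow_pow (f : G) (o : Y) (i j : ℤ) :
    dist (f ^ i • o) (f ^ j • o) = dist o (f ^ (j - i).natAbs • o) := by
  have e1 : f ^ j • o = f ^ i • (f ^ (j - i) • o) := by
    rw [smul_smul, ← zpow_add, add_sub_cancel]
  rw [e1, dist_smul]
  rcases Int.natAbs_eq (j - i) with h | h
  · conv_lhs => rw [h, zpow_natCast]
  · conv_lhs => rw [h, zpow_neg, zpow_natCast, dist_inv_smul]

private theorem A04_min (d : ℤ → ℝ) (K : ℝ) (hd : ∀ i : ℤ, ((i.natAbs : ℕ) : ℝ) ≤ d i + K) :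
    ∃ i, ∀ j, d i ≤ d j := by
  have hfin : {i : ℤ | d i ≤ d 0}.Finite := by
    obtain ⟨N, hN⟩ := exists_nat_ge (d 0 + K)
    refine (Set.finite_Icc (-(N : ℤ)) (N : ℤ)).subset ?_
    intro i hi
    have h1 : d i ≤ d 0 := hi
    have h2 : ((i.natAbs : ℕ) : ℝ) ≤ N := by
      have := hd i
      linarith
    have h3 : i.natAbs ≤ N := by exact_mod_cast h2
    exact ⟨by omega, by omega⟩
  obtain ⟨i, hi, hmin⟩ := Set.exists_min_image {i : ℤ | d i ≤ d 0} d hfin ⟨0, le_refl (d 0)⟩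
  refine ⟨i, fun j => ?_⟩
  by_cases hj : d j ≤ d 0
  · exact hmin j hj
  · push Not at hj
    have h1 : d i ≤ d 0 := hi
    exact h1.trans hj.le

private theorem A04_side (h : Hyp Y δ) {p Q q1 qj : Y} {l C : ℝ} (hlong : 2 * C + 2 * δ < l)
    (h1 : dist p q1 = l) (hmin : dist p Q ≤ dist Q q1) (hturn : gp q1 p qj ≤ C) :
    gp p Q qj ≤ l / 2 + δ := by
  have e1 := h.ineq p Q qj q1
  have e2 : gp p Q q1 ≤ l / 2 := by
    unfold gp
    rw [h1]
    linarith
  have e3 := gp_add p q1 qj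
  have e4 := gp_comm p q1 qj
  rcases min_cases (gp p Q qj) (gp p qj q1) with ⟨h3, _⟩ | ⟨h3, _⟩
  · rw [h3] at e1
    linarith
  · rw [h3] at e1
    exfalso
    linarith

/-- A04c: the projection of `Q` to the translate of the axis by `g`. Proof: choose `i` minimizing
`dist Q ((g f^i) • o)` over `i : ℤ` (it exists, since `dist ((g f^i) • o) (g • o) ≥ |i|` by `lower`
and A04b). Write `p = (g f^i) • o`, `q_j = (g f^(i+j)) • o`. For `j ≥ 1`:
`min (gp p Q q_j) (gp p q_j q_1) - δ ≤ gp p Q q_1 ≤ l/2` (minimality, `l = dist o (f • o)`),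
and `gp p q_j q_1 = l - gp q_1 p q_j ≥ l - C > l/2 + δ` (turn, long). For `j ≤ -1` the same with
`q_(-1)`. For `j = 0` the product is `0`. -/
theorem Axis.nearest (h : Hyp Y δ) (hδ : 0 ≤ δ) {f : G} {o : Y} {C : ℝ} (ax : Axis δ f o C)
    (g : G) (Q : Y) :
    ∃ i : ℤ, Normal f o Q (dist o (f • o) / 2 + δ) (g * f ^ i) := by
  obtain ⟨i, hi⟩ := A04_min (fun i : ℤ => dist Q ((g * f ^ i) • o)) (dist Q (g • o)) (by
    intro i
    have e1 := ax.lower i.natAbs
    have e2 := dist_pow_pow f o 0 i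
    rw [zpow_zero, one_smul, sub_zero] at e2
    rw [← e2, ← dist_smul g, smul_smul] at e1
    have e3 := dist_triangle (g • o) Q ((g * f ^ i) • o)
    rw [dist_comm (g • o) Q] at e3
    change _ ≤ dist Q ((g * f ^ i) • o) + dist Q (g • o)
    linarith)
  refine ⟨i, fun j => ?_⟩
  have hi' : ∀ j : ℤ, dist ((g * f ^ i) • o) Q ≤ dist Q ((g * f ^ i * f ^ j) • o) := by
    intro j
    have := hi (i + j)
    beta_reduce at this
    rw [zpow_add, ← mul_assoc] at this
    rw [dist_comm]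
    exact this
  rcases lt_trichotomy j 0 with hj | hj | hj
  · refine A04_side h ax.long (q1 := (g * f ^ i * f ^ (-1 : ℤ)) • o) ?_ (hi' (-1)) ?_
    · rw [mul_smul (g * f ^ i), dist_smul, zpow_neg, zpow_one, dist_inv_smul]
    · have e0 : (g * f ^ i) • o = (g * f ^ i) • (f ^ (0 : ℤ) • o) := by
        rw [zpow_zero, one_smul]
      rw [mul_smul _ (f ^ (-1 : ℤ)), mul_smul _ (f ^ j), e0, gp_smul, gp_comm]
      exact ax.turn j (-1) 0 (by omega) (by omega)
  · subst hj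
    rw [zpow_zero, mul_one]
    have e1 := gp_le_right ((g * f ^ i) • o) Q ((g * f ^ i) • o)
    rw [dist_self] at e1
    have e2 : 0 ≤ dist o (f • o) := dist_nonneg
    linarith
  · refine A04_side h ax.long (q1 := (g * f ^ i * f ^ (1 : ℤ)) • o) ?_ (hi' 1) ?_
    · rw [mul_smul (g * f ^ i), dist_smul, zpow_one]
    · have e0 : (g * f ^ i) • o = (g * f ^ i) • (f ^ (0 : ℤ) • o) := by
        rw [zpow_zero, one_smul]
      rw [mul_smul _ (f ^ (1 : ℤ)), mul_smul _ (f ^ j), e0, gp_smul]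
      exact ax.turn 0 1 j (by omega) (by omega)

end Pool.Agent.AcylTdc
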