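import Pool.Agent.AcylTdc.AxisDef

open Filter Topology Set

namespace Pool.Agent.AcylTdc

variable {G Y : Type*} [Group G] [MetricSpace Y] [MulAction G Y] [IsIsometricSMul G Y] {δ : ℝ}

private theorem A05_far {f : G} {o : Y} {C₁ : ℝ} {g : G} {Q : Y} (hg : Normal f o Q C₁ g)
    {M j : ℕ} (hj : j ≤ M) :
    dist ((g * f ^ j) • o) ((g * f ^ M) • o) = dist o (f ^ (M - j) • o) ∧
    dist ((g * f ^ M) • o) ((g * f ^ M * g⁻¹) • Q) = dist Q (g • o) ∧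
    gp ((g * f ^ M) • o) ((g * f ^ M * g⁻¹) • Q) ((g * f ^ j) • o) ≤ C₁ := by
  have eM : (g * f ^ M) • o = (g * f ^ M * g⁻¹) • (g • o) := by
    rw [smul_smul, inv_mul_cancel_right]
  refine ⟨?_, ?_, ?_⟩
  · have e1 : f ^ M = f ^ j * f ^ (M - j) := by
      rw [← pow_add, Nat.add_sub_cancel' hj]
    rw [e1, ← mul_assoc, mul_smul (g * f ^ j), dist_smul]
  · rw [eM, dist_smul, dist_comm]
  · have ej : (g * f ^ j) • o = (g * f ^ M * g⁻¹) • ((g * f ^ ((j : ℤ) - M)) • o) := by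
      rw [smul_smul, ← mul_assoc, inv_mul_cancel_right, mul_assoc g, zpow_sub, zpow_natCast,
        zpow_natCast, (Commute.pow_pow_self f j M).inv_right.eq, mul_inv_cancel_left]
    rw [ej, eM, gp_smul]
    exact hg _

/-- A05a: the geodesic from `Q` to `(g f^M g⁻¹) Q` passes near `(g f^j) o`. Proof: by `gp_smul` with
`g⁻¹` we may take `g = 1` (`Q₀ = g⁻¹ • Q`). With `γ_j = f^j • o`: `gp γ_j γ_0 Q₀ = dist γ_0 γ_j -
gp γ_0 Q₀ γ_j ≥ dist o (f^j • o) - C₁ ≥ j - C₁` and in the same way (apply `f^(-M)`)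
`gp γ_j (f^M Q₀) γ_M = dist γ_j γ_M - gp γ_M (f^M Q₀) γ_j ≥ (M - j) - C₁`. If both are
`> C + 2δ`, then from `Hyp.ineq3`: `min (gp γ_j γ_0 Q₀) (min (gp γ_j Q₀ (f^M Q₀))
(gp γ_j (f^M Q₀) γ_M)) - 2δ ≤ gp γ_j γ_0 γ_M ≤ C`, so `gp γ_j Q₀ (f^M Q₀) ≤ C + 2δ`. -/
theorem Axis.turn_middle (h : Hyp Y δ) (hδ : 0 ≤ δ) {f : G} {o : Y} {C : ℝ} (ax : Axis δ f o C)
    {C₁ : ℝ} {g : G} {Q : Y} (hg : Normal f o Q C₁ g) {M j : ℕ} (h1 : C + C₁ + 2 * δ < j)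
    (h2 : C + C₁ + 2 * δ + j < M) :
    gp ((g * f ^ j) • o) Q ((g * f ^ M * g⁻¹) • Q) ≤ C + 2 * δ := by
  have hC := ax.nonneg
  have hC₁ : 0 ≤ C₁ := (gp_nonneg _ _ _).trans (hg 0)
  have hjM : j ≤ M := by
    have : (j : ℝ) < M := by linarith
    exact (Nat.cast_lt.mp this).le
  obtain ⟨f1, f2, f3⟩ := A05_far hg hjM
  have e0 : dist (g • o) ((g * f ^ j) • o) = dist o (f ^ j • o) := by
    rw [mul_smul, dist_smul]
  have e1 := gp_add (g • o) ((g * f ^ j) • o) Q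
  have e2 : gp (g • o) Q ((g * f ^ j) • o) ≤ C₁ := by
    have := hg j
    rw [zpow_natCast] at this
    exact this
  rw [gp_comm (g • o) ((g * f ^ j) • o) Q, e0] at e1
  have l1 := ax.lower j
  have e3 := gp_add ((g * f ^ M) • o) ((g * f ^ j) • o) ((g * f ^ M * g⁻¹) • Q)
  rw [gp_comm ((g * f ^ M) • o) ((g * f ^ j) • o), dist_comm, f1,
    gp_comm ((g * f ^ j) • o) ((g * f ^ M) • o)] at e3
  have l2 := ax.lower (M - j)
  rw [Nat.cast_sub hjM] at l2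
  have e4 := h.ineq3 hδ ((g * f ^ j) • o) (g • o) Q ((g * f ^ M * g⁻¹) • Q) ((g * f ^ M) • o)
  have e5 : gp ((g * f ^ j) • o) (g • o) ((g * f ^ M) • o) ≤ C := by
    have := ax.turn 0 j M (by omega) (by omega)
    rw [zpow_zero, one_smul, zpow_natCast, zpow_natCast, ← gp_smul g, smul_smul, smul_smul] at this
    exact this
  rcases min_cases (gp ((g * f ^ j) • o) (g • o) Q)
      (min (gp ((g * f ^ j) • o) Q ((g * f ^ M * g⁻¹) • Q))
        (gp ((g * f ^ j) • o) ((g * f ^ M * g⁻¹) • Q) ((g * f ^ M) • o))) with ⟨h3, _⟩ | ⟨h3, _⟩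
  · rw [h3] at e4
    exfalso
    linarith
  · rw [h3] at e4
    rcases min_cases (gp ((g * f ^ j) • o) Q ((g * f ^ M * g⁻¹) • Q))
      (gp ((g * f ^ j) • o) ((g * f ^ M * g⁻¹) • Q) ((g * f ^ M) • o)) with ⟨h4, _⟩ | ⟨h4, _⟩
    · rw [h4] at e4
      linarith
    · rw [h4] at e4
      exfalso
      linarith

/-- A05b: distances. `dist Q ((g f^j) o) = dist Q (g o) + l_j - 2 gp (g o) Q ((g f^j) o)` and
`dist ((g f^j) o) ((g f^M g⁻¹) Q) = dist ((g f^M) o) ((g f^M g⁻¹) Q) + l_(M-j) - 2 gp (..)`, where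
`l_j = dist o (f^j • o)`, `dist ((g f^M) o) ((g f^M g⁻¹) Q) = dist (g o) Q` (apply `g f^M g⁻¹`). -/
theorem Axis.dist_middle {f : G} {o : Y} {C₁ : ℝ} {g : G} {Q : Y} (hg : Normal f o Q C₁ g)
    {M j : ℕ} (hj : j ≤ M) :
    (dist Q (g • o) + dist o (f ^ j • o) - 2 * C₁ ≤ dist Q ((g * f ^ j) • o) ∧
      dist Q ((g * f ^ j) • o) ≤ dist Q (g • o) + dist o (f ^ j • o)) ∧
    (dist Q (g • o) + dist o (f ^ (M - j) • o) - 2 * C₁ ≤
        dist ((g * f ^ j) • o) ((g * f ^ M * g⁻¹) • Q) ∧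
      dist ((g * f ^ j) • o) ((g * f ^ M * g⁻¹) • Q) ≤
        dist Q (g • o) + dist o (f ^ (M - j) • o)) := by
  obtain ⟨f1, f2, f3⟩ := A05_far hg hj
  have e0 : dist (g • o) ((g * f ^ j) • o) = dist o (f ^ j • o) := by
    rw [mul_smul, dist_smul]
  have e2 : gp (g • o) Q ((g * f ^ j) • o) ≤ C₁ := by
    have := hg j
    rw [zpow_natCast] at this
    exact this
  have e2' := gp_nonneg (g • o) Q ((g * f ^ j) • o)
  have e1 := dist_eq_gp (g • o) Q ((g * f ^ j) • o)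
  rw [e0, dist_comm (g • o) Q] at e1
  have f3' := gp_nonneg ((g * f ^ M) • o) ((g * f ^ M * g⁻¹) • Q) ((g * f ^ j) • o)
  have e3 := dist_eq_gp ((g * f ^ M) • o) ((g * f ^ M * g⁻¹) • Q) ((g * f ^ j) • o)
  rw [f2, dist_comm ((g * f ^ M) • o) ((g * f ^ j) • o), f1,
    dist_comm ((g * f ^ M * g⁻¹) • Q) ((g * f ^ j) • o)] at e3
  refine ⟨⟨?_, ?_⟩, ?_, ?_⟩ <;> linarith

/-- A05c: if two conjugates of `f^M` move `Q` to almost the same point, the two axes are close.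
Proof: write `a = g f^M g⁻¹`, `b = g' f^M g'⁻¹`, `D = dist Q (g o)`, `D' = dist Q (g' o)`. By A05a,
A05b and `dist_eq_gp`, `dist Q (a Q)` lies in `[2D + l_j + l_(M-j) - 4C₁ - 2C₂, 2D + l_j + l_(M-j)]`
with `C₂ = C + 2δ`, the same for `b` with `D'`; since `|dist Q (a Q) - dist Q (b Q)| ≤ R` we get
`|D - D'| ≤ 2C₁ + C₂ + R`, so `|dist Q ((g f^j) o) - dist Q ((g' f^j) o)| ≤ 4C₁ + C₂ + R`.
Now `Hyp.close` with `u = Q`, `v = a Q`, `q = (g f^j) o`, `q' = (g' f^j) o`,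
`gp q Q (a Q) ≤ C₂`, `gp q' Q (a Q) ≤ gp q' Q (b Q) + R ≤ C₂ + R`. -/
theorem Axis.middle (h : Hyp Y δ) (hδ : 0 ≤ δ) {f : G} {o : Y} {C : ℝ} (ax : Axis δ f o C)
    {C₁ R : ℝ} (hC₁ : 0 ≤ C₁) (hR : 0 ≤ R) {g g' : G} {Q : Y} (hg : Normal f o Q C₁ g)
    (hg' : Normal f o Q C₁ g') {M j : ℕ}
    (hd : dist ((g * f ^ M * g⁻¹) • Q) ((g' * f ^ M * g'⁻¹) • Q) ≤ R)
    (h1 : C + C₁ + 2 * δ < j) (h2 : C + C₁ + 2 * δ + j < M) :
    dist ((g * f ^ j) • o) ((g' * f ^ j) • o) ≤ 4 * C₁ + 3 * (C + 2 * δ) + 3 * R + 2 * δ := by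
  have hC := ax.nonneg
  have hjM : j ≤ M := by
    have : (j : ℝ) < M := by linarith
    exact (Nat.cast_lt.mp this).le
  have t1 := ax.turn_middle h hδ hg h1 h2
  have t2 := ax.turn_middle h hδ hg' h1 h2
  obtain ⟨⟨a1, a2⟩, a3, a4⟩ := Axis.dist_middle hg hjM
  obtain ⟨⟨b1, b2⟩, b3, b4⟩ := Axis.dist_middle hg' hjM
  set qa := (g * f ^ j) • o with hqa
  set qb := (g' * f ^ j) • o with hqb
  set A := (g * f ^ M * g⁻¹) • Q with hA
  set B := (g' * f ^ M * g'⁻¹) • Q with hB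
  have da := dist_eq_gp qa Q A
  have db := dist_eq_gp qb Q B
  have ga := gp_nonneg qa Q A
  have gb := gp_nonneg qb Q B
  have ca := dist_comm qa Q
  have cb := dist_comm qb Q
  have s1 := dist_triangle Q A B
  have s2 := dist_triangle Q B A
  have cAB := dist_comm B A
  have hq' : gp qb Q A ≤ (C + 2 * δ) + R := by
    have := abs_le.mp (gp_lip_right qb Q A B)
    linarith [this.2]
  have cl := h.close Q A qa qb (K := (C + 2 * δ) + R) (by linarith) hq'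
  have habs : |dist Q qa - dist Q qb| ≤ 4 * C₁ + (C + 2 * δ) + R := by
    rw [abs_le]
    constructor <;> linarith
  linarith

end Pool.Agent.AcylTdc
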