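import Pool.Agent.AcylTdc.A04
import Pool.Agent.AcylTdc.A05

open Filter Topology Set

namespace Pool.Agent.AcylTdc

variable {G Y : Type*} [Group G] [MetricSpace Y] [MulAction G Y] [IsIsometricSMul G Y] {δ : ℝ}

/-- A06a: pigeonhole. Let `K, R₀, N` be as in `Acyl` for `ε = K`. If `k` moves `f^j • o` by at most
`K` for all `j₀ ≤ j ≤ j₀ + N + i₁`, where `dist o (f^i₁ • o) ≥ R₀`, then `k` commutes with `f^s` for
some `1 ≤ s ≤ N + 1`. Proof: the elements `f^(-j) k f^j`, `j = j₀, ..., j₀ + N`, move `o` and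
`f^i₁ • o` by at most `K`; there are `N + 1` indices, so two of the elements are equal
(`f^(-i) k f^i = f^(-j) k f^j` gives `f^(j-i) k = k f^(j-i)`). -/
theorem exists_commute {f : G} {o : Y} {K R₀ : ℝ} {N : ℕ}
    (hN : ∀ x y : Y, R₀ ≤ dist x y →
      {g : G | dist x (g • x) ≤ K ∧ dist y (g • y) ≤ K}.encard ≤ N)
    {i₁ j₀ : ℕ} (hi : R₀ ≤ dist o (f ^ i₁ • o)) {k : G}
    (hk : ∀ j : ℕ, j₀ ≤ j → j ≤ j₀ + N + i₁ → dist (f ^ j • o) ((k * f ^ j) • o) ≤ K) :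
    ∃ s : ℕ, 1 ≤ s ∧ s ≤ N + 1 ∧ k * f ^ s = f ^ s * k := by
  classical
  let e : ℕ → G := fun t => (f ^ (j₀ + t))⁻¹ * k * f ^ (j₀ + t)
  have hmem : ∀ t ∈ Finset.range (N + 1),
      e t ∈ {g : G | dist o (g • o) ≤ K ∧ dist (f ^ i₁ • o) (g • f ^ i₁ • o) ≤ K} := by
    intro t ht
    have ht' : t ≤ N := by simpa [Nat.lt_succ_iff] using ht
    constructor
    · have h1 := hk (j₀ + t) (by omega) (by omega)
      rw [← dist_smul (f ^ (j₀ + t))⁻¹, inv_smul_smul, ← mul_smul] at h1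
      simpa only [e, mul_assoc] using h1
    · have h1 := hk (j₀ + t + i₁) (by omega) (by omega)
      rw [← dist_smul (f ^ (j₀ + t))⁻¹, ← mul_smul, ← mul_smul] at h1
      rw [← mul_smul]
      have a1 : (f ^ (j₀ + t))⁻¹ * f ^ (j₀ + t + i₁) = f ^ i₁ := by rw [pow_add]; group
      have a2 : (f ^ (j₀ + t))⁻¹ * (k * f ^ (j₀ + t + i₁)) = e t * f ^ i₁ := by
        simp only [e]
        rw [pow_add f (j₀ + t) i₁]
        simp only [mul_assoc]
      rw [a1, a2] at h1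
      exact h1
  have hnot : ¬ Set.InjOn e (↑(Finset.range (N + 1)) : Set ℕ) := by
    intro hinj
    have h1 : (e '' (↑(Finset.range (N + 1)) : Set ℕ)).encard = N + 1 := by
      rw [hinj.encard_image, Set.encard_coe_eq_coe_finsetCard, Finset.card_range]
      push_cast
      rfl
    have h2 : (e '' (↑(Finset.range (N + 1)) : Set ℕ)).encard ≤ N := by
      refine (Set.encard_le_encard ?_).trans (hN o (f ^ i₁ • o) hi)
      rintro _ ⟨t, ht, rfl⟩
      exact hmem t (Finset.mem_coe.1 ht)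
    rw [h1] at h2
    have h3 : (N + 1 : ℕ) ≤ N := by exact_mod_cast h2
    omega
  simp only [Set.InjOn, not_forall] at hnot
  obtain ⟨a, ha, b, hb, hab, hne⟩ := hnot
  wlog hlt : a < b generalizing a b
  · exact this b hb a ha hab.symm (Ne.symm hne) (by omega)
  have ha' : a ≤ N := by simpa [Nat.lt_succ_iff] using ha
  have hb' : b ≤ N := by simpa [Nat.lt_succ_iff] using hb
  refine ⟨b - a, by omega, by omega, ?_⟩
  obtain ⟨s, rfl⟩ := Nat.exists_eq_add_of_lt hlt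
  have hs : a + s + 1 - a = s + 1 := by omega
  rw [hs]
  simp only [e] at hab
  have e1 : f ^ (j₀ + (a + s + 1)) = f ^ (s + 1) * f ^ (j₀ + a) := by
    rw [← pow_add]; congr 1; omega
  rw [e1] at hab
  generalize f ^ (s + 1) = u at *
  generalize f ^ (j₀ + a) = v at *
  have h2 : k = u⁻¹ * k * u := by
    have h3 : v * (v⁻¹ * k * v) * v⁻¹ = v * ((u * v)⁻¹ * k * (u * v)) * v⁻¹ := by rw [hab]
    have h4 : v * (v⁻¹ * k * v) * v⁻¹ = k := by group
    have h5 : v * ((u * v)⁻¹ * k * (u * v)) * v⁻¹ = u⁻¹ * k * u := by group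
    rw [h4, h5] at h3
    exact h3
  have h6 : u * k = u * (u⁻¹ * k * u) := by rw [← h2]
  have h7 : u * (u⁻¹ * k * u) = k * u := by group
  rw [h7] at h6
  exact h6.symm

/-- A06b: separation of conjugates. Proof: WLOG `R ≥ 0` (otherwise the hypothesis is false).
`C₁ = dist o (f • o) / 2 + δ`, `K` the constant of `Axis.middle`, `R₀, N` from `Acyl` for `ε = K`,
`i₁` with `dist o (f^i₁ • o) ≥ R₀` (`lower`), `j₀ > C + C₁ + 2δ`, and `M` a multiple of `(N+1)!`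
larger than `j₀ + N + i₁ + j₀ + 1`. Given `g, g', Q`: by `Axis.nearest` replace `g` by `g f^i` and
`g'` by `g' f^i'` (this changes neither conjugate); with `k = g⁻¹ g'` `Axis.middle` gives
`dist (f^j • o) ((k f^j) • o) ≤ K`, so by A06a `k` commutes with `f^s`, `s ∣ (N+1)! ∣ M`, hence
with `f^M`. -/
theorem separation (h : Hyp Y δ) (hδ : 0 ≤ δ) (hac : Acyl G Y) {f : G} {o : Y} {C : ℝ}
    (ax : Axis δ f o C) (R : ℝ) :
    ∃ M : ℕ, 1 ≤ M ∧ ∀ (g g' : G) (Q : Y),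
      dist ((g * f ^ M * g⁻¹) • Q) ((g' * f ^ M * g'⁻¹) • Q) ≤ R →
        g * f ^ M * g⁻¹ = g' * f ^ M * g'⁻¹ := by
  rcases lt_or_ge R 0 with hR | hR
  · refine ⟨1, le_rfl, fun g g' Q hd => ?_⟩
    exact absurd (dist_nonneg.trans hd) (by linarith)
  set C₁ : ℝ := dist o (f • o) / 2 + δ with hC₁def
  have hC₁ : 0 ≤ C₁ := by
    have := dist_nonneg (x := o) (y := f • o)
    rw [hC₁def]
    linarith
  obtain ⟨R₀, N, hN⟩ := hac (4 * C₁ + 3 * (C + 2 * δ) + 3 * R + 2 * δ)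
  obtain ⟨i₁, hi₁⟩ := exists_nat_ge R₀
  have hi : R₀ ≤ dist o (f ^ i₁ • o) := hi₁.trans (ax.lower i₁)
  obtain ⟨j₀, hj₀⟩ := exists_nat_gt (C + C₁ + 2 * δ)
  set M : ℕ := (N + 1).factorial * (2 * j₀ + N + i₁ + 1) with hM
  have hMge : 2 * j₀ + N + i₁ + 1 ≤ M :=
    Nat.le_mul_of_pos_left _ (Nat.factorial_pos _)
  refine ⟨M, by omega, fun g g' Q hd => ?_⟩
  obtain ⟨i, hi1⟩ := ax.nearest h hδ g Q
  obtain ⟨i', hi1'⟩ := ax.nearest h hδ g' Q
  have hcomm : ∀ (n : ℤ), f ^ n * f ^ M * (f ^ n)⁻¹ = f ^ M := by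
    intro n
    have : Commute (f ^ n) (f ^ M) := (Commute.refl f).zpow_left n |>.pow_right M
    rw [this.eq]
    group
  have hg : (g * f ^ i) * f ^ M * (g * f ^ i)⁻¹ = g * f ^ M * g⁻¹ := by
    have : (g * f ^ i) * f ^ M * (g * f ^ i)⁻¹ = g * (f ^ i * f ^ M * (f ^ i)⁻¹) * g⁻¹ := by
      simp only [mul_assoc, mul_inv_rev]
    rw [this, hcomm]
  have hg' : (g' * f ^ i') * f ^ M * (g' * f ^ i')⁻¹ = g' * f ^ M * g'⁻¹ := by
    have : (g' * f ^ i') * f ^ M * (g' * f ^ i')⁻¹ =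
        g' * (f ^ i' * f ^ M * (f ^ i')⁻¹) * g'⁻¹ := by
      simp only [mul_assoc, mul_inv_rev]
    rw [this, hcomm]
  rw [← hg, ← hg'] at hd ⊢
  generalize g * f ^ i = a at *
  generalize g' * f ^ i' = b at *
  have hk : ∀ j : ℕ, j₀ ≤ j → j ≤ j₀ + N + i₁ →
      dist (f ^ j • o) ((a⁻¹ * b * f ^ j) • o) ≤ 4 * C₁ + 3 * (C + 2 * δ) + 3 * R + 2 * δ := by
    intro j hj hj'
    have h1 : C + C₁ + 2 * δ < (j : ℝ) := lt_of_lt_of_le hj₀ (by exact_mod_cast hj)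
    have h2 : C + C₁ + 2 * δ + (j : ℝ) < (M : ℝ) := by
      have h3 : ((j₀ + j : ℕ) : ℝ) ≤ (M : ℝ) := by
        have : j₀ + j ≤ M := by omega
        exact_mod_cast this
      push_cast at h3
      linarith
    have h4 := ax.middle h hδ hC₁ hR hi1 hi1' hd h1 h2
    rw [← dist_smul a⁻¹, ← mul_smul, ← mul_smul] at h4
    have e1 : a⁻¹ * (a * f ^ j) = f ^ j := by group
    have e2 : a⁻¹ * (b * f ^ j) = a⁻¹ * b * f ^ j := by group
    rw [e1, e2] at h4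
    exact h4
  obtain ⟨s, hs1, hs2, hs3⟩ := exists_commute hN hi hk
  have hdvd : s ∣ M := (Nat.dvd_factorial hs1 hs2).mul_right _
  obtain ⟨t, ht⟩ := hdvd
  have hc : Commute (a⁻¹ * b) (f ^ M) := by
    rw [ht, pow_mul]
    exact (show Commute (a⁻¹ * b) (f ^ s) from hs3).pow_right t
  have e3 : b = a * (a⁻¹ * b) := by group
  rw [e3]
  generalize a⁻¹ * b = k at hc
  have e4 : a * k * f ^ M * (a * k)⁻¹ = a * (k * f ^ M) * k⁻¹ * a⁻¹ := by
    simp only [mul_assoc, mul_inv_rev]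
  rw [e4, hc.eq]
  group

end Pool.Agent.AcylTdc
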