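import Pool.Agent.AcylTdc.Basic

open Filter Topology Set

namespace Pool.Agent.AcylTdc

variable {G Y : Type*} [Group G] [MetricSpace Y] [MulAction G Y] [IsIsometricSMul G Y] {δ : ℝ}

private theorem A07_gp_ge (c : G) (p u : Y) {T : ℝ} (hu : dist u (c • u) ≤ T) :
    dist u p - T ≤ gp (c • p) (c • u) u := by
  unfold gp
  have h1 : dist (c • p) (c • u) = dist p u := dist_smul c p u
  have h2 := dist_triangle (c • p) u (c • u)
  rw [h1] at h2
  rw [h1, dist_comm (c • u) u, dist_comm u p]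
  linarith

/-- A07a: Let `p` lie on a geodesic from `u` to `v` (`dist u p + dist p v = dist u v`), let `c` move
`u` and `v` by at most `T`, and let `dist u p, dist p v > T + 2δ`. Then `c • p` is near the geodesic.
Proof: `gp (c p) (c u) (c v) = 0`, `gp (c p) u (c u) ≥ dist u p - T` because
`dist (c p) u ≥ dist (c p) (c u) - T`, the same for `v`, and `Hyp.ineq3`. -/
theorem near_of_move (h : Hyp Y δ) (hδ : 0 ≤ δ) {T : ℝ} {u v p : Y} {c : G}
    (hp : dist u p + dist p v = dist u v) (hu : dist u (c • u) ≤ T) (hv : dist v (c • v) ≤ T)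
    (h1 : T + 2 * δ < dist u p) (h2 : T + 2 * δ < dist p v) :
    gp (c • p) u v ≤ 2 * δ := by
  have h0 : gp (c • p) (c • u) (c • v) = 0 := by
    rw [gp_smul]
    exact gp_zero_of_between p u v (by rw [dist_comm p u]; exact hp.symm)
  have h3 := h.ineq3 hδ (c • p) (c • u) u v (c • v)
  rw [h0] at h3
  have h4 := A07_gp_ge c p u hu
  have h5 := A07_gp_ge c p v hv
  rw [gp_comm, dist_comm v p] at h5
  rcases min_cases (gp (c • p) (c • u) u) (min (gp (c • p) u v) (gp (c • p) v (c • v))) with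
    ⟨h6, _⟩ | ⟨h6, _⟩
  · rw [h6] at h3
    linarith
  · rw [h6] at h3
    rcases min_cases (gp (c • p) u v) (gp (c • p) v (c • v)) with ⟨h7, _⟩ | ⟨h7, _⟩
    · rw [h7] at h3
      linarith
    · rw [h7] at h3
      linarith

/-- A07b: position of a second point `q` behind `p`. Proof: `gp (c p) (c u) (c q) = 0`,
`gp (c p) (c u) u ≥ dist u p - T > δ`, so `gp (c p) u (c q) ≤ δ` by `Hyp.ineq`, and
`dist u (c q) = dist u (c p) + dist p q - 2 gp (c p) u (c q)`. -/
theorem position (h : Hyp Y δ) (hδ : 0 ≤ δ) {T : ℝ} {u p q : Y} {c : G}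
    (hp : dist u p + dist p q = dist u q) (hu : dist u (c • u) ≤ T) (h1 : T + δ < dist u p) :
    dist u (c • p) + dist p q - 2 * δ ≤ dist u (c • q) ∧
      dist u (c • q) ≤ dist u (c • p) + dist p q := by
  have h0 : gp (c • p) (c • u) (c • q) = 0 := by
    rw [gp_smul]
    exact gp_zero_of_between p u q (by rw [dist_comm p u]; exact hp.symm)
  have h3 := h.ineq (c • p) (c • u) u (c • q)
  rw [h0] at h3
  have h4 := A07_gp_ge c p u hu
  have h5 : gp (c • p) u (c • q) ≤ δ := by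
    rcases min_cases (gp (c • p) (c • u) u) (gp (c • p) u (c • q)) with ⟨h6, _⟩ | ⟨h6, _⟩
    · rw [h6] at h3
      linarith
    · rw [h6] at h3
      linarith
  have h6 : dist (c • p) (c • q) = dist p q := dist_smul c p q
  constructor
  · unfold gp at h5
    rw [h6, dist_comm (c • p) u] at h5
    linarith
  · have := dist_triangle u (c • p) (c • q)
    rw [h6] at this
    exact this

/-- A07c: the linear bound. Proof: let `K = 8δ + 1`, let `R₁, N` be as in `Acyl` for `ε = K`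
(WLOG `R₁ ≥ 0`), `t = T + 2δ + 1`, and `R₀ = R₁ + 4δ + 2`. By `Geod.two_points` choose `p, q` on a
geodesic from `u` to `v` with `dist u p = t`, `dist u q = t + R₁`. For `c` in the set let
`β c = dist u (c • p) ∈ [t - T, t + T]`. If `⌊β c⌋ = ⌊β c'⌋`, then `dist (c p) (c' p) ≤ 1 + 6δ` and
`dist (c q) (c' q) ≤ 1 + 2δ + 6δ` by `Hyp.close`, A07a, A07b. So `c⁻¹ c'` moves `p` and `q` by at most
`K`, and each class of the map `c ↦ ⌊β c⌋` has at most `N` elements. There are at most `2⌈T⌉₊ + 2`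
classes. -/
theorem linear_bound (h : Hyp Y δ) (hδ : 0 ≤ δ) (hgeo : Geod Y) (hac : Acyl G Y) :
    ∃ (N : ℕ) (R₀ : ℝ), ∀ T : ℝ, 0 ≤ T → ∀ u v : Y, 2 * T + R₀ ≤ dist u v →
      {c : G | dist u (c • u) ≤ T ∧ dist v (c • v) ≤ T}.encard ≤ ((N * (⌈T⌉₊ + 1) : ℕ) : ℕ∞) := by
  classical
  obtain ⟨R₂, N, hN⟩ := hac (8 * δ + 1)
  set R₁ : ℝ := max R₂ 0 with hR₁
  have hR0 : 0 ≤ R₁ := le_max_right _ _
  refine ⟨2 * N, R₁ + 4 * δ + 2, ?_⟩
  intro T hT u v huv
  set t : ℝ := T + 2 * δ + 1 with ht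
  obtain ⟨p, q, hup, hpv, huq, hqv, hpq⟩ := hgeo.two_points u v (s := t) (t := t + R₁)
    (by linarith) (by linarith) (by linarith)
  have hpq' : dist p q = R₁ := by rw [hpq]; ring
  have hset : {g : G | dist p (g • p) ≤ 8 * δ + 1 ∧ dist q (g • q) ≤ 8 * δ + 1}.encard ≤ N :=
    hN p q (by rw [hpq']; exact le_max_left _ _)
  set S : Set G := {c : G | dist u (c • u) ≤ T ∧ dist v (c • v) ≤ T} with hS
  let β : G → ℤ := fun c => ⌊dist u (c • p)⌋
  -- two elements of the same class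
  have hclass : ∀ c ∈ S, ∀ c' ∈ S, β c = β c' →
      dist p ((c⁻¹ * c') • p) ≤ 8 * δ + 1 ∧ dist q ((c⁻¹ * c') • q) ≤ 8 * δ + 1 := by
    rintro c ⟨hc1, hc2⟩ c' ⟨hc1', hc2'⟩ hβ
    have hab : |dist u (c • p) - dist u (c' • p)| < 1 := Int.abs_sub_lt_one_of_floor_eq_floor hβ
    have e1 : ∀ x : Y, dist x ((c⁻¹ * c') • x) = dist (c • x) (c' • x) := by
      intro x
      rw [mul_smul, ← dist_smul c x (c⁻¹ • c' • x), smul_inv_smul]
    have n1 : gp (c • p) u v ≤ 2 * δ :=
      near_of_move h hδ (by rw [hup, hpv]; ring) hc1 hc2 (by rw [hup]; linarith)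
        (by rw [hpv]; linarith)
    have n1' : gp (c' • p) u v ≤ 2 * δ :=
      near_of_move h hδ (by rw [hup, hpv]; ring) hc1' hc2' (by rw [hup]; linarith)
        (by rw [hpv]; linarith)
    have n2 : gp (c • q) u v ≤ 2 * δ :=
      near_of_move h hδ (by rw [huq, hqv]; ring) hc1 hc2 (by rw [huq]; linarith)
        (by rw [hqv]; linarith)
    have n2' : gp (c' • q) u v ≤ 2 * δ :=
      near_of_move h hδ (by rw [huq, hqv]; ring) hc1' hc2' (by rw [huq]; linarith)
        (by rw [hqv]; linarith)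
    have m1 := h.close u v (c • p) (c' • p) n1 n1'
    have m2 := h.close u v (c • q) (c' • q) n2 n2'
    have p1 := position h hδ (u := u) (p := p) (q := q) (c := c)
      (by rw [hup, hpq', huq]) hc1 (by rw [hup]; linarith)
    have p1' := position h hδ (u := u) (p := p) (q := q) (c := c')
      (by rw [hup, hpq', huq]) hc1' (by rw [hup]; linarith)
    rw [e1, e1]
    have hab2 := abs_lt.1 hab
    constructor
    · linarith
    · have hq' : |dist u (c • q) - dist u (c' • q)| ≤ 1 + 2 * δ := by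
        rw [abs_le]
        constructor <;> linarith [p1.1, p1.2, p1'.1, p1'.2, hab2.1, hab2.2]
      linarith
  have hfib : ∀ k : ℤ, {c ∈ S | β c = k}.encard ≤ N := by
    intro k
    rcases Set.eq_empty_or_nonempty {c ∈ S | β c = k} with he | ⟨c0, hc0, hk0⟩
    · rw [he, Set.encard_empty]
      exact zero_le
    · refine le_trans ?_ hset
      refine Set.encard_le_encard_of_injOn (f := fun c => c0⁻¹ * c) ?_ ?_
      · rintro c ⟨hc, hk⟩
        exact hclass c0 hc0 c hc (by rw [hk0, hk])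
      · intro c _ c' _ hcc
        exact mul_left_cancel hcc
  have hfibfin : ∀ k : ℤ, {c ∈ S | β c = k}.Finite := fun k =>
    Set.finite_of_encard_le_coe (hfib k)
  have hmap : ∀ c ∈ S, β c ∈ Finset.Icc ⌊t - T⌋ ⌊t + T⌋ := by
    rintro c ⟨hc1, _⟩
    have h3 := dist_triangle u (c • u) (c • p)
    have h4 : dist (c • u) (c • p) = dist u p := dist_smul c u p
    have h5 := dist_triangle (c • u) u (c • p)
    rw [h4, hup] at h3 h5
    rw [dist_comm (c • u) u] at h5
    rw [Finset.mem_Icc]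
    exact ⟨Int.floor_le_floor (by linarith), Int.floor_le_floor (by linarith)⟩
  have hSfin : S.Finite := by
    have hsub : S ⊆ ⋃ k ∈ Finset.Icc ⌊t - T⌋ ⌊t + T⌋, {c ∈ S | β c = k} := by
      intro c hc
      exact Set.mem_iUnion₂.2 ⟨β c, hmap c hc, hc, rfl⟩
    refine Set.Finite.subset ?_ hsub
    exact Set.Finite.biUnion (Finset.finite_toSet _) fun k _ => hfibfin k
  have hcard : hSfin.toFinset.card ≤ N * (Finset.Icc ⌊t - T⌋ ⌊t + T⌋).card := by
    refine Finset.card_le_mul_card_image_of_maps_to (f := β) ?_ N ?_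
    · intro c hc
      exact hmap c (hSfin.mem_toFinset.1 hc)
    · intro k _
      have h6 : ((hSfin.toFinset.filter fun c => β c = k : Finset G) : Set G) =
          {c ∈ S | β c = k} := by
        ext c
        simp
      have h7 := hfib k
      rw [← h6, Set.encard_coe_eq_coe_finsetCard] at h7
      exact_mod_cast h7
  have hIcc : (Finset.Icc ⌊t - T⌋ ⌊t + T⌋).card ≤ 2 * (⌈T⌉₊ + 1) := by
    rw [Int.card_Icc]
    have h8 : ⌊t + T⌋ ≤ ⌊t - T⌋ + 2 * (⌈T⌉₊ : ℤ) := by
      rw [← sub_le_iff_le_add, Int.le_floor]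
      have h9 := Int.floor_le (t + T)
      have h10 := Nat.le_ceil T
      push_cast
      linarith
    omega
  rw [← hSfin.coe_toFinset, Set.encard_coe_eq_coe_finsetCard]
  have h11 : hSfin.toFinset.card ≤ 2 * N * (⌈T⌉₊ + 1) :=
    calc hSfin.toFinset.card ≤ N * (Finset.Icc ⌊t - T⌋ ⌊t + T⌋).card := hcard
      _ ≤ N * (2 * (⌈T⌉₊ + 1)) := Nat.mul_le_mul_left N hIcc
      _ = 2 * N * (⌈T⌉₊ + 1) := by ring
  exact_mod_cast h11

end Pool.Agent.AcylTdc
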