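import Pool.Agent.AcylTdc.Basic

open Filter Topology Set

namespace Pool.Agent.AcylTdc

variable {G Y : Type*} [Group G] [MetricSpace Y] [MulAction G Y] [IsIsometricSMul G Y] {δ : ℝ}

/-- A08: a group with a bounded orbit almost fixes a point. Proof: let `A = {d • y | d ∈ D}` (bounded
and `D`-invariant) and for `q : Y` let `ρ q = sup_{x ∈ A} dist q x` (a `D`-invariant function,
bounded below by `0`), `r = inf_q ρ q`; choose `q` with `ρ q ≤ r + 1`. Let `d ∈ D`, `q' = d • q`,
so `ρ q' ≤ r + 1`, and let `m` be a midpoint of `q, q'` (`Geod.point`). For `x ∈ A` the four point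
inequality for `x, m, q, q'` gives `dist x m ≤ max (dist x q) (dist x q') - dist q q' / 2 + 2δ
≤ r + 1 - dist q q' / 2 + 2δ`. So `r ≤ ρ m ≤ r + 1 - dist q q' / 2 + 2δ`. -/
theorem quasi_center (h : Hyp Y δ) (hδ : 0 ≤ δ) (hgeo : Geod Y) (D : Subgroup G)
    (hD : ∃ (y : Y) (B : ℝ), ∀ d ∈ D, dist y (d • y) ≤ B) :
    ∃ p : Y, ∀ d ∈ D, dist p (d • p) ≤ 4 * δ + 2 := by
  obtain ⟨y, B, hB⟩ := hD
  haveI : Nonempty Y := ⟨y⟩
  have _ := hδ
  let ρ : Y → ℝ := fun q => ⨆ e : D, dist q ((e : G) • y)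
  have hbdd : ∀ q, BddAbove (Set.range fun e : D => dist q ((e : G) • y)) := by
    intro q
    refine ⟨dist q y + B, ?_⟩
    rintro _ ⟨e, rfl⟩
    have h1 := dist_triangle q y ((e : G) • y)
    have h2 := hB e e.2
    simp only
    linarith
  have hle : ∀ (q : Y) (e : G), e ∈ D → dist q (e • y) ≤ ρ q := fun q e he =>
    le_ciSup (hbdd q) ⟨e, he⟩
  have hρ0 : ∀ q, 0 ≤ ρ q := fun q => by
    have := hle q 1 D.one_mem
    exact dist_nonneg.trans this
  have hbelow : BddBelow (Set.range ρ) := ⟨0, by rintro _ ⟨q, rfl⟩; exact hρ0 q⟩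
  set r := ⨅ q, ρ q with hr
  obtain ⟨q, hq⟩ := exists_lt_of_ciInf_lt (show ⨅ q, ρ q < r + 1 by rw [← hr]; linarith)
  refine ⟨q, fun d hd => ?_⟩
  obtain ⟨m, hm1, hm2⟩ := hgeo.point q (d • q) (t := dist q (d • q) / 2)
    (by have := dist_nonneg (x := q) (y := d • q); linarith)
    (by have := dist_nonneg (x := q) (y := d • q); linarith)
  have hm : ρ m ≤ r + 1 - dist q (d • q) / 2 + 2 * δ := by
    refine ciSup_le fun e => ?_
    have h1 := h.four_point ((e : G) • y) m q (d • q)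
    have h2 : dist ((e : G) • y) q ≤ r + 1 := by
      rw [dist_comm]
      exact (hle q e e.2).trans hq.le
    have h3 : dist ((e : G) • y) (d • q) ≤ r + 1 := by
      have e1 : dist ((e : G) • y) (d • q) = dist q ((d⁻¹ * (e : G)) • y) := by
        rw [← dist_smul d⁻¹ ((e : G) • y) (d • q), inv_smul_smul, ← mul_smul, dist_comm]
      rw [e1]
      exact (hle q _ (D.mul_mem (D.inv_mem hd) e.2)).trans hq.le
    have h4 : dist m q = dist q (d • q) / 2 := by rw [dist_comm]; exact hm1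
    have h5 : max (dist ((e : G) • y) q + dist m (d • q)) (dist ((e : G) • y) (d • q) + dist m q) ≤
        r + 1 + dist q (d • q) / 2 := by
      refine max_le ?_ ?_
      · rw [hm2]; linarith
      · rw [h4]; linarith
    rw [dist_comm m]
    linarith
  have hrm : r ≤ ρ m := ciInf_le hbelow m
  linarith

end Pool.Agent.AcylTdc
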