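import Pool.Agent.AcylTdc.AxisDef

open Filter Topology Set Pool.Agent.TwistedRatio

namespace Pool.Agent.AcylTdc

variable {G : Type*} [Group G]

private lemma conjs_finite (F : G) (l : List G) : (conjs F l).Finite := by
  have : conjs F l ⊆ (fun i => (l.take i).prod * F * ((l.take i).prod)⁻¹) ''
      (↑(Finset.range (l.length + 1)) : Set ℕ) := by
    rintro a ⟨i, hi, rfl⟩
    exact ⟨i, by simpa using Nat.lt_succ_of_le hi, rfl⟩
  exact (Set.Finite.image _ (Finset.finite_toSet _)).subset this

private lemma comm_of_conj_eq {F g u : G} (h : g * F * g⁻¹ = u * F * u⁻¹) :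
    (u⁻¹ * g) * F = F * (u⁻¹ * g) := by
  have h1 : g * F = u * F * u⁻¹ * g := by
    rw [← h]; simp
  calc (u⁻¹ * g) * F = u⁻¹ * (g * F) := by simp [mul_assoc]
    _ = u⁻¹ * (u * F * u⁻¹ * g) := by rw [h1]
    _ = F * (u⁻¹ * g) := by simp [mul_assoc]

/-- A09: few elements have few conjugates along a word. Proof: let `Cz = {c | c F = F c}` (a
subgroup) and `X' = X ∪ X⁻¹` (finite). The conjugates by `p` and `q` are equal iff `p⁻¹ q ∈ Cz`, so
`(conjs F l).ncard` is the number of left cosets `p Cz` visited by the prefixes `p` of `l`.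
Define `U 0 = ∅`, `U 1 = Cz ∩ ball X n`, `U (j+1) = U j ∪ (⋃ u ∈ U j, ⋃ s ∈ X', (u s Cz) ∩ ball X n)`.
By induction on the length of the word (`List.reverseRecOn` or on the index `i`) all prefixes of `l`
lie in `U ((conjs F l).ncard)`: the prefix `p s` either lies in a visited coset, and for a visited
coset `w Cz` the whole set `w Cz ∩ ball X n` is contained in the same `U j`, or it is in a new coset.
Sizes: `(w Cz ∩ ball X n).ncard ≤ (Cz ∩ ball X (2n)).ncard ≤ A (2n + 1)` (translate by the inverse of
one of its elements), so `(U (j+1)).ncard ≤ (U j).ncard * (1 + X'.ncard * A (2n+1))` and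
`(U m).ncard ≤ (K (n+1))^m` with `K = (1 + X'.ncard) (2A + 1)`. For `m = 0` the set is empty, because
`F ∈ conjs F l` and `conjs F l` is finite. -/
theorem count_few {X : Set G} (hX : X.Finite) (F : G) (A : ℕ)
    (hA : ∀ n, ({c | c * F = F * c} ∩ ball X n).ncard ≤ A * (n + 1)) :
    ∃ K : ℕ, ∀ m n, (few X F m n).ncard ≤ (K * (n + 1)) ^ m := by
  classical
  have hY : (X ∪ X⁻¹).Finite := hX.union hX.inv
  set Y : Finset G := hY.toFinset with hYdef
  refine ⟨(1 + Y.card) * (2 * A) + 1, fun m n => ?_⟩
  set B : Finset G := (ball_finite hX n).toFinset with hB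
  -- the part of a left coset of the centralizer in the ball
  let f : G → Finset G := fun w => B.filter (fun g => (w⁻¹ * g) * F = F * (w⁻¹ * g))
  have hf : ∀ w, (f w).card ≤ A * (2 * n + 1) := by
    intro w
    rcases (f w).eq_empty_or_nonempty with h0 | ⟨g₀, hg₀⟩
    · rw [h0]; simp
    · have hfin : ({c | c * F = F * c} ∩ ball X (2 * n)).Finite :=
        (ball_finite hX _).subset Set.inter_subset_right
      have h1 : (f w).card ≤ (hfin.toFinset).card := by
        refine Finset.card_le_card_of_injOn (fun g => g₀⁻¹ * g) ?_ ?_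
        · intro g hg
          have hg' := Finset.mem_filter.1 (Finset.mem_coe.1 hg)
          have hg₀' := Finset.mem_filter.1 hg₀
          have hgB : g ∈ ball X n := by simpa [hB] using hg'.1
          have hg₀B : g₀ ∈ ball X n := by simpa [hB] using hg₀'.1
          simp only [Set.Finite.coe_toFinset, Set.mem_inter_iff, Set.mem_setOf_eq]
          constructor
          · have e1 : g₀⁻¹ * g = (w⁻¹ * g₀)⁻¹ * (w⁻¹ * g) := by group
            rw [e1]
            have c1 : Commute (w⁻¹ * g) F := hg'.2
            have c2 : Commute (w⁻¹ * g₀) F := hg₀'.2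
            exact (c2.inv_left.mul_left c1)
          · have := ball_mul (ball_inv hg₀B) hgB
            rw [two_mul]
            exact this
        · intro a _ b _ hab
          simpa using hab
      have h2 := hA (2 * n)
      rw [Set.ncard_eq_toFinset_card _ hfin] at h2
      exact h1.trans h2
  -- elements of the ball in a visited coset
  let W : ℕ → Finset G := fun m => B.filter (fun g => ∃ l : List G, l.length ≤ n ∧
    (∀ s ∈ l, s ∈ X ∨ s⁻¹ ∈ X) ∧ (conjs F l).ncard ≤ m ∧ g * F * g⁻¹ ∈ conjs F l)
  have hW0 : W 0 = ∅ := by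
    rw [Finset.eq_empty_iff_forall_notMem]
    intro g hg
    obtain ⟨_, l, _, _, h3, h4⟩ := Finset.mem_filter.1 hg
    have : 0 < (conjs F l).ncard := (Set.ncard_pos (conjs_finite F l)).2 ⟨_, h4⟩
    omega
  have hWs : ∀ k, W (k + 1) ⊆ f 1 ∪ (W k ×ˢ Y).biUnion (fun p => f (p.1 * p.2)) := by
    intro k g hg
    obtain ⟨hgB, l, hl, hl', h3, h4⟩ := Finset.mem_filter.1 hg
    have hex : ∃ i, i ≤ l.length ∧
        g * F * g⁻¹ = (l.take i).prod * F * ((l.take i).prod)⁻¹ := h4
    obtain ⟨hi1, hi2⟩ := Nat.find_spec hex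
    have hmin : ∀ j < Nat.find hex, ¬ (j ≤ l.length ∧
        g * F * g⁻¹ = (l.take j).prod * F * ((l.take j).prod)⁻¹) := fun j hj =>
      Nat.find_min hex hj
    generalize Nat.find hex = i at hi1 hi2 hmin
    rw [Finset.mem_union]
    rcases i with _ | j
    · left
      refine Finset.mem_filter.2 ⟨hgB, ?_⟩
      refine comm_of_conj_eq ?_
      simpa using hi2
    · right
      have hjl : j < l.length := hi1
      have hlen : (l.take j).length = j := by simp; omega
      have hsub : conjs F (l.take j) ⊆ conjs F l := by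
        rintro a ⟨i, hi, rfl⟩
        rw [hlen] at hi
        refine ⟨i, by omega, ?_⟩
        rw [List.take_take, min_eq_left hi]
      have hnot : g * F * g⁻¹ ∉ conjs F (l.take j) := by
        rintro ⟨i, hi, h⟩
        rw [hlen] at hi
        rw [List.take_take, min_eq_left hi] at h
        exact hmin i (by omega) ⟨by omega, h⟩
      have hlt : (conjs F (l.take j)).ncard < (conjs F l).ncard := by
        refine Set.ncard_lt_ncard ⟨hsub, fun h => hnot (h h4)⟩ (conjs_finite F l)
      have hlet : ∀ s ∈ l.take j, s ∈ X ∨ s⁻¹ ∈ X := fun s hs =>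
        hl' s (List.mem_of_mem_take hs)
      have hu : (l.take j).prod ∈ W k := by
        refine Finset.mem_filter.2 ⟨?_, l.take j, by rw [hlen]; omega, hlet, by omega, ?_⟩
        · rw [hB, Set.Finite.mem_toFinset]
          exact ⟨l.take j, by rw [hlen]; omega, hlet, rfl⟩
        · refine ⟨j, by rw [hlen], ?_⟩
          rw [List.take_take, min_self]
      have hs : l[j] ∈ Y := by
        rw [hYdef, Set.Finite.mem_toFinset]
        rcases hl' l[j] (List.getElem_mem hjl) with h | h
        · exact Or.inl h
        · exact Or.inr (by simpa using h)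
      refine Finset.mem_biUnion.2 ⟨((l.take j).prod, l[j]), Finset.mem_product.2 ⟨hu, hs⟩, ?_⟩
      refine Finset.mem_filter.2 ⟨hgB, ?_⟩
      refine comm_of_conj_eq ?_
      rw [hi2, List.take_succ_eq_append_getElem hjl, List.prod_append]
      simp
  have hWc : ∀ k, (W k).card ≤ (((1 + Y.card) * (2 * A) + 1) * (n + 1)) ^ k := by
    intro k
    induction k with
    | zero => rw [hW0]; simp
    | succ k ih =>
      have h1 : (W (k + 1)).card ≤ A * (2 * n + 1) + (W k).card * Y.card * (A * (2 * n + 1)) := by
        refine (Finset.card_le_card (hWs k)).trans ((Finset.card_union_le _ _).trans ?_)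
        refine Nat.add_le_add (hf 1) ?_
        refine (Finset.card_biUnion_le_card_mul _ _ (A * (2 * n + 1)) (fun p _ => hf _)).trans ?_
        rw [Finset.card_product]
      set Q := (((1 + Y.card) * (2 * A) + 1) * (n + 1)) with hQ
      have hQ1 : 1 ≤ Q ^ k := Nat.one_le_pow _ _ (by rw [hQ]; positivity)
      have h2 : A * (2 * n + 1) ≤ 2 * A * (n + 1) := by nlinarith
      calc (W (k + 1)).card ≤ A * (2 * n + 1) + (W k).card * Y.card * (A * (2 * n + 1)) := h1
        _ ≤ Q ^ k * (A * (2 * n + 1)) + Q ^ k * Y.card * (A * (2 * n + 1)) := by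
            refine Nat.add_le_add ?_ ?_
            · exact Nat.le_mul_of_pos_left _ hQ1
            · exact Nat.mul_le_mul_right _ (Nat.mul_le_mul_right _ ih)
        _ = Q ^ k * ((1 + Y.card) * (A * (2 * n + 1))) := by ring
        _ ≤ Q ^ k * Q := by
            refine Nat.mul_le_mul_left _ ?_
            rw [hQ]
            calc (1 + Y.card) * (A * (2 * n + 1)) ≤ (1 + Y.card) * (2 * A * (n + 1)) :=
                  Nat.mul_le_mul_left _ h2
              _ = ((1 + Y.card) * (2 * A)) * (n + 1) := by ring
              _ ≤ ((1 + Y.card) * (2 * A) + 1) * (n + 1) :=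
                  Nat.mul_le_mul_right _ (Nat.le_succ _)
        _ = Q ^ (k + 1) := by rw [pow_succ]
  have hsub : few X F m n ⊆ ↑(W m) := by
    rintro g ⟨l, hl, hl', hg, hc⟩
    rw [Finset.mem_coe]
    refine Finset.mem_filter.2 ⟨?_, l, hl, hl', hc, ?_⟩
    · rw [hB, Set.Finite.mem_toFinset]
      exact ⟨l, hl, hl', hg⟩
    · refine ⟨l.length, le_rfl, ?_⟩
      rw [List.take_length, hg]
  have h5 := Set.ncard_le_ncard hsub (Finset.finite_toSet _)
  rw [Set.ncard_coe_finset] at h5
  exact h5.trans (hWc m)

end Pool.Agent.AcylTdc
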