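import Pool.Agent.AcylTdc.A03

open Filter Topology Set Pool.Agent.TwistedRatio

namespace Pool.Agent.AcylTdc

variable {G Y : Type*} [Group G] [MetricSpace Y] [MulAction G Y] [IsIsometricSMul G Y] {δ : ℝ}

private theorem A10_mem_ball {G : Type*} [Group G] {X : Set G} (hgen : Subgroup.closure X = ⊤)
    (g : G) : ∃ n, g ∈ ball X n := by
  have hg : g ∈ Subgroup.closure X := by
    rw [hgen]
    exact Subgroup.mem_top g
  induction hg using Subgroup.closure_induction with
  | mem x hx =>
    refine ⟨1, [x], le_rfl, ?_, List.prod_singleton⟩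
    intro s hs
    rw [List.mem_singleton] at hs
    subst hs
    exact Or.inl hx
  | one => exact ⟨0, one_mem_ball X 0⟩
  | mul x y _ _ hx hy =>
    obtain ⟨m, hm⟩ := hx
    obtain ⟨n, hn⟩ := hy
    exact ⟨m + n, ball_mul hm hn⟩
  | inv x _ hx =>
    obtain ⟨m, hm⟩ := hx
    exact ⟨m, ball_inv hm⟩

private def A10_P {G : Type*} [Group G] (L : Bool → G) (w : ℕ → Bool) (n : ℕ) : G :=
  ((List.range n).map (fun i => L (w i))).prod

private theorem A10_P_zero {G : Type*} [Group G] (L : Bool → G) (w : ℕ → Bool) :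
    A10_P L w 0 = 1 := rfl

private theorem A10_P_succ {G : Type*} [Group G] (L : Bool → G) (w : ℕ → Bool) (n : ℕ) :
    A10_P L w (n + 1) = A10_P L w n * L (w n) := by
  unfold A10_P
  rw [List.range_succ, List.map_append, List.prod_append, List.map_singleton, List.prod_singleton]

private theorem A10_P_succ' {G : Type*} [Group G] (L : Bool → G) (w : ℕ → Bool) (n : ℕ) :
    A10_P L w (n + 1) = L (w 0) * A10_P L (fun i => w (i + 1)) n := by
  unfold A10_P
  rw [List.range_succ_eq_map, List.map_cons, List.prod_cons, List.map_map]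
  rfl

private theorem A10_P_ball {G : Type*} [Group G] {X : Set G} {L : Bool → G} {c : ℕ}
    (hL : ∀ e, L e ∈ ball X c) (w : ℕ → Bool) (n : ℕ) : A10_P L w n ∈ ball X (c * n) := by
  induction n with
  | zero => exact one_mem_ball X _
  | succ n ih =>
    rw [A10_P_succ, Nat.mul_succ]
    exact ball_mul ih (hL _)

private theorem A10_path (h : Hyp Y δ) (hδ : 0 ≤ δ) {o : Y} {c : ℝ} (hc : 0 ≤ c) {L : Bool → G}
    (ht : ∀ e e', gp o ((L e)⁻¹ • o) (L e' • o) ≤ c)
    (hs : ∀ e, 2 * c + 6 * δ + 1 ≤ dist o (L e • o)) (w : ℕ → Bool) (n : ℕ) :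
    c + 4 * δ + 1 ≤ gp o (L (w 0) • o) (A10_P L w (n + 1) • o) := by
  have key := (local_global h hδ hc (fun i => A10_P L w i • o) (n + 1) ?_ ?_).2 0 1 (n + 1)
    (Nat.zero_le _) (by omega) le_rfl
  · change gp (A10_P L w (0 + 1) • o) (A10_P L w 0 • o) (A10_P L w (n + 1) • o) ≤ _ at key
    rw [A10_P_succ, A10_P_zero, one_mul, one_smul] at key
    have e1 := gp_add o (L (w 0) • o) (A10_P L w (n + 1) • o)
    have e2 := hs (w 0)
    linarith
  · intro i _
    have e1 : A10_P L w i • o = A10_P L w (i + 1) • ((L (w i))⁻¹ • o) := by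
      rw [A10_P_succ, smul_smul, mul_inv_cancel_right]
    have e2 : A10_P L w (i + 2) • o = A10_P L w (i + 1) • (L (w (i + 1)) • o) := by
      rw [A10_P_succ L w (i + 1), smul_smul]
    rw [e1, e2, gp_smul]
    exact ht _ _
  · intro i _
    rw [A10_P_succ, mul_smul, dist_smul]
    exact hs _

private theorem A10_inj (h : Hyp Y δ) (hδ : 0 ≤ δ) {o : Y} {c : ℝ} (hc : 0 ≤ c) {L : Bool → G}
    (ht : ∀ e e', gp o ((L e)⁻¹ • o) (L e' • o) ≤ c)
    (hs : ∀ e, 2 * c + 6 * δ + 1 ≤ dist o (L e • o))
    (hb : ∀ e e', e ≠ e' → gp o (L e • o) (L e' • o) ≤ c) (n : ℕ) :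
    ∀ w w' : ℕ → Bool, A10_P L w n = A10_P L w' n → ∀ i < n, w i = w' i := by
  induction n with
  | zero =>
    intro w w' _ i hi
    exact absurd hi (Nat.not_lt_zero i)
  | succ n ih =>
    intro w w' hw i hi
    by_cases h0 : w 0 = w' 0
    · cases i with
      | zero => exact h0
      | succ i =>
        rw [A10_P_succ', A10_P_succ', h0] at hw
        exact ih _ _ (mul_left_cancel hw) i (by omega)
    · exfalso
      have e1 := A10_path h hδ hc ht hs w n
      have e2 := A10_path h hδ hc ht hs w' n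
      rw [← hw, gp_comm] at e2
      have e3 := h.ineq o (L (w 0) • o) (A10_P L w (n + 1) • o) (L (w' 0) • o)
      have e4 := hb _ _ h0
      have e5 : c + 4 * δ + 1 ≤ min (gp o (L (w 0) • o) (A10_P L w (n + 1) • o))
          (gp o (A10_P L w (n + 1) • o) (L (w' 0) • o)) := le_min e1 e2
      linarith

/-- A10: exponential growth from two independent axes (a free semigroup). Proof: let
`c₀ = max Ca (max Cb B)` and let `M` be a natural number `≥ 2c₀ + 6δ + 1`, `u = a^M`, `v = b^M`. For
`w : ℕ → Bool` put `x i = (w_0 w_1 ... w_(i-1)) • o` with letters `u, v`. The steps have length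
`dist o (u o)` or `dist o (v o) ≥ M` (`lower`), and the turning product at `x i` is one of
`gp o (u⁻¹ o) (u o)`, `gp o (u⁻¹ o) (v o)`, ... `≤ c₀` (for `u, u` use `turn` for `-M, 0, M`).
If two words of length `n` differ first at the position `i`, then the path
`x' n, ..., x' (i+1), x i, x (i+1), ..., x n` also satisfies the hypotheses of `local_global` (the turn
at `x i` is `gp o (u o) (v o) ≤ B`), so `dist (x' n) (x n) ≥ 1` and the two products are different.
So the `2^n` words of length `n` give different elements of `ball X (c n)`, where `u, v ∈ ball X c`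
(they are in some ball because `closure X = ⊤`). -/
theorem exp_growth (h : Hyp Y δ) (hδ : 0 ≤ δ) {a b : G} {o : Y} {Ca Cb B : ℝ}
    (ha : Axis δ a o Ca) (hb : Axis δ b o Cb) (hab : ∀ m n : ℤ, gp o (a ^ m • o) (b ^ n • o) ≤ B)
    {X : Set G} (hX : X.Finite) (hgen : Subgroup.closure X = ⊤) :
    ∃ c : ℕ, 1 ≤ c ∧ ∀ n, 2 ^ n ≤ (ball X (c * n)).ncard := by
  set c₀ : ℝ := max Ca (max Cb B) with hc₀
  have ca : Ca ≤ c₀ := le_max_left _ _
  have cb : Cb ≤ c₀ := (le_max_left _ _).trans (le_max_right _ _)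
  have cB : B ≤ c₀ := (le_max_right _ _).trans (le_max_right _ _)
  have hc : 0 ≤ c₀ := ha.nonneg.trans ca
  obtain ⟨M, hM⟩ := exists_nat_ge (2 * c₀ + 6 * δ + 1)
  let L : Bool → G := fun e => if e then a ^ M else b ^ M
  have La : L true = a ^ M := rfl
  have Lb : L false = b ^ M := rfl
  have ia : (a ^ M)⁻¹ = a ^ (-(M : ℤ)) := by rw [zpow_neg, zpow_natCast]
  have ib : (b ^ M)⁻¹ = b ^ (-(M : ℤ)) := by rw [zpow_neg, zpow_natCast]
  have na : a ^ M = a ^ (M : ℤ) := (zpow_natCast a M).symm
  have nb : b ^ M = b ^ (M : ℤ) := (zpow_natCast b M).symm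
  have ht : ∀ e e', gp o ((L e)⁻¹ • o) (L e' • o) ≤ c₀ := by
    intro e e'
    cases e <;> cases e'
    · rw [Lb, ib, nb]
      have := hb.turn (-(M : ℤ)) 0 M (by omega) (by omega)
      rw [zpow_zero, one_smul] at this
      exact this.trans cb
    · rw [Lb, La, ib, na, gp_comm]
      exact (hab _ _).trans cB
    · rw [Lb, La, ia, nb]
      exact (hab _ _).trans cB
    · rw [La, ia, na]
      have := ha.turn (-(M : ℤ)) 0 M (by omega) (by omega)
      rw [zpow_zero, one_smul] at this
      exact this.trans ca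
  have hs : ∀ e, 2 * c₀ + 6 * δ + 1 ≤ dist o (L e • o) := by
    intro e
    cases e
    · rw [Lb]
      exact hM.trans (hb.lower M)
    · rw [La]
      exact hM.trans (ha.lower M)
  have hbr : ∀ e e', e ≠ e' → gp o (L e • o) (L e' • o) ≤ c₀ := by
    intro e e' hne
    cases e <;> cases e'
    · exact absurd rfl hne
    · rw [Lb, La, na, nb, gp_comm]
      exact (hab _ _).trans cB
    · rw [Lb, La, na, nb]
      exact (hab _ _).trans cB
    · exact absurd rfl hne
  obtain ⟨c1, h1⟩ := A10_mem_ball hgen (a ^ M)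
  obtain ⟨c2, h2⟩ := A10_mem_ball hgen (b ^ M)
  have hL : ∀ e, L e ∈ ball X (c1 + c2 + 1) := by
    intro e
    cases e
    · rw [Lb]
      exact ball_mono (by omega) h2
    · rw [La]
      exact ball_mono (by omega) h1
  refine ⟨c1 + c2 + 1, by omega, fun n => ?_⟩
  let ext : (Fin n → Bool) → ℕ → Bool := fun w i => if hi : i < n then w ⟨i, hi⟩ else false
  have hinj : Function.Injective fun w : Fin n → Bool => A10_P L (ext w) n := by
    intro w w' hw
    have h3 := A10_inj h hδ hc ht hs hbr n (ext w) (ext w') hw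
    funext i
    have h4 := h3 i i.2
    simp only [ext, i.2, dite_true] at h4
    exact h4
  have hcard : (Set.range fun w : Fin n → Bool => A10_P L (ext w) n).ncard = 2 ^ n := by
    rw [← Set.image_univ, Set.ncard_image_of_injective _ hinj, Set.ncard_univ,
      Nat.card_eq_fintype_card, Fintype.card_fun, Fintype.card_bool, Fintype.card_fin]
  rw [← hcard]
  refine Set.ncard_le_ncard ?_ (ball_finite hX _)
  rintro g ⟨w, rfl⟩
  exact A10_P_ball hL _ n

end Pool.Agent.AcylTdc
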