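import Pool.Agent.AcylTdc.A09

open Filter Topology Set Pool.Agent.TwistedRatio

namespace Pool.Agent.AcylTdc

variable {G : Type*} [Group G]

/-- A11a: every element is in some ball. -/
theorem exists_mem_ball {X : Set G} (hgen : Subgroup.closure X = ⊤) (g : G) :
    ∃ n, g ∈ ball X n := by
  have hg : g ∈ Subgroup.closure X := by rw [hgen]; trivial
  induction hg using Subgroup.closure_induction with
  | mem x hx => exact ⟨1, [x], by simp, by simpa using Or.inl hx, by simp⟩
  | one => exact ⟨0, one_mem_ball X 0⟩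
  | mul x y _ _ hx hy =>
    obtain ⟨m, hm⟩ := hx
    obtain ⟨n, hn⟩ := hy
    exact ⟨m + n, ball_mul hm hn⟩
  | inv x _ hx =>
    obtain ⟨m, hm⟩ := hx
    exact ⟨m, ball_inv hm⟩

/-- A11b: the insertion trick. Proof: for `g ∈ S` not in `few X F m n` fix a word `l` of length `≤ n`
for `g`; then `(conjs F l).ncard ≥ m + 1 ≥ m`. For `a = p F p⁻¹ ∈ conjs F l`, `p` a prefix, `a * g = p F
(p⁻¹ g)` is in `ball X (n + w)`. The map `(g, a) ↦ a * g` is injective on these pairs by `hinj`
(`a = b` implies `g = h`). So `m * (S \ few).ncard ≤ (ball X (n + w)).ncard`. -/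
theorem insert_count {X : Set G} (hX : X.Finite) {F : G} {w : ℕ} (hF : F ∈ ball X w) (n m : ℕ)
    {S : Set G} (hS : S ⊆ ball X n)
    (hinj : ∀ g ∈ S, ∀ h ∈ S, ∀ p q : G, (p * F * p⁻¹) * g = (q * F * q⁻¹) * h →
      p * F * p⁻¹ = q * F * q⁻¹) :
    m * S.ncard ≤ (ball X (n + w)).ncard + m * (few X F m n).ncard := by
  classical
  have hSfin : S.Finite := (ball_finite hX n).subset hS
  have hfewfin : (few X F m n).Finite := by
    refine (ball_finite hX n).subset ?_
    rintro g ⟨l, hl, hl', hg, _⟩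
    exact ⟨l, hl, hl', hg⟩
  have hS'fin : (S \ few X F m n).Finite := hSfin.subset Set.diff_subset
  -- a finite set of conjugates for every element
  have key : ∀ g : G, ∃ C : Finset G, g ∈ S \ few X F m n →
      (m ≤ C.card ∧ ∀ a ∈ C, (∃ p, a = p * F * p⁻¹) ∧ a * g ∈ ball X (n + w)) := by
    intro g
    by_cases hg : g ∈ S \ few X F m n
    · obtain ⟨l, hl, hl', hlg⟩ := hS hg.1
      have hcfin : (conjs F l).Finite := by
        have : conjs F l ⊆ (fun i => (l.take i).prod * F * ((l.take i).prod)⁻¹) ''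
            (↑(Finset.range (l.length + 1)) : Set ℕ) := by
          rintro a ⟨i, hi, rfl⟩
          exact ⟨i, by simpa using Nat.lt_succ_of_le hi, rfl⟩
        exact (Set.Finite.image _ (Finset.finite_toSet _)).subset this
      have hm : ¬ (conjs F l).ncard ≤ m := fun h => hg.2 ⟨l, hl, hl', hlg, h⟩
      refine ⟨hcfin.toFinset, fun _ => ⟨?_, ?_⟩⟩
      · rw [← Set.ncard_eq_toFinset_card _ hcfin]
        omega
      · intro a ha
        rw [Set.Finite.mem_toFinset] at ha
        obtain ⟨i, hi, rfl⟩ := ha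
        refine ⟨⟨_, rfl⟩, ?_⟩
        have e : (l.take i).prod * F * ((l.take i).prod)⁻¹ * g =
            (l.take i).prod * F * (l.drop i).prod := by
          have hsplit : (l.take i).prod * (l.drop i).prod = g := by
            rw [← List.prod_append, List.take_append_drop, hlg]
          rw [← hsplit]
          generalize (l.take i).prod = p
          generalize (l.drop i).prod = d
          simp [mul_assoc]
        rw [e]
        have h1 : (l.take i).prod ∈ ball X i :=
          ⟨l.take i, by simp, fun s hs => hl' s (List.mem_of_mem_take hs), rfl⟩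
        have h2 : (l.drop i).prod ∈ ball X (l.length - i) :=
          ⟨l.drop i, by simp, fun s hs => hl' s (List.mem_of_mem_drop hs), rfl⟩
        exact ball_mono (by omega) (ball_mul (ball_mul h1 hF) h2)
    · exact ⟨∅, fun h => absurd h hg⟩
  choose C hC using key
  have h1 : m * (S \ few X F m n).ncard ≤ (ball X (n + w)).ncard := by
    set S' := hS'fin.toFinset with hS'
    have hmem : ∀ g, g ∈ S' ↔ g ∈ S \ few X F m n := fun g => by
      rw [hS', Set.Finite.mem_toFinset]
    have h2 : S'.card • m ≤ ∑ g ∈ S', (C g).card :=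
      Finset.card_nsmul_le_sum _ _ _ (fun g hg => (hC g ((hmem g).1 hg)).1)
    have h3 : (S'.sigma C).card ≤ ((ball_finite hX (n + w)).toFinset).card := by
      refine Finset.card_le_card_of_injOn (fun p => p.2 * p.1) ?_ ?_
      · rintro ⟨g, a⟩ hp
        have hp' := Finset.mem_sigma.1 (Finset.mem_coe.1 hp)
        rw [Set.Finite.coe_toFinset]
        exact ((hC g ((hmem g).1 hp'.1)).2 a hp'.2).2
      · rintro ⟨g, a⟩ hp ⟨h, b⟩ hq hpq
        have hp' := Finset.mem_sigma.1 (Finset.mem_coe.1 hp)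
        have hq' := Finset.mem_sigma.1 (Finset.mem_coe.1 hq)
        have hg := (hmem g).1 hp'.1
        have hh := (hmem h).1 hq'.1
        obtain ⟨⟨p, hpa⟩, _⟩ := (hC g hg).2 a hp'.2
        obtain ⟨⟨q, hqb⟩, _⟩ := (hC h hh).2 b hq'.2
        simp only at hpq hpa hqb
        subst hpa
        subst hqb
        have e := hinj g hg.1 h hh.1 p q hpq
        have e2 : g = h := by
          rw [e] at hpq
          exact mul_left_cancel hpq
        subst e2
        simp only [Sigma.mk.injEq, heq_eq_eq, true_and]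
        exact e
    rw [Finset.card_sigma] at h3
    rw [Set.ncard_eq_toFinset_card _ hS'fin, Set.ncard_eq_toFinset_card _ (ball_finite hX (n + w))]
    rw [smul_eq_mul, mul_comm] at h2
    exact h2.trans h3
  have h4 : S.ncard ≤ (S \ few X F m n).ncard + (few X F m n).ncard := by
    have h5 : S ⊆ (S \ few X F m n) ∪ few X F m n := by
      intro g hg
      by_cases h : g ∈ few X F m n
      · exact Or.inr h
      · exact Or.inl ⟨hg, h⟩
    exact (Set.ncard_le_ncard h5 (hS'fin.union hfewfin)).trans (Set.ncard_union_le _ _)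
  calc m * S.ncard ≤ m * ((S \ few X F m n).ncard + (few X F m n).ncard) :=
        Nat.mul_le_mul_left _ h4
    _ = m * (S \ few X F m n).ncard + m * (few X F m n).ncard := by ring
    _ ≤ _ := Nat.add_le_add_right h1 _

/-- A11c: `few` is negligible, by `count_few` and exponential growth. -/
theorem few_negligible {X : Set G} (hX : X.Finite) (F : G) (A : ℕ)
    (hA : ∀ n, ({c | c * F = F * c} ∩ ball X n).ncard ≤ A * (n + 1))
    (hgrow : ∃ c : ℕ, 1 ≤ c ∧ ∀ n, 2 ^ n ≤ (ball X (c * n)).ncard) (m : ℕ) {ε : ℝ} (hε : 0 < ε) :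
    ∃ n₀, ∀ n ≥ n₀, ((few X F m n).ncard : ℝ) ≤ ε * (ball X n).ncard := by
  obtain ⟨K, hK⟩ := count_few hX F A hA
  obtain ⟨c, hc, hgr⟩ := hgrow
  set D : ℝ := ((K : ℝ) * c) ^ m with hD
  have hD0 : 0 ≤ D := by positivity
  have hε' : 0 < ε / (2 * (D + 1)) := by positivity
  have hlim := tendsto_pow_const_div_const_pow_of_one_lt m (r := (2 : ℝ)) (by norm_num)
  have hev : ∀ᶠ q : ℕ in atTop, ((q : ℝ) ^ m / 2 ^ q) < ε / (2 * (D + 1)) :=
    hlim.eventually (gt_mem_nhds hε')
  obtain ⟨q₀, hq₀⟩ := eventually_atTop.1 hev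
  refine ⟨c * (q₀ + 1), fun n hn => ?_⟩
  set q := n / c with hq
  have hcpos : 0 < c := hc
  have hqn : c * q ≤ n := Nat.mul_div_le n c
  have hnq : n + 1 ≤ c * (q + 1) := by
    have := Nat.lt_mul_div_succ n hcpos
    rw [← hq] at this
    omega
  have hqq : q₀ ≤ q + 1 := by
    have : q₀ + 1 ≤ q := by
      rw [hq, Nat.le_div_iff_mul_le hcpos]
      rw [mul_comm]
      exact hn
    omega
  have h1 : ((few X F m n).ncard : ℝ) ≤ ((K : ℝ) * (n + 1)) ^ m := by
    exact_mod_cast hK m n
  have h2 : ((K : ℝ) * (n + 1)) ^ m ≤ D * ((q : ℝ) + 1) ^ m := by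
    rw [hD, ← mul_pow]
    refine pow_le_pow_left₀ (by positivity) ?_ m
    have h3 : ((n : ℝ) + 1) ≤ (c : ℝ) * (q + 1) := by exact_mod_cast hnq
    calc (K : ℝ) * (n + 1) ≤ K * ((c : ℝ) * (q + 1)) :=
          mul_le_mul_of_nonneg_left h3 (Nat.cast_nonneg _)
      _ = K * c * (q + 1) := by ring
  have h4 : ((q : ℝ) + 1) ^ m ≤ ε / (2 * (D + 1)) * 2 ^ (q + 1) := by
    have := hq₀ (q + 1) hqq
    rw [div_lt_iff₀ (by positivity)] at this
    have h5 := this.le
    push_cast at h5
    exact h5
  have h6 : (2 : ℝ) ^ q ≤ ((ball X n).ncard : ℝ) := by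
    have h7 : 2 ^ q ≤ (ball X n).ncard :=
      (hgr q).trans (Set.ncard_le_ncard (ball_mono hqn) (ball_finite hX n))
    exact_mod_cast h7
  calc ((few X F m n).ncard : ℝ) ≤ D * ((q : ℝ) + 1) ^ m := h1.trans h2
    _ ≤ D * (ε / (2 * (D + 1)) * 2 ^ (q + 1)) := mul_le_mul_of_nonneg_left h4 hD0
    _ = (D / (D + 1)) * (ε * 2 ^ q) := by
        rw [pow_succ]
        field_simp
    _ ≤ 1 * (ε * 2 ^ q) := by
        refine mul_le_mul_of_nonneg_right ?_ (by positivity)
        rw [div_le_one (by positivity)]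
        linarith
    _ ≤ ε * (ball X n).ncard := by
        rw [one_mul]
        exact mul_le_mul_of_nonneg_left h6 hε.le

end Pool.Agent.AcylTdc
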