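import Pool.Agent.AcylTdc.A06
import Pool.Agent.AcylTdc.A07
import Pool.Agent.AcylTdc.A11

open Filter Topology Set Pool.Agent.TwistedRatio

namespace Pool.Agent.AcylTdc

variable {G Y : Type*} [Group G] [MetricSpace Y] [MulAction G Y] [IsIsometricSMul G Y] {δ : ℝ}

/-- A12a: a bound for the displacement of the elements of a ball: `dist o (g o) ≤ Λ n` for
`g ∈ ball X n`, with `Λ` a natural number (maximum over the finite set `X`, `dist_mul_smul_le`,
`dist_inv_smul`). -/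
theorem exists_displacement {X : Set G} (hX : X.Finite) (o : Y) :
    ∃ Λ : ℕ, ∀ n, ∀ g ∈ ball X n, dist o (g • o) ≤ Λ * n := by
  obtain ⟨B, hB⟩ := (hX.image fun s : G => dist o (s • o)).bddAbove
  obtain ⟨Λ, hΛ⟩ := exists_nat_ge B
  have hs : ∀ s : G, (s ∈ X ∨ s⁻¹ ∈ X) → dist o (s • o) ≤ Λ := by
    intro s hs
    rcases hs with hs | hs
    · exact (hB ⟨s, hs, rfl⟩).trans hΛ
    · rw [← dist_inv_smul]
      exact (hB ⟨s⁻¹, hs, rfl⟩).trans hΛ
  have hl : ∀ l : List G, (∀ s ∈ l, s ∈ X ∨ s⁻¹ ∈ X) →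
      dist o (l.prod • o) ≤ Λ * (l.length : ℝ) := by
    intro l
    induction l with
    | nil =>
      intro _
      rw [List.prod_nil, one_smul, dist_self, List.length_nil, Nat.cast_zero, mul_zero]
    | cons s l ih =>
      intro hl
      have e1 := ih fun t ht => hl t (List.mem_cons_of_mem s ht)
      have e2 := hs s (hl s List.mem_cons_self)
      have e3 := dist_mul_smul_le s l.prod o
      rw [List.prod_cons, List.length_cons]
      push_cast
      linarith
  refine ⟨Λ, fun n g hg => ?_⟩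
  obtain ⟨l, hn, hl', rfl⟩ := hg
  refine (hl l hl').trans ?_
  exact mul_le_mul_of_nonneg_left (Nat.cast_le.mpr hn) (Nat.cast_nonneg _)

/-- A12b: centralizers of sets generating a subgroup with unbounded orbits have linear growth. Proof:
`N, R₀` from `linear_bound`, `Λ` from A12a; given `D` and `n` let `T = Λ n` and let `z ∈ D` satisfy
`dist o (z • o) ≥ 2T + R₀`. If `c ∈ ball X n` commutes with `z`, then `c` moves `o` by at most `T` and
`dist (z o) (c z o) = dist (z o) (z c o) = dist o (c o) ≤ T`. The bound is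
`N (Λ n + 1) ≤ A (n + 1)` with `A = N (Λ + 1)`. -/
theorem centralizer_linear (h : Hyp Y δ) (hδ : 0 ≤ δ) (hgeo : Geod Y) (hac : Acyl G Y) {X : Set G}
    (hX : X.Finite) (o : Y) :
    ∃ A : ℕ, ∀ (D : Set G), (∀ R : ℝ, ∃ z ∈ D, R < dist o (z • o)) →
      ∀ n, ({c : G | ∀ z ∈ D, c * z = z * c} ∩ ball X n).ncard ≤ A * (n + 1) := by
  obtain ⟨N, R₀, hN⟩ := linear_bound (G := G) h hδ hgeo hac
  obtain ⟨Λ, hΛ⟩ := exists_displacement (X := X) hX o
  refine ⟨N * (Λ + 1), fun D hD n => ?_⟩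
  have hT : (0 : ℝ) ≤ ((Λ * n : ℕ) : ℝ) := Nat.cast_nonneg _
  obtain ⟨z, hz, hz'⟩ := hD (2 * ((Λ * n : ℕ) : ℝ) + R₀)
  have h1 := hN ((Λ * n : ℕ) : ℝ) hT o (z • o) hz'.le
  rw [Nat.ceil_natCast] at h1
  have hsub : {c : G | ∀ z ∈ D, c * z = z * c} ∩ ball X n ⊆
      {c : G | dist o (c • o) ≤ ((Λ * n : ℕ) : ℝ) ∧
        dist (z • o) (c • z • o) ≤ ((Λ * n : ℕ) : ℝ)} := by
    rintro c ⟨hc, hc'⟩
    have e1 := hΛ n c hc'
    have e2 : dist (z • o) (c • z • o) = dist o (c • o) := by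
      rw [smul_smul, hc z hz, mul_smul, dist_smul]
    refine ⟨?_, ?_⟩
    · push_cast
      exact e1
    · rw [e2]
      push_cast
      exact e1
  have h2 := (Set.encard_le_coe_iff_finite_ncard_le.mp ((Set.encard_le_encard hsub).trans h1)).2
  refine h2.trans ?_
  rw [mul_assoc]
  refine Nat.mul_le_mul_left N ?_
  calc Λ * n + 1 ≤ Λ * n + Λ + n + 1 := by omega
    _ = (Λ + 1) * (n + 1) := by ring

/-- A12c: **anti-concentration**. Proof: let `M` be as in `separation` for `2R` and `F = f^M`. The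
centralizer of `F` commutes with the powers of `F`, which move `o` arbitrarily far (`lower`), so A12b
gives `A` with `({c | c F = F c} ∩ ball X n).ncard ≤ A (n+1)`. Let `w` be such that `F ∈ ball X w` and
`b = (ball X w).ncard`. Choose `m ≥ 2 b / ε`, and `n₀` from `few_negligible` for `m` and `ε / 2`.
For `S = {g ∈ ball X n | dist (g P) Q ≤ R}` the hypothesis of `insert_count` holds: if
`a g = b h` with conjugates `a, b` of `F`, then `dist (a Q) (b Q) ≤ dist (a Q) (a g P) +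
dist (b h P) (b Q) ≤ 2R`, so `a = b` by `separation`. Hence `m |S| ≤ b |ball X n| + m |few|`
(`ncard_ball_add_le`). -/
theorem anti_concentration (h : Hyp Y δ) (hδ : 0 ≤ δ) (hgeo : Geod Y) (hac : Acyl G Y) {f : G}
    {o : Y} {C : ℝ} (ax : Axis δ f o C) {X : Set G} (hX : X.Finite)
    (hgen : Subgroup.closure X = ⊤)
    (hgrow : ∃ c : ℕ, 1 ≤ c ∧ ∀ n, 2 ^ n ≤ (ball X (c * n)).ncard) (R : ℝ) {ε : ℝ} (hε : 0 < ε) :
    ∃ n₀, ∀ n ≥ n₀, ∀ P Q : Y,
      (({g | g ∈ ball X n ∧ dist (g • P) Q ≤ R}).ncard : ℝ) ≤ ε * (ball X n).ncard := by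
  obtain ⟨M, hM1, hM⟩ := separation h hδ hac ax (2 * R)
  obtain ⟨A, hA⟩ := centralizer_linear h hδ hgeo hac hX o
  have hA' : ∀ n, ({c | c * f ^ M = f ^ M * c} ∩ ball X n).ncard ≤ A * (n + 1) := by
    intro n
    have h1 := hA (Set.range fun k : ℕ => (f ^ M) ^ k) (by
      intro r
      obtain ⟨k, hk⟩ := exists_nat_gt r
      refine ⟨(f ^ M) ^ k, ⟨k, rfl⟩, ?_⟩
      rw [← pow_mul]
      refine hk.trans_le (le_trans ?_ (ax.lower (M * k)))
      exact_mod_cast Nat.le_mul_of_pos_left k hM1) n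
    refine le_trans (Set.ncard_le_ncard ?_ ((ball_finite hX n).subset Set.inter_subset_right)) h1
    rintro c ⟨hc, hc'⟩
    refine ⟨?_, hc'⟩
    rintro z ⟨k, rfl⟩
    exact (Commute.pow_right (show Commute c (f ^ M) from hc) k).eq
  obtain ⟨w, hw⟩ := exists_mem_ball hgen (f ^ M)
  obtain ⟨m, hm⟩ := exists_nat_ge (2 * ((ball X w).ncard : ℝ) / ε)
  have hb : (0 : ℝ) < ((ball X w).ncard : ℝ) := by exact_mod_cast ncard_ball_pos hX w
  have hm0 : (0 : ℝ) < m := lt_of_lt_of_le (by positivity) hm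
  obtain ⟨n₀, hn₀⟩ := few_negligible hX (f ^ M) A hA' hgrow m (half_pos hε)
  refine ⟨n₀, fun n hn P Q => ?_⟩
  have h1 := insert_count hX hw n m (S := {g | g ∈ ball X n ∧ dist (g • P) Q ≤ R})
    (fun g hg => hg.1) (by
      intro g hg k hk p q hpq
      refine hM p q Q ?_
      have e1 : dist ((p * f ^ M * p⁻¹) • Q) (((p * f ^ M * p⁻¹) * g) • P) ≤ R := by
        rw [mul_smul _ g, dist_smul, dist_comm]
        exact hg.2
      have e2 : dist (((q * f ^ M * q⁻¹) * k) • P) ((q * f ^ M * q⁻¹) • Q) ≤ R := by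
        rw [mul_smul _ k, dist_smul]
        exact hk.2
      rw [hpq] at e1
      have e3 := dist_triangle ((p * f ^ M * p⁻¹) • Q) (((q * f ^ M * q⁻¹) * k) • P)
        ((q * f ^ M * q⁻¹) • Q)
      linarith)
  have h2 := ncard_ball_add_le hX n w
  have h3 := hn₀ n hn
  have h4 : (m : ℝ) * (({g | g ∈ ball X n ∧ dist (g • P) Q ≤ R}).ncard : ℝ) ≤
      ((ball X n).ncard : ℝ) * ((ball X w).ncard : ℝ) + m * ((few X (f ^ M) m n).ncard : ℝ) := by
    have : m * ({g | g ∈ ball X n ∧ dist (g • P) Q ≤ R}).ncard ≤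
        (ball X n).ncard * (ball X w).ncard + m * (few X (f ^ M) m n).ncard := by omega
    exact_mod_cast this
  have h5 : 2 * ((ball X w).ncard : ℝ) ≤ m * ε := by
    rwa [div_le_iff₀ hε] at hm
  have h6 : ((ball X n).ncard : ℝ) * ((ball X w).ncard : ℝ) ≤
      ((ball X n).ncard : ℝ) * (m * ε / 2) :=
    mul_le_mul_of_nonneg_left (by linarith) (Nat.cast_nonneg _)
  have h7 : (m : ℝ) * ((few X (f ^ M) m n).ncard : ℝ) ≤ m * (ε / 2 * ((ball X n).ncard : ℝ)) :=
    mul_le_mul_of_nonneg_left h3 hm0.le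
  refine le_of_mul_le_mul_left ?_ hm0
  linarith

end Pool.Agent.AcylTdc
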