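import Pool.Agent.AcylTdc.A08
import Pool.Agent.AcylTdc.A12

open Filter Topology Set Pool.Agent.TwistedRatio

namespace Pool.Agent.AcylTdc

variable {G Y : Type*} [Group G] [MetricSpace Y] [MulAction G Y] [IsIsometricSMul G Y] {δ : ℝ}

/-- linear functions are negligible against the ball -/
theorem linear_negligible {X : Set G} (hX : X.Finite) (A : ℕ)
    (hgrow : ∃ c : ℕ, 1 ≤ c ∧ ∀ n, 2 ^ n ≤ (ball X (c * n)).ncard) {ε : ℝ} (hε : 0 < ε) :
    ∃ n₀, ∀ n ≥ n₀, ((A * (2 * n + 1) : ℕ) : ℝ) ≤ ε * (ball X n).ncard := by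
  obtain ⟨c, hc, hgr⟩ := hgrow
  set D : ℝ := (2 * A : ℝ) * c with hD
  have hD0 : 0 ≤ D := by positivity
  have hε' : 0 < ε / (2 * (D + 1)) := by positivity
  have hlim := tendsto_pow_const_div_const_pow_of_one_lt 1 (r := (2 : ℝ)) (by norm_num)
  have hev : ∀ᶠ q : ℕ in atTop, ((q : ℝ) ^ 1 / 2 ^ q) < ε / (2 * (D + 1)) :=
    hlim.eventually (gt_mem_nhds hε')
  obtain ⟨q₀, hq₀⟩ := eventually_atTop.1 hev
  refine ⟨c * (q₀ + 1), fun n hn => ?_⟩
  set q := n / c with hq
  have hcpos : 0 < c := hc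
  have hqn : c * q ≤ n := Nat.mul_div_le n c
  have hnq : n + 1 ≤ c * (q + 1) := by
    have := Nat.lt_mul_div_succ n hcpos
    rw [← hq] at this
    omega
  have hqq : q₀ ≤ q + 1 := by
    have : q₀ + 1 ≤ q := by
      rw [hq, Nat.le_div_iff_mul_le hcpos, mul_comm]
      exact hn
    omega
  have h2 : ((A * (2 * n + 1) : ℕ) : ℝ) ≤ D * ((q : ℝ) + 1) := by
    rw [hD]
    have h3 : ((n : ℝ) + 1) ≤ (c : ℝ) * (q + 1) := by exact_mod_cast hnq
    have hA0 : (0 : ℝ) ≤ A := Nat.cast_nonneg _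
    push_cast
    nlinarith
  have h4 : ((q : ℝ) + 1) ≤ ε / (2 * (D + 1)) * 2 ^ (q + 1) := by
    have := hq₀ (q + 1) hqq
    rw [div_lt_iff₀ (by positivity), pow_one] at this
    have h5 := this.le
    push_cast at h5
    exact h5
  have h6 : (2 : ℝ) ^ q ≤ ((ball X n).ncard : ℝ) := by
    have h7 : 2 ^ q ≤ (ball X n).ncard :=
      (hgr q).trans (Set.ncard_le_ncard (ball_mono hqn) (ball_finite hX n))
    exact_mod_cast h7
  calc ((A * (2 * n + 1) : ℕ) : ℝ) ≤ D * ((q : ℝ) + 1) := h2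
    _ ≤ D * (ε / (2 * (D + 1)) * 2 ^ (q + 1)) := mul_le_mul_of_nonneg_left h4 hD0
    _ = (D / (D + 1)) * (ε * 2 ^ q) := by
        rw [pow_succ]
        field_simp
    _ ≤ 1 * (ε * 2 ^ q) := by
        refine mul_le_mul_of_nonneg_right ?_ (by positivity)
        rw [div_le_one (by positivity)]
        linarith
    _ ≤ ε * (ball X n).ncard := by
        rw [one_mul]
        exact mul_le_mul_of_nonneg_left h6 hε.le

/-- A13: cosets of centralizers of sets with more than `N` elements are uniformly negligible.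
Proof: let `K = 4δ + 2` and let `R₁, N` be as in `Acyl` for `ε = K`; `k = N + 1`. Let `A` be as in
`centralizer_linear`; `n₀` so large that `anti_concentration` holds for `R₁` and `ε` and
`A (2n + 1) ≤ ε |ball X n|` (exponential growth). Let `S` have at least `k` elements and let `E` be
the set on the left. If `E = ∅` we are done; otherwise fix `y₀ ∈ E`. For `y ∈ E` the element
`c = y y₀⁻¹` commutes with all `x ∈ S` (from `x y = y φ x`, `x y₀ = y₀ φ x`), so with all elements of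
`D = closure S`. Case 1: `D` has unbounded orbits at `o` (for all `R` some `z ∈ D` with
`R < dist o (z o)`): `y ↦ y y₀⁻¹` maps `E` injectively to the centralizer of `D` in `ball X (2n)`, which
has at most `A (2n+1)` elements. Case 2: otherwise `quasi_center` gives `p` with
`dist p (d p) ≤ K` for all `d ∈ D`; for `c` commuting with `D` also `dist (c p) (d c p) ≤ K`, so if
`dist p (c p) ≥ R₁`, then the set in `Acyl` for `x = p`, `y = c p` contains `S`, which has more than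
`N` elements, a contradiction. So `dist p (c p) ≤ R₁`, i.e. `dist (y • (y₀⁻¹ • p)) p ≤ R₁` for all
`y ∈ E`, and `anti_concentration` with `P = y₀⁻¹ • p`, `Q = p` applies. -/
theorem centralizer_negligible (h : Hyp Y δ) (hδ : 0 ≤ δ) (hgeo : Geod Y) (hac : Acyl G Y) {f : G}
    {o : Y} {C : ℝ} (ax : Axis δ f o C) {X : Set G} (hX : X.Finite)
    (hgen : Subgroup.closure X = ⊤)
    (hgrow : ∃ c : ℕ, 1 ≤ c ∧ ∀ n, 2 ^ n ≤ (ball X (c * n)).ncard) :
    ∃ k : ℕ, ∀ ε : ℝ, 0 < ε → ∃ n₀, ∀ n ≥ n₀, ∀ (φ : G →* G) (S : Finset G), k ≤ S.card →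
      (({y | y ∈ ball X n ∧ ∀ x ∈ S, x * y = y * φ x}).ncard : ℝ) ≤ ε * (ball X n).ncard := by
  classical
  obtain ⟨R₁, N, hRN⟩ := hac (4 * δ + 2)
  obtain ⟨A, hA⟩ := centralizer_linear h hδ hgeo hac hX o
  refine ⟨N + 1, fun ε hε => ?_⟩
  obtain ⟨n₁, hn₁⟩ := anti_concentration h hδ hgeo hac ax hX hgen hgrow R₁ hε
  obtain ⟨n₂, hn₂⟩ := linear_negligible hX A hgrow hε
  refine ⟨max n₁ n₂, fun n hn φ S hS => ?_⟩
  have hnn₁ : n₁ ≤ n := (le_max_left _ _).trans hn
  have hnn₂ : n₂ ≤ n := (le_max_right _ _).trans hn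
  set E : Set G := {y | y ∈ ball X n ∧ ∀ x ∈ S, x * y = y * φ x} with hE
  have hEfin : E.Finite := (ball_finite hX n).subset fun y hy => hy.1
  rcases E.eq_empty_or_nonempty with h0 | ⟨y₀, hy₀⟩
  · rw [h0, Set.ncard_empty, Nat.cast_zero]
    positivity
  have hcomm : ∀ y ∈ E, ∀ x ∈ S, (y * y₀⁻¹) * x = x * (y * y₀⁻¹) := by
    intro y hy x hx
    have h1 := hy.2 x hx
    have h2 := hy₀.2 x hx
    have h3 : φ x = y₀⁻¹ * (x * y₀) := by rw [h2]; group
    rw [h3] at h1
    calc (y * y₀⁻¹) * x = (y * (y₀⁻¹ * (x * y₀))) * y₀⁻¹ := by group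
      _ = (x * y) * y₀⁻¹ := by rw [← h1]
      _ = x * (y * y₀⁻¹) := by group
  set D : Subgroup G := Subgroup.closure (S : Set G) with hD
  have hcommD : ∀ y ∈ E, ∀ z ∈ D, (y * y₀⁻¹) * z = z * (y * y₀⁻¹) := by
    intro y hy z hz
    have h1 : D ≤ Subgroup.centralizer {y * y₀⁻¹} := by
      rw [hD, Subgroup.closure_le]
      intro x hx
      rw [SetLike.mem_coe, Subgroup.mem_centralizer_singleton_iff]
      exact (hcomm y hy x hx).symm
    have h2 := h1 hz
    rw [Subgroup.mem_centralizer_singleton_iff] at h2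
    exact h2.symm
  by_cases hunb : ∀ R : ℝ, ∃ z ∈ D, R < dist o (z • o)
  · -- unbounded case
    have h1 : E.ncard ≤ ({c : G | ∀ z ∈ (D : Set G), c * z = z * c} ∩ ball X (2 * n)).ncard := by
      refine Set.ncard_le_ncard_of_injOn (fun y => y * y₀⁻¹) ?_ ?_
        ((ball_finite hX (2 * n)).subset Set.inter_subset_right)
      · intro y hy
        refine ⟨fun z hz => hcommD y hy z hz, ?_⟩
        rw [two_mul]
        exact ball_mul hy.1 (ball_inv hy₀.1)
      · intro y _ y' _ hyy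
        exact mul_right_cancel hyy
    have h2 := hA (D : Set G) hunb (2 * n)
    have h3 : (E.ncard : ℝ) ≤ ((A * (2 * n + 1) : ℕ) : ℝ) := by exact_mod_cast h1.trans h2
    exact h3.trans (hn₂ n hnn₂)
  · -- bounded case
    push Not at hunb
    obtain ⟨B, hB⟩ := hunb
    obtain ⟨p, hp⟩ := quasi_center h hδ hgeo D ⟨o, B, hB⟩
    have hclose : ∀ y ∈ E, dist (y • (y₀⁻¹ • p)) p ≤ R₁ := by
      intro y hy
      by_contra hcon
      push Not at hcon
      have h1 : R₁ ≤ dist p ((y * y₀⁻¹) • p) := by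
        rw [dist_comm, mul_smul]
        exact hcon.le
      have h2 := hRN p ((y * y₀⁻¹) • p) h1
      have h3 : (S : Set G) ⊆ {g : G | dist p (g • p) ≤ 4 * δ + 2 ∧
          dist ((y * y₀⁻¹) • p) (g • ((y * y₀⁻¹) • p)) ≤ 4 * δ + 2} := by
        intro x hx
        have hxD : x ∈ D := Subgroup.subset_closure hx
        refine ⟨hp x hxD, ?_⟩
        have e1 : x • ((y * y₀⁻¹) • p) = (y * y₀⁻¹) • (x • p) := by
          rw [smul_smul, smul_smul, hcomm y hy x hx]
        rw [e1, dist_smul]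
        exact hp x hxD
      have h4 : ((S.card : ℕ) : ℕ∞) ≤ (N : ℕ∞) := by
        rw [← Set.encard_coe_eq_coe_finsetCard]
        exact (Set.encard_le_encard h3).trans h2
      have h5 : S.card ≤ N := by exact_mod_cast h4
      omega
    have h1 := hn₁ n hnn₁ (y₀⁻¹ • p) p
    refine le_trans ?_ h1
    have h2 : E ⊆ {g | g ∈ ball X n ∧ dist (g • (y₀⁻¹ • p)) p ≤ R₁} :=
      fun y hy => ⟨hy.1, hclose y hy⟩
    exact_mod_cast Set.ncard_le_ncard h2 ((ball_finite hX n).subset fun y hy => hy.1)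

end Pool.Agent.AcylTdc
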