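import Pool.Agent.AcylTdc.AxisDef

open Filter Topology Set Pool.Agent.TwistedRatio

namespace Pool.Agent.AcylTdc

variable {G : Type*} [Group G]

private lemma card_pair_eq {α : Type*} [DecidableEq α] (B : Finset α) (k : ℕ)
    {i j : Fin (k + 1)} (hij : i ≠ j) :
    ((Fintype.piFinset (fun _ : Fin (k + 1) => B)).filter (fun x => x i = x j)).card ≤
      B.card ^ k := by
  have h : (Fintype.piFinset (fun _ : Fin k => B)).card = B.card ^ k := by
    simp
  rw [← h]
  refine Finset.card_le_card_of_injOn (fun x => Fin.removeNth j x) ?_ ?_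
  · intro x hx
    have hx' := Finset.mem_filter.1 (Finset.mem_coe.1 hx)
    have hx1 := Fintype.mem_piFinset.1 hx'.1
    rw [Finset.mem_coe, Fintype.mem_piFinset]
    intro t
    exact hx1 _
  · intro x hx y hy hxy
    have hx' := (Finset.mem_filter.1 (Finset.mem_coe.1 hx)).2
    have hy' := (Finset.mem_filter.1 (Finset.mem_coe.1 hy)).2
    have hval : ∀ t, t ≠ j → x t = y t := by
      intro t ht
      obtain ⟨s, rfl⟩ := Fin.exists_succAbove_eq ht
      exact congrFun hxy s
    funext t
    by_cases ht : t = j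
    · subst ht
      rw [← hx', ← hy']
      exact hval i hij
    · exact hval t ht

private lemma card_not_inj {α : Type*} [DecidableEq α] (B : Finset α) (k : ℕ) :
    ((Fintype.piFinset (fun _ : Fin (k + 1) => B)).filter
      (fun x => ¬ Function.Injective x)).card ≤ (k + 1) ^ 2 * B.card ^ k := by
  have hsub : ((Fintype.piFinset (fun _ : Fin (k + 1) => B)).filter
      (fun x => ¬ Function.Injective x)) ⊆
      (((Finset.univ : Finset (Fin (k + 1) × Fin (k + 1))).filter (fun p => p.1 ≠ p.2)).biUnion
        (fun p => (Fintype.piFinset (fun _ : Fin (k + 1) => B)).filter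
          (fun x => x p.1 = x p.2))) := by
    intro x hx
    obtain ⟨hx1, hx2⟩ := Finset.mem_filter.1 hx
    rw [Function.not_injective_iff] at hx2
    obtain ⟨i, j, hij, hne⟩ := hx2
    refine Finset.mem_biUnion.2 ⟨(i, j), ?_, ?_⟩
    · simpa using hne
    · exact Finset.mem_filter.2 ⟨hx1, hij⟩
  refine (Finset.card_le_card hsub).trans ?_
  refine (Finset.card_biUnion_le_card_mul _ _ (B.card ^ k) ?_).trans ?_
  · intro p hp
    exact card_pair_eq B k (Finset.mem_filter.1 hp).2
  · refine Nat.mul_le_mul_right _ ?_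
    refine (Finset.card_filter_le _ _).trans ?_
    simp [sq]

/-- The counting inequality. -/
private lemma count_ineq {α : Type*} [DecidableEq α] (B : Finset α) (R : α → α → Prop)
    [∀ x y, Decidable (R x y)] (k : ℕ) (e : ℝ) (he : 0 ≤ e) (hB : 0 < B.card)
    (H : ∀ S : Finset α, k + 1 ≤ S.card →
      ((B.filter (fun y => ∀ x ∈ S, R x y)).card : ℝ) ≤ e * B.card) :
    ((((B ×ˢ B).filter (fun p => R p.1 p.2)).card : ℝ) / (B.card : ℝ) ^ 2) ^ (k + 1) ≤
      e + (k + 1) ^ 2 / B.card := by
  set b : ℝ := (B.card : ℝ) with hb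
  have hb0 : 0 < b := by rw [hb]; exact_mod_cast hB
  let h : α → ℝ := fun y => ((B.filter (fun x => R x y)).card : ℝ)
  have hsum : (((B ×ˢ B).filter (fun p => R p.1 p.2)).card : ℝ) = ∑ y ∈ B, h y := by
    simp only [h]
    rw [Finset.card_filter, Finset.sum_product_right]
    push_cast
    refine Finset.sum_congr rfl fun y _ => ?_
    rw [Finset.card_filter]
    push_cast
    rfl
  set a : ℝ := (((B ×ˢ B).filter (fun p => R p.1 p.2)).card : ℝ) with ha
  have hpm := pow_sum_div_card_le_sum_pow (s := B) (f := h) (fun y _ => Nat.cast_nonneg _) k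
  rw [← hsum] at hpm
  have hpow : ∀ y, h y ^ (k + 1) =
      (((Fintype.piFinset (fun _ : Fin (k + 1) => B)).filter (fun x => ∀ i, R (x i) y)).card : ℝ) := by
    intro y
    have : (Fintype.piFinset (fun _ : Fin (k + 1) => B)).filter (fun x => ∀ i, R (x i) y) =
        Fintype.piFinset (fun _ : Fin (k + 1) => B.filter (fun x => R x y)) := by
      ext x
      simp only [Finset.mem_filter, Fintype.mem_piFinset]
      constructor
      · rintro ⟨h1, h2⟩ i
        exact ⟨h1 i, h2 i⟩
      · intro h1
        exact ⟨fun i => (h1 i).1, fun i => (h1 i).2⟩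
    rw [this]
    simp [h]
  have hswap : ∑ y ∈ B, h y ^ (k + 1) =
      ∑ x ∈ Fintype.piFinset (fun _ : Fin (k + 1) => B),
        ((B.filter (fun y => ∀ i, R (x i) y)).card : ℝ) := by
    calc ∑ y ∈ B, h y ^ (k + 1) = ∑ y ∈ B, ∑ x ∈ Fintype.piFinset (fun _ : Fin (k + 1) => B),
          (if ∀ i, R (x i) y then (1 : ℝ) else 0) := by
          refine Finset.sum_congr rfl fun y _ => ?_
          rw [hpow, Finset.card_filter]
          push_cast
          rfl
      _ = ∑ x ∈ Fintype.piFinset (fun _ : Fin (k + 1) => B), ∑ y ∈ B,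
          (if ∀ i, R (x i) y then (1 : ℝ) else 0) := Finset.sum_comm
      _ = _ := by
          refine Finset.sum_congr rfl fun x _ => ?_
          rw [Finset.card_filter]
          push_cast
          rfl
  have hbound : ∑ x ∈ Fintype.piFinset (fun _ : Fin (k + 1) => B),
        ((B.filter (fun y => ∀ i, R (x i) y)).card : ℝ) ≤
        b ^ (k + 1) * (e * b) + (k + 1) ^ 2 * b ^ k * b := by
    rw [← Finset.sum_filter_add_sum_filter_not _ (fun x => Function.Injective x)]
    refine add_le_add ?_ ?_
    · calc _ ≤ ∑ x ∈ (Fintype.piFinset (fun _ : Fin (k + 1) => B)).filter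
            (fun x => Function.Injective x), e * b := by
            refine Finset.sum_le_sum fun x hx => ?_
            have hinj := (Finset.mem_filter.1 hx).2
            have h1 := H (Finset.univ.image x) (by
              rw [Finset.card_image_of_injective _ hinj]; simp)
            refine le_trans (le_of_eq ?_) h1
            congr 2
            ext y
            simp
        _ = (((Fintype.piFinset (fun _ : Fin (k + 1) => B)).filter
            (fun x => Function.Injective x)).card : ℝ) * (e * b) := by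
            rw [Finset.sum_const, nsmul_eq_mul]
        _ ≤ b ^ (k + 1) * (e * b) := by
            refine mul_le_mul_of_nonneg_right ?_ (by positivity)
            have h2 : ((Fintype.piFinset (fun _ : Fin (k + 1) => B)).filter
              (fun x => Function.Injective x)).card ≤ B.card ^ (k + 1) := by
              refine (Finset.card_filter_le _ _).trans ?_
              simp
            rw [hb]
            exact_mod_cast h2
    · calc _ ≤ ∑ x ∈ (Fintype.piFinset (fun _ : Fin (k + 1) => B)).filter
            (fun x => ¬ Function.Injective x), b := by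
            refine Finset.sum_le_sum fun x _ => ?_
            rw [hb]
            exact_mod_cast Finset.card_filter_le _ _
        _ = (((Fintype.piFinset (fun _ : Fin (k + 1) => B)).filter
            (fun x => ¬ Function.Injective x)).card : ℝ) * b := by
            rw [Finset.sum_const, nsmul_eq_mul]
        _ ≤ (k + 1) ^ 2 * b ^ k * b := by
            refine mul_le_mul_of_nonneg_right ?_ hb0.le
            have h2 := card_not_inj B k
            rw [hb]
            exact_mod_cast h2
  have hfin : a ^ (k + 1) / b ^ k ≤ b ^ (k + 1) * (e * b) + (k + 1) ^ 2 * b ^ k * b :=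
    hpm.trans (hswap.le.trans hbound)
  rw [div_le_iff₀ (by positivity)] at hfin
  rw [div_pow, div_le_iff₀ (by positivity)]
  calc a ^ (k + 1) ≤ (b ^ (k + 1) * (e * b) + (k + 1) ^ 2 * b ^ k * b) * b ^ k := hfin
    _ = (e + (k + 1) ^ 2 / b) * (b ^ 2) ^ (k + 1) := by
        field_simp
        ring

/-- A14: conclusion by the power mean inequality. Proof: WLOG `k ≥ 1`. Write `b = |ball X n|`, `a` for
the number of pairs, `h y = |{x ∈ ball X n | x y = y φ x}|`, so `a = ∑_{y ∈ ball} h y`. By
`inner_le_nnorm_mul_nnorm` or rather the power mean inequality (`pow_sum_div_card_le_sum_pow`),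
`a^k ≤ b^(k-1) ∑_y (h y)^k`, and `∑_y (h y)^k` is the number of pairs `(x, y)`, `x : Fin k → ball`,
`y ∈ ball`, with `x_i y = y φ(x_i)` for all `i`. For injective `x` the number of `y` is at most
`ε b` (take `S` the image of `x`); the number of non-injective `x` is at most `k^2 b^(k-1)`. So
`a^k ≤ b^(k-1) (ε b^(k+1) + k^2 b^k)`, `(a/b^2)^k ≤ ε + k^2 / b`. -/
theorem tdc_tendsto {X : Set G} (hX : X.Finite) (φ : G →* G)
    (hinf : Tendsto (fun n => (ball X n).ncard) atTop atTop) (k : ℕ)
    (H : ∀ ε : ℝ, 0 < ε → ∃ n₀, ∀ n ≥ n₀, ∀ S : Finset G, k ≤ S.card →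
      (({y | y ∈ ball X n ∧ ∀ x ∈ S, x * y = y * φ x}).ncard : ℝ) ≤ ε * (ball X n).ncard) :
    Tendsto (fun n : ℕ =>
      (({p : G × G | p.1 ∈ ball X n ∧ p.2 ∈ ball X n ∧ p.1 * p.2 = p.2 * φ p.1}).ncard : ℝ) /
        ((ball X n).ncard : ℝ) ^ 2) atTop (𝓝 0) := by
  classical
  rw [Metric.tendsto_atTop]
  intro η hη
  have hη2 : 0 < (η / 2) ^ (k + 1) / 2 := by positivity
  obtain ⟨n₁, hn₁⟩ := H _ hη2
  have hinfR : Tendsto (fun n => ((ball X n).ncard : ℝ)) atTop atTop :=
    tendsto_natCast_atTop_atTop.comp hinf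
  obtain ⟨n₂, hn₂⟩ := eventually_atTop.1
    (hinfR.eventually_ge_atTop (((k : ℝ) + 1) ^ 2 / ((η / 2) ^ (k + 1) / 2)))
  refine ⟨max n₁ n₂, fun n hn => ?_⟩
  have hn1 : n₁ ≤ n := le_trans (le_max_left _ _) hn
  have hn2 : n₂ ≤ n := le_trans (le_max_right _ _) hn
  set B : Finset G := (ball_finite hX n).toFinset with hBdef
  have hBmem : ∀ g, g ∈ B ↔ g ∈ ball X n := fun g => by rw [hBdef, Set.Finite.mem_toFinset]
  have hBcard : (ball X n).ncard = B.card := Set.ncard_eq_toFinset_card _ (ball_finite hX n)
  have hBpos : 0 < B.card := by rw [← hBcard]; exact ncard_ball_pos hX n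
  have hBposR : (0 : ℝ) < (B.card : ℝ) := by exact_mod_cast hBpos
  have hpairs : ({p : G × G | p.1 ∈ ball X n ∧ p.2 ∈ ball X n ∧ p.1 * p.2 = p.2 * φ p.1}).ncard =
      ((B ×ˢ B).filter (fun p => p.1 * p.2 = p.2 * φ p.1)).card := by
    rw [← Set.ncard_coe_finset]
    congr 1
    ext p
    simp only [Set.mem_setOf_eq, Finset.coe_filter, Finset.mem_product, hBmem]
    tauto
  have hmain := count_ineq B (fun x y => x * y = y * φ x) k _ hη2.le hBpos (by
    intro S hS
    have h1 := hn₁ n hn1 S (by omega)
    rw [hBcard] at h1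
    refine le_trans (le_of_eq ?_) h1
    congr 1
    rw [← Set.ncard_coe_finset]
    congr 1
    ext y
    simp only [Set.mem_setOf_eq, Finset.coe_filter, hBmem])
  rw [hpairs, hBcard]
  set r : ℝ := (((B ×ˢ B).filter (fun p => p.1 * p.2 = p.2 * φ p.1)).card : ℝ) /
    (B.card : ℝ) ^ 2 with hr
  have hr0 : 0 ≤ r := by rw [hr]; positivity
  have h3 : ((k : ℝ) + 1) ^ 2 / B.card ≤ (η / 2) ^ (k + 1) / 2 := by
    have h4 := hn₂ n hn2
    rw [hBcard] at h4
    rw [div_le_iff₀ hBposR]
    rw [div_le_iff₀ hη2] at h4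
    linarith
  have h5 : r ^ (k + 1) ≤ (η / 2) ^ (k + 1) := by
    refine hmain.trans ?_
    linarith
  have h6 : r ≤ η / 2 := (pow_le_pow_iff_left₀ hr0 (by positivity) (by omega)).1 h5
  rw [Real.dist_eq, sub_zero, abs_of_nonneg hr0]
  linarith

end Pool.Agent.AcylTdc
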