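import Pool.Agent.AcylTdc.A03

open Filter Topology Set

namespace Pool.Agent.AcylTdc

variable {G Y : Type*} [Group G] [MetricSpace Y] [MulAction G Y] [IsIsometricSMul G Y] {δ : ℝ}

/-- A15a: moving towards a common direction. Let `q` be at distance `t` from `p` and let
`gp p (s p) q ≥ t - δ`, `gp p (s⁻¹ p) q ≥ t - δ`. Then `q` is moved less. Proof:
`dist q (s p) ≤ dist p (s p) - t + 2δ` and `dist p (s q) = dist (s⁻¹ p) q ≤ dist p (s p) - t + 2δ`
(`dist_eq_gp`), and the four point inequality for `q, s q, p, s p`: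
`dist q (s q) + dist p (s p) ≤ max (dist q p + dist (s q) (s p)) (dist q (s p) + dist (s q) p) + 2δ`. -/
theorem move_less (h : Hyp Y δ) (hδ : 0 ≤ δ) {p q : Y} {s : G} {t : ℝ} (hq : dist p q = t)
    (h1 : t - δ ≤ gp p (s • p) q) (h2 : t - δ ≤ gp p (s⁻¹ • p) q) :
    dist q (s • q) ≤ max (2 * t - dist p (s • p)) (dist p (s • p) - 2 * t + 4 * δ) + 2 * δ := by
  have _ := hδ
  have e1 := dist_eq_gp p (s • p) q
  have e2 := dist_eq_gp p (s⁻¹ • p) q
  have e3 : dist (s • q) p = dist (s⁻¹ • p) q := by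
    rw [← dist_smul s (s⁻¹ • p) q, smul_inv_smul, dist_comm]
  have e4 : dist p (s⁻¹ • p) = dist p (s • p) := dist_inv_smul s p
  have e5 : dist (s • q) (s • p) = t := by rw [dist_smul, dist_comm, hq]
  have e6 : dist q p = t := by rw [dist_comm, hq]
  have e7 : dist q (s • p) = dist (s • p) q := dist_comm _ _
  have h4 := h.four_point q (s • q) p (s • p)
  rw [e3, e5, e6, e7] at h4
  rw [e4] at e2
  rw [hq] at e1 e2
  have h5 : max (t + t) (dist (s • p) q + dist (s⁻¹ • p) q) ≤
      max (2 * t - dist p (s • p)) (dist p (s • p) - 2 * t + 4 * δ) + dist p (s • p) := by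
    refine max_le ?_ ?_
    · have := le_max_left (2 * t - dist p (s • p)) (dist p (s • p) - 2 * t + 4 * δ)
      linarith
    · have := le_max_right (2 * t - dist p (s • p)) (dist p (s • p) - 2 * t + 4 * δ)
      linarith
  linarith

/-- A15b: a loxodromic product. Path `p, s p, s s' p, s s' s p, ...` and `local_global`: the turning
products are `gp p (s⁻¹ p) (s' p)` and `gp p (s'⁻¹ p) (s p)`. -/
theorem lox_mul (h : Hyp Y δ) (hδ : 0 ≤ δ) {p : Y} {s s' : G} {c : ℝ} (hc : 0 ≤ c)
    (h1 : gp p (s⁻¹ • p) (s' • p) ≤ c) (h2 : gp p (s'⁻¹ • p) (s • p) ≤ c)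
    (h3 : 2 * c + 6 * δ + 1 ≤ dist p (s • p)) (h4 : 2 * c + 6 * δ + 1 ≤ dist p (s' • p)) :
    Lox Y (s * s') := by
  classical
  let w : ℕ → G := fun n => (s * s') ^ (n / 2) * (if n % 2 = 0 then 1 else s)
  have we : ∀ i, w (2 * i) = (s * s') ^ i := by
    intro i
    have a1 : 2 * i / 2 = i := by omega
    have a2 : 2 * i % 2 = 0 := by omega
    simp [w, a1]
  have wo : ∀ i, w (2 * i + 1) = (s * s') ^ i * s := by
    intro i
    have a1 : (2 * i + 1) / 2 = i := by omega
    have a2 : (2 * i + 1) % 2 = 1 := by omega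
    simp [w, a1]
  have hturn : ∀ i, gp (w (i + 1) • p) (w i • p) (w (i + 2) • p) ≤ c := by
    intro i
    rcases Nat.even_or_odd' i with ⟨j, rfl | rfl⟩
    · rw [wo, we, show 2 * j + 2 = 2 * (j + 1) by ring, we]
      have e := gp_smul ((s * s') ^ j * s)⁻¹ (((s * s') ^ j * s) • p) ((s * s') ^ j • p)
        ((s * s') ^ (j + 1) • p)
      rw [← e, inv_smul_smul, ← mul_smul, ← mul_smul]
      have a1 : ((s * s') ^ j * s)⁻¹ * (s * s') ^ j = s⁻¹ := by group
      have a2 : ((s * s') ^ j * s)⁻¹ * (s * s') ^ (j + 1) = s' := by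
        rw [pow_succ]; group
      rw [a1, a2]
      exact h1
    · rw [wo, show 2 * j + 1 + 1 = 2 * (j + 1) by ring, we,
        show 2 * j + 1 + 2 = 2 * (j + 1) + 1 by ring, wo]
      have e := gp_smul ((s * s') ^ (j + 1))⁻¹ ((s * s') ^ (j + 1) • p) (((s * s') ^ j * s) • p)
        (((s * s') ^ (j + 1) * s) • p)
      rw [← e, inv_smul_smul, ← mul_smul, ← mul_smul]
      have a1 : ((s * s') ^ (j + 1))⁻¹ * ((s * s') ^ j * s) = s'⁻¹ := by
        rw [pow_succ]; group
      have a2 : ((s * s') ^ (j + 1))⁻¹ * ((s * s') ^ (j + 1) * s) = s := by group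
      rw [a1, a2]
      exact h2
  have hlen : ∀ i, 2 * c + 6 * δ + 1 ≤ dist (w i • p) (w (i + 1) • p) := by
    intro i
    rcases Nat.even_or_odd' i with ⟨j, rfl | rfl⟩
    · rw [wo, we]
      have e := dist_smul ((s * s') ^ j)⁻¹ ((s * s') ^ j • p) (((s * s') ^ j * s) • p)
      rw [← e, inv_smul_smul, ← mul_smul]
      have a1 : ((s * s') ^ j)⁻¹ * ((s * s') ^ j * s) = s := by group
      rw [a1]
      exact h3
    · rw [wo, show 2 * j + 1 + 1 = 2 * (j + 1) by ring, we]
      have e := dist_smul ((s * s') ^ j * s)⁻¹ (((s * s') ^ j * s) • p) ((s * s') ^ (j + 1) • p)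
      rw [← e, inv_smul_smul, ← mul_smul]
      have a1 : ((s * s') ^ j * s)⁻¹ * (s * s') ^ (j + 1) = s' := by
        rw [pow_succ]; group
      rw [a1]
      exact h4
  refine ⟨p, 2, by norm_num, fun n => ?_⟩
  have hlg := (local_global h hδ hc (fun i => w i • p) (2 * n) (fun i _ => hturn i)
    (fun i _ => hlen i)).1 0 (2 * n) (Nat.zero_le _) le_rfl
  have w0 : w 0 = 1 := by
    have := we 0
    simpa using this
  rw [w0, one_smul, we] at hlg
  simpa using hlg

/-- A15c: a finite set that moves every point a lot has a loxodromic element in `S ∪ S S`. Proof: let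
`L = inf_p max_{s ∈ S} dist p (s p) ≥ 100δ + 100`, choose `p` with `max_s dist p (s p) ≤ L + 1`.
Put `t = 3δ + 2`, `a = 6δ + 5`, and call `s ∈ S` big if `dist p (s p) ≥ L - a`.
(1) The points `s p, s⁻¹ p` (`s` big) do not all have pairwise products `gp p _ _ ≥ t`: otherwise take a
big `s₀` and `q` on a geodesic from `p` to `s₀ p` at distance `t`; then `gp p (s p) q ≥ t - δ`,
`gp p (s⁻¹ p) q ≥ t - δ` for all big `s`, so by A15a `dist q (s q) ≤ dist p (s p) - 2t + 6δ ≤ L - 1/2`..
and for the other `s`, `dist q (s q) ≤ dist p (s p) + 2t < L - a + 2t ≤ L - 1`, a contradiction.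
(2) If some big `s` has `gp p (s p) (s⁻¹ p) ≤ 5δ + 2`, it is loxodromic (`axis_of_turn`, `Axis.lox`).
(3) Otherwise take big `s, s'` and `u ∈ {s p, s⁻¹ p}`, `v ∈ {s' p, s'⁻¹ p}` with `gp p u v < t`. By
`Hyp.ineq3` all products between `{s p, s⁻¹ p}` and `{s' p, s'⁻¹ p}` are `≤ t + 2δ = 5δ + 2`, and A15b
applies. -/
theorem exists_lox_of_large (h : Hyp Y δ) (hδ : 0 ≤ δ) (hgeo : Geod Y) [Nonempty Y] (S : Finset G)
    (hbig : ∀ p : Y, ∃ s ∈ S, 100 * δ + 100 ≤ dist p (s • p)) : ∃ g : G, Lox Y g := by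
  classical
  have hSne : S.Nonempty := by
    obtain ⟨s, hs, _⟩ := hbig (Classical.arbitrary Y)
    exact ⟨s, hs⟩
  let F : Y → ℝ := fun p => S.sup' hSne (fun s => dist p (s • p))
  have hFle : ∀ (p : Y) (s : G), s ∈ S → dist p (s • p) ≤ F p := fun p s hs =>
    Finset.le_sup' (fun s => dist p (s • p)) hs
  have hFmem : ∀ p, ∃ s ∈ S, F p = dist p (s • p) := fun p => by
    obtain ⟨s, hs, he⟩ := Finset.exists_mem_eq_sup' hSne (fun s => dist p (s • p))
    exact ⟨s, hs, he⟩
  have hF100 : ∀ p, 100 * δ + 100 ≤ F p := fun p => by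
    obtain ⟨s, hs, h1⟩ := hbig p
    exact h1.trans (hFle p s hs)
  have hbelow : BddBelow (Set.range F) := ⟨100 * δ + 100, by rintro _ ⟨q, rfl⟩; exact hF100 q⟩
  set L := ⨅ q, F q with hL
  have hL100 : 100 * δ + 100 ≤ L := le_ciInf hF100
  have hLle : ∀ q, L ≤ F q := fun q => ciInf_le hbelow q
  obtain ⟨p, hp⟩ := exists_lt_of_ciInf_lt (show ⨅ q, F q < L + 1 by rw [← hL]; linarith)
  -- big elements
  let Big : G → Prop := fun s => s ∈ S ∧ L - (6 * δ + 5) ≤ dist p (s • p)
  by_contra hno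
  push Not at hno
  -- the sign choices
  let pt : G → Bool → Y := fun s b => if b then s • p else s⁻¹ • p
  have hdpt : ∀ s b, dist p (pt s b) = dist p (s • p) := by
    intro s b
    cases b
    · simp only [pt, Bool.false_eq_true, if_false]
      exact dist_inv_smul s p
    · simp [pt]
  have hself : ∀ s, Big s → 5 * δ + 2 < gp p (s⁻¹ • p) (s • p) := by
    intro s hs
    by_contra hle
    push Not at hle
    have ax := axis_of_turn h hδ (g := s) (o := p) (by have := hs.2; linarith)
    exact hno s ax.lox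
  have hpair : ∀ s, Big s → ∀ b b', 5 * δ + 2 < gp p (pt s b) (pt s b') := by
    intro s hs b b'
    have h1 := hself s hs
    have h2 := hs.2
    cases b <;> cases b'
    · simp only [pt, Bool.false_eq_true, if_false]
      rw [gp_self, dist_inv_smul]
      linarith
    · simpa [pt] using h1
    · simp only [pt, Bool.false_eq_true, if_false, if_true]
      rw [gp_comm]
      exact h1
    · simp only [pt, if_true]
      rw [gp_self]
      linarith
  -- (3) all the products are large
  have hall : ∀ s s', Big s → Big s' → ∀ b b', 3 * δ + 2 ≤ gp p (pt s b) (pt s' b') := by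
    intro s s' hs hs' b b'
    by_contra hlt
    push Not at hlt
    have hsmall : ∀ c c', gp p (pt s c) (pt s' c') ≤ 5 * δ + 2 := by
      intro c c'
      by_contra hgt
      push Not at hgt
      have h3 := h.ineq3 hδ p (pt s b) (pt s c) (pt s' c') (pt s' b')
      have h4 : 5 * δ + 2 < min (gp p (pt s b) (pt s c))
          (min (gp p (pt s c) (pt s' c')) (gp p (pt s' c') (pt s' b'))) :=
        lt_min (hpair s hs b c) (lt_min hgt (hpair s' hs' c' b'))
      linarith
    have k1 := hsmall false true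
    have k2 := hsmall true false
    simp only [pt, Bool.false_eq_true, if_false, if_true] at k1 k2
    rw [gp_comm] at k2
    have a1 := hs.2
    have a2 := hs'.2
    exact hno _ (lox_mul h hδ (c := 5 * δ + 2) (by linarith) k1 k2 (by linarith) (by linarith))
  -- (1) move towards the common direction
  obtain ⟨s₀, hs₀, hs₀F⟩ := hFmem p
  have hbig₀ : Big s₀ := ⟨hs₀, by rw [← hs₀F]; have := hLle p; linarith⟩
  obtain ⟨q, hq1, hq2⟩ := hgeo.point p (s₀ • p) (t := 3 * δ + 2) (by linarith)
    (by have := hbig₀.2; linarith)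
  have hgq : gp p (s₀ • p) q = 3 * δ + 2 := by
    unfold gp
    rw [dist_comm (s₀ • p) q, hq1, hq2]
    ring
  have hdir : ∀ s, Big s → ∀ b, 3 * δ + 2 - δ ≤ gp p (pt s b) q := by
    intro s hs b
    have k1 := hall s s₀ hs hbig₀ b true
    have k2 := h.ineq p (pt s b) (pt s₀ true) q
    have k3 : gp p (pt s₀ true) q = 3 * δ + 2 := by
      simpa [pt] using hgq
    rw [k3] at k2
    have k4 : 3 * δ + 2 ≤ min (gp p (pt s b) (pt s₀ true)) (3 * δ + 2) := le_min k1 le_rfl
    linarith
  obtain ⟨s, hs, hsF⟩ := hFmem q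
  have hLq := hLle q
  rw [hsF] at hLq
  by_cases hsb : Big s
  · have k1 := hdir s hsb true
    have k2 := hdir s hsb false
    simp only [pt, Bool.false_eq_true, if_false, if_true] at k1 k2
    have k3 := move_less h hδ (s := s) hq1 k1 k2
    have k4 := hsb.2
    have k5 := hFle p s hs
    have k6 : max (2 * (3 * δ + 2) - dist p (s • p))
        (dist p (s • p) - 2 * (3 * δ + 2) + 4 * δ) ≤ L + 1 - 2 * (3 * δ + 2) + 4 * δ := by
      refine max_le ?_ ?_ <;> linarith
    linarith
  · have k1 : dist p (s • p) < L - (6 * δ + 5) := by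
      by_contra hle
      push Not at hle
      exact hsb ⟨hs, hle⟩
    have k2 := dist_triangle q p (s • q)
    have k3 := dist_triangle p (s • p) (s • q)
    have k4 : dist (s • p) (s • q) = 3 * δ + 2 := by rw [dist_smul, hq1]
    have k5 : dist q p = 3 * δ + 2 := by rw [dist_comm, hq1]
    linarith

end Pool.Agent.AcylTdc
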