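import Pool.Agent.AcylTdc.A11
import Pool.Agent.AcylTdc.A15

open Filter Topology Set Pool.Agent.TwistedRatio

namespace Pool.Agent.AcylTdc

variable {G Y : Type*} [Group G] [MetricSpace Y] [MulAction G Y] [IsIsometricSMul G Y] {δ : ℝ}

private theorem A16_big {G : Type*} [Group G] {X : Set G} (hX : X.Finite)
    (hgen : Subgroup.closure X = ⊤) [Infinite G] (N : ℕ) : ∃ m, N + 1 ≤ (ball X m).ncard := by
  obtain ⟨s, hs⟩ := Infinite.exists_subset_card_eq G (N + 1)
  choose r hr using fun g : G => exists_mem_ball hgen g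
  refine ⟨s.sup r, ?_⟩
  have hsub : (s : Set G) ⊆ ball X (s.sup r) := by
    intro g hg
    exact ball_mono (Finset.le_sup (f := r) (Finset.mem_coe.mp hg)) (hr g)
  have := Set.ncard_le_ncard hsub (ball_finite hX _)
  rw [Set.ncard_coe_finset, hs] at this
  exact this

/-- A16: a finitely generated group with an acylindrical action with unbounded orbits contains a
loxodromic element. Proof: suppose not. Put `K = 100δ + 100`. By A15c for every `m` there is `p m` with
`dist (p m) (s • p m) < K` for all `s ∈ ball X m` (finite). Let `R₁, N` be as in `Acyl` for `K`.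
`G` is infinite (unbounded orbits), so some `ball X m₀` has more than `N` elements; for `m ≥ m₀` all
elements of `ball X m₀` move `p m` and `p m₀` by at most `K`, so `dist (p m) (p m₀) < R₁`. Every `g : G`
is in `ball X m` for some `m ≥ m₀`, so `dist (p m₀) (g • p m₀) ≤ 2R₁ + K`: all orbits are bounded. -/
theorem exists_lox (h : Hyp Y δ) (hδ : 0 ≤ δ) (hgeo : Geod Y) (hac : Acyl G Y) {X : Set G}
    (hX : X.Finite) (hgen : Subgroup.closure X = ⊤) (hunb : UnbddOrbits G Y) :
    ∃ g : G, Lox Y g := by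
  by_contra hno
  obtain ⟨y, hy⟩ := hunb
  haveI : Nonempty Y := ⟨y⟩
  have hp : ∀ m : ℕ, ∃ p : Y, ∀ s ∈ ball X m, dist p (s • p) < 100 * δ + 100 := by
    intro m
    by_contra hcon
    push Not at hcon
    refine hno (exists_lox_of_large h hδ hgeo (ball_finite hX m).toFinset fun p => ?_)
    obtain ⟨s, hs, hs'⟩ := hcon p
    exact ⟨s, (Set.Finite.mem_toFinset _).mpr hs, hs'⟩
  choose p hp using hp
  obtain ⟨R₁, N, hN⟩ := hac (100 * δ + 100)
  haveI : Infinite G := by
    by_contra hfin
    rw [not_infinite_iff_finite] at hfin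
    obtain ⟨B, hB⟩ := (Set.finite_range fun g : G => dist y (g • y)).bddAbove
    obtain ⟨g, hg⟩ := hy B
    have := hB ⟨g, rfl⟩
    beta_reduce at this
    linarith
  obtain ⟨m₀, hm₀⟩ := A16_big hX hgen N
  have hclose : ∀ m, m₀ ≤ m → dist (p m) (p m₀) < R₁ := by
    intro m hm
    by_contra hcon
    push Not at hcon
    have h1 := hN (p m) (p m₀) hcon
    have hsub : ball X m₀ ⊆ {g : G | dist (p m) (g • p m) ≤ 100 * δ + 100 ∧
        dist (p m₀) (g • p m₀) ≤ 100 * δ + 100} := fun g hg =>
      ⟨(hp m g (ball_mono hm hg)).le, (hp m₀ g hg).le⟩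
    have h2 := Set.encard_le_encard hsub
    have h3 := (Set.encard_le_coe_iff_finite_ncard_le.mp (h2.trans h1)).2
    omega
  obtain ⟨g, hg⟩ := hy (2 * dist y (p m₀) + (2 * R₁ + (100 * δ + 100)))
  obtain ⟨k, hk⟩ := exists_mem_ball hgen g
  have hk' : g ∈ ball X (max m₀ k) := ball_mono (le_max_right _ _) hk
  have e1 := hclose (max m₀ k) (le_max_left _ _)
  have e2 := hp (max m₀ k) g hk'
  have e3 := dist_triangle4 (p m₀) (p (max m₀ k)) (g • p (max m₀ k)) (g • p m₀)
  rw [dist_smul, dist_comm (p m₀) (p (max m₀ k))] at e3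
  have e4 := dist_triangle4 y (p m₀) (g • p m₀) (g • y)
  rw [dist_smul, dist_comm (p m₀) y] at e4
  linarith

end Pool.Agent.AcylTdc
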