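import Pool.Agent.AcylTdc.A04

open Filter Topology Set

namespace Pool.Agent.AcylTdc

variable {G Y : Type*} [Group G] [MetricSpace Y] [MulAction G Y] [IsIsometricSMul G Y] {δ : ℝ}

private theorem dist_sign (f : G) (o : Y) (m : ℤ) (i : ℕ) (hi : i ≤ m.natAbs) :
    dist o (f ^ (m.sign * i) • o) = dist o (f ^ i • o) := by
  have h := dist_pow_pow f o 0 (m.sign * i)
  rw [zpow_zero, one_smul, sub_zero] at h
  rw [h]
  have h2 : (m.sign * (i : ℤ)).natAbs = i := by
    rw [Int.natAbs_mul, Int.natAbs_natCast]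
    by_cases hm : m = 0
    · subst hm
      simp only [Int.natAbs_zero, Nat.le_zero] at hi
      rw [hi, mul_zero]
    · rw [Int.natAbs_sign_of_ne_zero hm, one_mul]
  rw [h2]

private theorem gp_sign {f : G} {o : Y} {C : ℝ} (ax : Axis δ f o C) (m : ℤ) (i : ℕ)
    (hi : i ≤ m.natAbs) :
    dist o (f ^ i • o) - C ≤ gp o (f ^ (m.sign * i) • o) (f ^ m • o) := by
  have h1 := gp_add o (f ^ (m.sign * i) • o) (f ^ m • o)
  rw [dist_sign f o m i hi] at h1
  have h2 : gp (f ^ (m.sign * i) • o) o (f ^ m • o) ≤ C := by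
    rcases le_total 0 m with hm | hm
    · rcases eq_or_lt_of_le hm with hm0 | hm0
      · have hi0 : i = 0 := by
          rw [← hm0] at hi
          simpa using hi
        have := ax.turn 0 0 0 le_rfl le_rfl
        rw [← hm0, hi0]
        simpa using this
      · have hs : m.sign = 1 := Int.sign_eq_one_of_pos hm0
        have := ax.turn 0 (m.sign * i) m (by rw [hs]; omega) (by rw [hs]; omega)
        rw [zpow_zero, one_smul] at this
        exact this
    · rcases eq_or_lt_of_le hm with hm0 | hm0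
      · have hi0 : i = 0 := by
          rw [hm0] at hi
          simpa using hi
        have := ax.turn 0 0 0 le_rfl le_rfl
        rw [hm0, hi0]
        simpa using this
      · have hs : m.sign = -1 := Int.sign_eq_neg_one_of_neg hm0
        have := ax.turn m (m.sign * i) 0 (by rw [hs]; omega) (by rw [hs]; omega)
        rw [zpow_zero, one_smul, gp_comm] at this
        exact this
  linarith

/-- A17a: fellow travelling. Let `L = dist o (g o)`, `l i = dist o (f^i o)`, and let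
`t = gp o (f^m o) ((g f^n) o)`. For `i : ℕ` with `l i ≤ t - L` we have
`dist (f^(σ i) o) ((g f^(τ i)) o) ≤ 3L + 2C + 4δ`, where `σ, τ` are the signs of `m, n`.
Proof: `i ≤ |m|, |n|` by `Axis.strictMono` (`t ≤ l |m|`, `t ≤ L + l |n|`). With
`gp o (f^(σ i) o) (f^m o) = l i - gp (f^(σ i) o) o (f^m o) ≥ l i - C`,
`gp o ((g f^(τ i)) o) ((g f^n) o) ≥ gp (g o) (..) (..) - L ≥ l i - C - L` and `Hyp.ineq3`:
`gp o (f^(σ i) o) ((g f^(τ i)) o) ≥ l i - C - L - 2δ`; then `dist_eq_gp` and
`dist o ((g f^(τ i)) o) ≤ L + l i`. -/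
theorem Axis.fellow (h : Hyp Y δ) (hδ : 0 ≤ δ) {f : G} {o : Y} {C : ℝ} (ax : Axis δ f o C)
    (g : G) (m n : ℤ) (i : ℕ)
    (hi : dist o (f ^ i • o) ≤ gp o (f ^ m • o) ((g * f ^ n) • o) - dist o (g • o)) :
    dist (f ^ (m.sign * i) • o) ((g * f ^ (n.sign * i)) • o) ≤
      3 * dist o (g • o) + 2 * C + 4 * δ := by
  have hL : 0 ≤ dist o (g • o) := dist_nonneg
  have hC := ax.nonneg
  have hmono := ax.strictMono hδ
  have hdm : dist o (f ^ m • o) = dist o (f ^ m.natAbs • o) := by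
    have := dist_pow_pow f o 0 m
    rw [zpow_zero, one_smul, sub_zero] at this
    exact this
  have hdn : dist o (f ^ n • o) = dist o (f ^ n.natAbs • o) := by
    have := dist_pow_pow f o 0 n
    rw [zpow_zero, one_smul, sub_zero] at this
    exact this
  have him : i ≤ m.natAbs := by
    have h1 := gp_le_left o (f ^ m • o) ((g * f ^ n) • o)
    have h2 : dist o (f ^ i • o) ≤ dist o (f ^ m.natAbs • o) := by linarith
    exact hmono.le_iff_le.1 h2
  have hin : i ≤ n.natAbs := by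
    have h1 := gp_le_right o (f ^ m • o) ((g * f ^ n) • o)
    have h3 := dist_mul_smul_le g (f ^ n) o
    have h2 : dist o (f ^ i • o) ≤ dist o (f ^ n.natAbs • o) := by linarith
    exact hmono.le_iff_le.1 h2
  have h1 := gp_sign ax m i him
  have h2 : dist o (f ^ i • o) - C - dist o (g • o) ≤
      gp o ((g * f ^ n) • o) ((g * f ^ (n.sign * i)) • o) := by
    have h3 := gp_sign ax n i hin
    have h4 := gp_lip_base o (g • o) ((g * f ^ n) • o) ((g * f ^ (n.sign * i)) • o)
    rw [mul_smul, mul_smul, gp_smul, gp_comm o (f ^ n • o)] at h4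
    rw [mul_smul, mul_smul]
    have h5 := (abs_le.1 h4).1
    linarith
  have h6 := h.ineq3 hδ o (f ^ (m.sign * i) • o) (f ^ m • o) ((g * f ^ n) • o)
    ((g * f ^ (n.sign * i)) • o)
  have h7 : dist o (f ^ i • o) - C - dist o (g • o) ≤
      min (gp o (f ^ (m.sign * i) • o) (f ^ m • o))
        (min (gp o (f ^ m • o) ((g * f ^ n) • o))
          (gp o ((g * f ^ n) • o) ((g * f ^ (n.sign * i)) • o))) := by
    refine le_min (by linarith) (le_min (by linarith) h2)
  have h8 := dist_eq_gp o (f ^ (m.sign * i) • o) ((g * f ^ (n.sign * i)) • o)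
  have h9 := dist_mul_smul_le g (f ^ (n.sign * i)) o
  rw [dist_sign f o n i hin] at h9
  rw [dist_sign f o m i him] at h8
  linarith

/-- A17b: if the axis of `f` and its translate by `g` are not independent, `g` commensurates `f`.
Proof: `(g f g⁻¹)^n • o = (g f^n g⁻¹) • o` is at distance `L = dist o (g⁻¹ o) = dist o (g o)` from
`(g f^n) o`. Let `K = 3L + 2C + 4δ`, and let `R₀, N` be as in `Acyl` for `ε = 2K`, `i₁` with
`dist o (f^i₁ o) ≥ R₀`, `I = N + i₁ + 1`. By A17a there are `σ, τ ∈ {1, -1}` with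
`dist (f^(σ i) o) ((g f^(τ i)) o) ≤ K` for all `0 ≤ i ≤ I` (the signs are not `0` because the product
is positive). Let `k_j = f^(-σ j) g f^(τ j)`, `0 ≤ j ≤ N`. Then `k_j` moves `o` by at most `K`
and maps `f^(τ i₁) o` to within `K` of `f^(σ i₁) o`. So the elements `k_0⁻¹ k_j`, `j = 0..N`, move `o` and
`f^(τ i₁) o` by at most `2K`, and two of them coincide: `k_i = k_j`, `i < j`, which gives
`g f^(τ s) g⁻¹ = f^(σ s)`, `s = j - i`. -/
theorem commensurate_of_unbounded (h : Hyp Y δ) (hδ : 0 ≤ δ) (hac : Acyl G Y) {f : G} {o : Y}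
    {C : ℝ} (ax : Axis δ f o C) (g : G)
    (hg : ∀ B : ℝ, ∃ m n : ℤ, B < gp o (f ^ m • o) ((g * f * g⁻¹) ^ n • o)) :
    ∃ s : ℕ, 1 ≤ s ∧ (g * f ^ s * g⁻¹ = f ^ s ∨ g * f ^ s * g⁻¹ = (f ^ s)⁻¹) := by
  obtain ⟨L, hL⟩ : ∃ L, L = dist o (g • o) := ⟨_, rfl⟩
  have hL0 : 0 ≤ L := by rw [hL]; exact dist_nonneg
  obtain ⟨K, hK⟩ : ∃ K, K = 3 * L + 2 * C + 4 * δ := ⟨_, rfl⟩
  obtain ⟨R, N, hRN⟩ := hac (2 * K)
  obtain ⟨i₁, hi₁⟩ : ∃ i₁ : ℕ, R ≤ dist o (f ^ i₁ • o) :=
    ⟨⌈R⌉₊, (Nat.le_ceil R).trans (ax.lower _)⟩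
  have hmono := ax.strictMono hδ
  obtain ⟨m, n, hmn⟩ := hg (dist o (f ^ (N + i₁ + 1) • o) + 2 * L)
  -- replace `(g f g⁻¹)^n o` by `g f^n o`
  have hgp : dist o (f ^ (N + i₁ + 1) • o) + L < gp o (f ^ m • o) ((g * f ^ n) • o) := by
    have h1 : (g * f * g⁻¹) ^ n = g * f ^ n * g⁻¹ := conj_zpow
    have h2 := gp_lip_right o (f ^ m • o) ((g * f * g⁻¹) ^ n • o) ((g * f ^ n) • o)
    have h3 : dist ((g * f * g⁻¹) ^ n • o) ((g * f ^ n) • o) = L := by
      rw [h1, mul_smul (g * f ^ n) g⁻¹ o, dist_smul, dist_comm, dist_inv_smul, hL]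
    rw [h3] at h2
    have h4 := (abs_le.1 h2).2
    linarith
  have hfel : ∀ i : ℕ, i ≤ N + i₁ + 1 →
      dist (f ^ (m.sign * i) • o) ((g * f ^ (n.sign * i)) • o) ≤ K := by
    intro i hi
    have h1 : dist o (f ^ i • o) ≤ dist o (f ^ (N + i₁ + 1) • o) := hmono.le_iff_le.2 hi
    rw [hK, hL]
    refine ax.fellow h hδ g m n i ?_
    rw [← hL]
    linarith
  have hm0 : m ≠ 0 := by
    intro hm
    have h1 := gp_le_left o (f ^ m • o) ((g * f ^ n) • o)
    rw [hm, zpow_zero, one_smul, dist_self] at h1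
    have h2 : 0 ≤ dist o (f ^ (N + i₁ + 1) • o) := dist_nonneg
    rw [hm, zpow_zero, one_smul] at hgp
    linarith
  have hn0 : n ≠ 0 := by
    intro hn
    have h1 := gp_le_right o (f ^ m • o) ((g * f ^ n) • o)
    rw [hn, zpow_zero, mul_one, ← hL] at h1
    have h2 := ax.lower (N + i₁ + 1)
    have h3 : (0 : ℝ) < ((N + i₁ + 1 : ℕ) : ℝ) := by positivity
    rw [hn, zpow_zero, mul_one] at hgp
    linarith
  -- the elements `k j`
  obtain ⟨k, hk⟩ : ∃ k : ℕ → G, ∀ j, k j = f ^ (-(m.sign * j)) * g * f ^ (n.sign * j) :=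
    ⟨_, fun _ => rfl⟩
  obtain ⟨x, hx⟩ : ∃ x : Y, x = f ^ (n.sign * i₁) • o := ⟨_, rfl⟩
  obtain ⟨x', hx'⟩ : ∃ x' : Y, x' = f ^ (m.sign * i₁) • o := ⟨_, rfl⟩
  have hko : ∀ j ≤ N, dist o (k j • o) ≤ K := by
    intro j hj
    have h1 := hfel j (by omega)
    have h2 : dist o (k j • o) = dist (f ^ (m.sign * j) • o) ((g * f ^ (n.sign * j)) • o) := by
      rw [hk j, mul_assoc, mul_smul, ← dist_smul (f ^ (m.sign * (j : ℤ))) o, ← mul_smul
        (f ^ (m.sign * (j : ℤ))), ← zpow_add, add_neg_cancel, zpow_zero, one_smul]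
    rw [h2]
    exact h1
  have hkx : ∀ j ≤ N, dist x' (k j • x) ≤ K := by
    intro j hj
    have h1 := hfel (j + i₁) (by omega)
    have h2 : dist x' (k j • x) =
        dist (f ^ (m.sign * ((j + i₁ : ℕ) : ℤ)) • o)
          ((g * f ^ (n.sign * ((j + i₁ : ℕ) : ℤ))) • o) := by
      rw [hk j, hx, hx', ← mul_smul, ← dist_smul (f ^ (m.sign * (j : ℤ))), ← mul_smul, ← mul_smul]
      congr 2
      · rw [← zpow_add]
        congr 1
        push_cast
        ring
      · rw [mul_assoc, mul_assoc, ← mul_assoc (f ^ (m.sign * (j : ℤ))), ← zpow_add, ← zpow_add,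
          add_neg_cancel, zpow_zero, one_mul]
        congr 2
        push_cast
        ring
    rw [h2]
    exact h1
  have hox : R ≤ dist o x := by
    have h1 := dist_pow_pow f o 0 (n.sign * i₁)
    rw [zpow_zero, one_smul, sub_zero] at h1
    have h2 : (n.sign * (i₁ : ℤ)).natAbs = i₁ := by
      rw [Int.natAbs_mul, Int.natAbs_natCast, Int.natAbs_sign_of_ne_zero hn0, one_mul]
    rw [hx, h1, h2]
    exact hi₁
  -- pigeonhole
  have hcard := hRN o x hox
  have hnotinj : ∃ i j : ℕ, i < j ∧ j ≤ N ∧ k i = k j := by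
    by_contra hcon
    push Not at hcon
    have hinj : Set.InjOn (fun j => (k 0)⁻¹ * k j) (Set.Iic N) := by
      intro a ha b hb hab
      have hab' : k a = k b := mul_left_cancel hab
      rcases lt_trichotomy a b with h1 | h1 | h1
      · exact absurd hab' (hcon a b h1 hb)
      · exact h1
      · exact absurd hab'.symm (hcon b a h1 ha)
    have hsub : (fun j => (k 0)⁻¹ * k j) '' (Set.Iic N) ⊆
        {g : G | dist o (g • o) ≤ 2 * K ∧ dist x (g • x) ≤ 2 * K} := by
      rintro _ ⟨j, hj, rfl⟩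
      have hj' : j ≤ N := hj
      constructor
      · have h1 : dist o (((k 0)⁻¹ * k j) • o) = dist (k 0 • o) (k j • o) := by
          rw [mul_smul, ← dist_smul (k 0) o, smul_inv_smul]
        show dist o (((k 0)⁻¹ * k j) • o) ≤ 2 * K
        rw [h1]
        have h2 := dist_triangle (k 0 • o) o (k j • o)
        have h3 := hko 0 (Nat.zero_le _)
        have h4 := hko j hj'
        rw [dist_comm] at h3
        linarith
      · have h1 : dist x (((k 0)⁻¹ * k j) • x) = dist (k 0 • x) (k j • x) := by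
          rw [mul_smul, ← dist_smul (k 0) x, smul_inv_smul]
        show dist x (((k 0)⁻¹ * k j) • x) ≤ 2 * K
        rw [h1]
        have h2 := dist_triangle (k 0 • x) x' (k j • x)
        have h3 := hkx 0 (Nat.zero_le _)
        have h4 := hkx j hj'
        rw [dist_comm] at h3
        linarith
    have h5 := (Set.encard_le_encard hsub).trans hcard
    rw [hinj.encard_image] at h5
    have h6 : (Set.Iic N).encard = ((N + 1 : ℕ) : ℕ∞) := by
      rw [← Finset.coe_Iic, Set.encard_coe_eq_coe_finsetCard, Nat.card_Iic]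
    rw [h6] at h5
    have h7 : N + 1 ≤ N := by exact_mod_cast h5
    omega
  obtain ⟨i, j, hij, hjN, hkk⟩ := hnotinj
  rw [hk i, hk j] at hkk
  -- the relation
  have hrel : ∀ s : ℤ, s = (j : ℤ) - i → f ^ (m.sign * s) * g = g * f ^ (n.sign * s) := by
    intro s hs
    have h1 : f ^ (m.sign * (j : ℤ)) * (f ^ (-(m.sign * (i : ℤ))) * g * f ^ (n.sign * (i : ℤ))) *
        f ^ (-(n.sign * (i : ℤ))) = f ^ (m.sign * (j : ℤ)) *
        (f ^ (-(m.sign * (j : ℤ))) * g * f ^ (n.sign * (j : ℤ))) * f ^ (-(n.sign * (i : ℤ))) := by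
      rw [hkk]
    have h2 : f ^ (m.sign * (j : ℤ)) * (f ^ (-(m.sign * (i : ℤ))) * g * f ^ (n.sign * (i : ℤ))) *
        f ^ (-(n.sign * (i : ℤ))) = f ^ (m.sign * s) * g := by
      have e1 : m.sign * s = m.sign * (j : ℤ) + -(m.sign * (i : ℤ)) := by rw [hs]; ring
      rw [e1, zpow_add, zpow_neg f (n.sign * (i : ℤ))]
      group
    have h3 : f ^ (m.sign * (j : ℤ)) * (f ^ (-(m.sign * (j : ℤ))) * g * f ^ (n.sign * (j : ℤ))) *
        f ^ (-(n.sign * (i : ℤ))) = g * f ^ (n.sign * s) := by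
      have e1 : n.sign * s = n.sign * (j : ℤ) + -(n.sign * (i : ℤ)) := by rw [hs]; ring
      rw [e1, zpow_add, zpow_neg f (m.sign * (j : ℤ))]
      group
    rw [← h2, h1, h3]
  refine ⟨j - i, by omega, ?_⟩
  have hr := hrel ((j - i : ℕ) : ℤ) (by omega)
  rcases lt_or_gt_of_ne hn0 with hn | hn
  · have hns : n.sign = -1 := Int.sign_eq_neg_one_of_neg hn
    rcases lt_or_gt_of_ne hm0 with hm | hm
    · have hms : m.sign = -1 := Int.sign_eq_neg_one_of_neg hm
      left
      rw [hns, hms, neg_one_mul, zpow_neg, zpow_natCast] at hr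
      -- (f^s)⁻¹ g = g (f^s)⁻¹
      have : g * f ^ (j - i) = f ^ (j - i) * g := by
        calc g * f ^ (j - i) = f ^ (j - i) * ((f ^ (j - i))⁻¹ * g) * f ^ (j - i) := by group
          _ = f ^ (j - i) * (g * (f ^ (j - i))⁻¹) * f ^ (j - i) := by rw [hr]
          _ = f ^ (j - i) * g := by group
      rw [this]
      group
    · have hms : m.sign = 1 := Int.sign_eq_one_of_pos hm
      right
      rw [hns, hms, neg_one_mul, one_mul, zpow_neg, zpow_natCast] at hr
      -- f^s g = g (f^s)⁻¹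
      have : g * f ^ (j - i) = (f ^ (j - i))⁻¹ * g := by
        calc g * f ^ (j - i) = (f ^ (j - i))⁻¹ * (f ^ (j - i) * g) * f ^ (j - i) := by group
          _ = (f ^ (j - i))⁻¹ * (g * (f ^ (j - i))⁻¹) * f ^ (j - i) := by rw [hr]
          _ = (f ^ (j - i))⁻¹ * g := by group
      rw [this]
      group
  · have hns : n.sign = 1 := Int.sign_eq_one_of_pos hn
    rcases lt_or_gt_of_ne hm0 with hm | hm
    · have hms : m.sign = -1 := Int.sign_eq_neg_one_of_neg hm
      right
      rw [hns, hms, neg_one_mul, one_mul, zpow_neg, zpow_natCast] at hr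
      rw [← hr]
      group
    · have hms : m.sign = 1 := Int.sign_eq_one_of_pos hm
      left
      rw [hns, hms, one_mul, zpow_natCast] at hr
      rw [← hr]
      group

end Pool.Agent.AcylTdc
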