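import Pool.Agent.AcylTdc.A04

open Filter Topology Set

namespace Pool.Agent.AcylTdc

variable {G Y : Type*} [Group G] [MetricSpace Y] [MulAction G Y] [IsIsometricSMul G Y] {δ : ℝ}

private theorem move_of_commute {e : G} {a : G} (o : Y) (hc : e * a = a * e) :
    dist (a • o) (e • a • o) = dist o (e • o) := by
  rw [← mul_smul, hc, mul_smul, dist_smul]

/-- A18a: the elements commuting with a power of `f` and moving `o` a bounded amount form a finite set.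
Proof: for such `e` (commuting with `f^s`) and `i₁ : ℕ` with `dist o (f^i₁ o) ≥ R₀` take `J` with
`s J ≥ i₁`, `u = f^(-sJ) o`, `v = f^(sJ) o`. `e` moves `u, v` by `dist o (e o) ≤ K`. By `turn`,
`gp (f^i₁ o) u v ≤ C`, `gp (e f^i₁ o) (e u) (e v) ≤ C`, so `gp (e f^i₁ o) u v ≤ C + 2K`, and
`|dist u (f^i₁ o) - dist u (e f^i₁ o)| ≤ K`; `Hyp.close` gives
`dist (f^i₁ o) (e f^i₁ o) ≤ K + 2(C + 2K) + 2δ`. Now `Acyl` (choose `i₁` for this constant). -/
theorem finite_commuting (h : Hyp Y δ) (hδ : 0 ≤ δ) (hac : Acyl G Y) {f : G} {o : Y} {C : ℝ}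
    (ax : Axis δ f o C) (K : ℝ) :
    {e : G | dist o (e • o) ≤ K ∧ ∃ s : ℕ, 1 ≤ s ∧ e * f ^ s = f ^ s * e}.Finite := by
  have hC := ax.nonneg
  obtain ⟨R, N, hRN⟩ := hac (max K (K + 2 * (C + 2 * K) + 2 * δ))
  obtain ⟨i₁, hi₁⟩ : ∃ i₁ : ℕ, R ≤ dist o (f ^ i₁ • o) :=
    ⟨⌈R⌉₊, (Nat.le_ceil R).trans (ax.lower _)⟩
  have hfin : {g : G | dist o (g • o) ≤ max K (K + 2 * (C + 2 * K) + 2 * δ) ∧
      dist (f ^ i₁ • o) (g • f ^ i₁ • o) ≤ max K (K + 2 * (C + 2 * K) + 2 * δ)}.Finite := by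
    refine Set.finite_of_encard_le_coe (k := N) ?_
    exact hRN o (f ^ i₁ • o) hi₁
  refine hfin.subset ?_
  rintro e ⟨heK, s, hs, hcomm⟩
  refine ⟨heK.trans (le_max_left _ _), le_trans ?_ (le_max_right _ _)⟩
  have hK0 : 0 ≤ K := dist_nonneg.trans heK
  have hc : Commute e (f ^ s) := hcomm
  have hcz : ∀ j : ℤ, e * f ^ ((s : ℤ) * j) = f ^ ((s : ℤ) * j) * e := by
    intro j
    have := (hc.zpow_right j)
    rw [← zpow_natCast, ← zpow_mul] at this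
    exact this
  obtain ⟨u, hu⟩ : ∃ u : Y, u = f ^ ((s : ℤ) * (-(i₁ : ℤ))) • o := ⟨_, rfl⟩
  obtain ⟨v, hv⟩ : ∃ v : Y, v = f ^ ((s : ℤ) * (i₁ : ℤ)) • o := ⟨_, rfl⟩
  obtain ⟨q, hq⟩ : ∃ q : Y, q = f ^ i₁ • o := ⟨_, rfl⟩
  have hue : dist u (e • u) ≤ K := by
    rw [hu, move_of_commute o (hcz _)]
    exact heK
  have hve : dist v (e • v) ≤ K := by
    rw [hv, move_of_commute o (hcz _)]
    exact heK
  have hs1 : (1 : ℤ) ≤ (s : ℤ) := by exact_mod_cast hs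
  have hi0 : (0 : ℤ) ≤ (i₁ : ℤ) := Int.natCast_nonneg _
  have hquv : gp q u v ≤ C := by
    have h1 := ax.turn ((s : ℤ) * (-(i₁ : ℤ))) (i₁ : ℤ) ((s : ℤ) * (i₁ : ℤ)) (by nlinarith)
      (by nlinarith)
    rw [zpow_natCast] at h1
    rw [hq, hu, hv]
    exact h1
  have hquv' : gp (e • q) u v ≤ C + 2 * K := by
    have h1 : gp (e • q) (e • u) (e • v) ≤ C := by
      rw [gp_smul]
      exact hquv
    have h2 := (abs_le.1 (gp_lip_left (e • q) u (e • u) v)).2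
    have h3 := (abs_le.1 (gp_lip_right (e • q) (e • u) v (e • v))).2
    linarith
  have habs : |dist u q - dist u (e • q)| ≤ K := by
    have h1 : dist (e • u) (e • q) = dist u q := dist_smul _ _ _
    have h2 := dist_triangle u (e • u) (e • q)
    have h3 := dist_triangle (e • u) u (e • q)
    rw [dist_comm (e • u) u] at h3
    rw [abs_le]
    constructor <;> linarith
  have h1 := h.close u v q (e • q) (K := C + 2 * K) (by linarith) hquv'
  rw [← hq]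
  linarith

/-- A18b: if `g` commensurates `f`, then `g o` is at distance `≤ K₁ = C + 2δ + 2C₁`,
`C₁ = dist o (f o) / 2 + δ`, from some `f^i o`. Proof: let `g f^s g⁻¹ = f^(ε s)`. By `Axis.nearest` for
`g = 1`, `Q = g o` there is `i` with `gp (f^i o) (g o) (f^(i+j) o) ≤ C₁` for all `j`. Let
`u = f^(-ε s J) o`, `v = f^(ε s J) o`, `J` large (`s J ≥ |i|`): `dist (g f^(sJ) o) v = dist (g o) o = L`
and the same for `-J`, `gp (g o) (g f^(-sJ) o) (g f^(sJ) o) ≤ C`, and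
`gp (g o) u (g f^(-sJ) o) ≥ dist o (f^(sJ) o) - L` is large, so `Hyp.ineq3` gives
`gp (g o) u v ≤ C + 2δ`. On the other hand
`gp (g o) u v ≥ dist (g o) (f^i o) - 2C₁` by `dist_eq_gp` and the triangle inequality. -/
theorem near_axis (h : Hyp Y δ) (hδ : 0 ≤ δ) {f : G} {o : Y} {C : ℝ} (ax : Axis δ f o C) (g : G)
    (hg : ∃ s : ℕ, 1 ≤ s ∧ (g * f ^ s * g⁻¹ = f ^ s ∨ g * f ^ s * g⁻¹ = (f ^ s)⁻¹)) :
    ∃ i : ℤ, dist (f ^ i • o) (g • o) ≤ C + 2 * δ + 2 * (dist o (f • o) / 2 + δ) := by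
  obtain ⟨s, hs, hg'⟩ := hg
  obtain ⟨ε, hε⟩ : ∃ ε : ℤ, ∀ j : ℤ, g * f ^ ((s : ℤ) * j) = f ^ (ε * ((s : ℤ) * j)) * g := by
    rcases hg' with h1 | h1
    · refine ⟨1, fun j => ?_⟩
      have h2 : (g * f ^ s * g⁻¹) ^ j = (f ^ s) ^ j := by rw [h1]
      rw [conj_zpow, ← zpow_natCast, ← zpow_mul] at h2
      rw [one_mul]
      calc g * f ^ ((s : ℤ) * j) = (g * f ^ ((s : ℤ) * j) * g⁻¹) * g := by group
        _ = f ^ ((s : ℤ) * j) * g := by rw [h2]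
    · refine ⟨-1, fun j => ?_⟩
      have h2 : (g * f ^ s * g⁻¹) ^ j = ((f ^ s)⁻¹) ^ j := by rw [h1]
      rw [conj_zpow, inv_zpow, ← zpow_natCast, ← zpow_mul, ← zpow_neg] at h2
      rw [neg_one_mul]
      calc g * f ^ ((s : ℤ) * j) = (g * f ^ ((s : ℤ) * j) * g⁻¹) * g := by group
        _ = f ^ (-((s : ℤ) * j)) * g := by rw [h2]
  obtain ⟨L, hL⟩ : ∃ L, L = dist o (g • o) := ⟨_, rfl⟩
  obtain ⟨C₁, hC₁⟩ : ∃ C₁, C₁ = dist o (f • o) / 2 + δ := ⟨_, rfl⟩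
  obtain ⟨i, hi⟩ := ax.nearest h hδ 1 (g • o)
  rw [← hC₁] at hi
  refine ⟨i, ?_⟩
  rw [← hC₁]
  -- a large exponent
  obtain ⟨J, hJ⟩ : ∃ J : ℕ, L + C + 2 * δ + 1 ≤ dist o (f ^ (s * J) • o) := by
    refine ⟨⌈L + C + 2 * δ + 1⌉₊, ?_⟩
    have h1 := ax.lower (s * ⌈L + C + 2 * δ + 1⌉₊)
    have h2 := Nat.le_ceil (L + C + 2 * δ + 1)
    have h3 : ((⌈L + C + 2 * δ + 1⌉₊ : ℕ) : ℝ) ≤ ((s * ⌈L + C + 2 * δ + 1⌉₊ : ℕ) : ℝ) := by
      exact_mod_cast Nat.le_mul_of_pos_left _ (by omega)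
    linarith
  obtain ⟨a, ha⟩ : ∃ a : Y, a = (g * f ^ ((s : ℤ) * (-(J : ℤ)))) • o := ⟨_, rfl⟩
  obtain ⟨b, hb⟩ : ∃ b : Y, b = (g * f ^ ((s : ℤ) * (J : ℤ))) • o := ⟨_, rfl⟩
  obtain ⟨u, hu⟩ : ∃ u : Y, u = f ^ (ε * ((s : ℤ) * (-(J : ℤ)))) • o := ⟨_, rfl⟩
  obtain ⟨v, hv⟩ : ∃ v : Y, v = f ^ (ε * ((s : ℤ) * (J : ℤ))) • o := ⟨_, rfl⟩
  have hau : dist a u = L := by
    rw [ha, hu, hε, mul_smul, dist_smul, dist_comm, hL]
  have hbv : dist b v = L := by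
    rw [hb, hv, hε, mul_smul, dist_smul, dist_comm, hL]
  have hlen : ∀ t : ℤ, t.natAbs = J → dist (g • o) ((g * f ^ ((s : ℤ) * t)) • o) =
      dist o (f ^ (s * J) • o) := by
    intro t ht
    rw [mul_smul, dist_smul]
    have h1 := dist_pow_pow f o 0 ((s : ℤ) * t)
    rw [zpow_zero, one_smul, sub_zero, Int.natAbs_mul, Int.natAbs_natCast, ht] at h1
    exact h1
  have hQa : dist (g • o) a = dist o (f ^ (s * J) • o) := by
    rw [ha]
    exact hlen _ (by rw [Int.natAbs_neg, Int.natAbs_natCast])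
  have hQb : dist (g • o) b = dist o (f ^ (s * J) • o) := by
    rw [hb]
    exact hlen _ (Int.natAbs_natCast J)
  have hQab : gp (g • o) a b ≤ C := by
    rw [ha, hb, mul_smul, mul_smul, gp_smul]
    have h1 := ax.turn ((s : ℤ) * (-(J : ℤ))) 0 ((s : ℤ) * (J : ℤ))
      (by
        have : 0 ≤ (s : ℤ) * (J : ℤ) := by positivity
        linarith) (by positivity)
    rw [zpow_zero, one_smul] at h1
    exact h1
  have hQau : C + 2 * δ < gp (g • o) a u := by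
    have h1 := dist_triangle (g • o) u a
    rw [dist_comm u a] at h1
    unfold gp
    linarith
  have hQvb : C + 2 * δ < gp (g • o) v b := by
    have h1 := dist_triangle (g • o) v b
    rw [dist_comm v b] at h1
    unfold gp
    rw [dist_comm v b]
    linarith
  have hQuv : gp (g • o) u v ≤ C + 2 * δ := by
    by_contra hcon
    push Not at hcon
    have h1 := h.ineq3 hδ (g • o) a u v b
    have h2 : C + 2 * δ < min (gp (g • o) a u) (min (gp (g • o) u v) (gp (g • o) v b)) :=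
      lt_min hQau (lt_min hcon hQvb)
    linarith
  -- the projection
  have hproj : ∀ t : ℤ, gp (f ^ i • o) (g • o) (f ^ t • o) ≤ C₁ := by
    intro t
    have h1 := hi (t - i)
    rw [one_mul, ← zpow_add, add_sub_cancel] at h1
    exact h1
  have hpu := hproj (ε * ((s : ℤ) * (-(J : ℤ))))
  have hpv := hproj (ε * ((s : ℤ) * (J : ℤ)))
  rw [← hu] at hpu
  rw [← hv] at hpv
  have e1 := dist_eq_gp (f ^ i • o) (g • o) u
  have e2 := dist_eq_gp (f ^ i • o) (g • o) v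
  have e3 := dist_triangle u (f ^ i • o) v
  rw [dist_comm u (f ^ i • o)] at e3
  unfold gp at hQuv
  linarith

/-- A18c: if all elements commensurate `f`, the group is virtually cyclic. Proof: `K₁` as in A18b.
Each `g` is `f^i e` with `dist o (e o) ≤ K₁`, and `e` commensurates `f`. The elements `e` with
`dist o (e o) ≤ K₁` commuting with a power `f^s`, `s ≥ 1`, form a finite set by A18a. If `e₀` and `e`
both invert powers `f^s₀`, `f^s`, then `e₀⁻¹ e` commutes with `f^(s₀ s)` and moves `o` by at most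
`2K₁`, so these `e` also form a finite set. So finitely many right cosets of `zpowers f` cover
`G` (`g⁻¹ ∈ e⁻¹ (zpowers f)`), and `zpowers f` has finite index. -/
theorem virtCyclic_of_commensurate (h : Hyp Y δ) (hδ : 0 ≤ δ) (hac : Acyl G Y) {f : G} {o : Y}
    {C : ℝ} (ax : Axis δ f o C)
    (H : ∀ g : G, ∃ s : ℕ, 1 ≤ s ∧ (g * f ^ s * g⁻¹ = f ^ s ∨ g * f ^ s * g⁻¹ = (f ^ s)⁻¹)) :
    VirtCyclic G := by
  obtain ⟨K₁, hK₁⟩ : ∃ K₁, K₁ = C + 2 * δ + 2 * (dist o (f • o) / 2 + δ) := ⟨_, rfl⟩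
  have hplus : {e : G | dist o (e • o) ≤ K₁ ∧ ∃ s : ℕ, 1 ≤ s ∧ e * f ^ s = f ^ s * e}.Finite :=
    finite_commuting h hδ hac ax K₁
  have hplus2 : {e : G | dist o (e • o) ≤ 2 * K₁ ∧
      ∃ s : ℕ, 1 ≤ s ∧ e * f ^ s = f ^ s * e}.Finite :=
    finite_commuting h hδ hac ax (2 * K₁)
  have hminus : {e : G | dist o (e • o) ≤ K₁ ∧
      ∃ s : ℕ, 1 ≤ s ∧ e * f ^ s * e⁻¹ = (f ^ s)⁻¹}.Finite := by
    by_cases hemp : ∃ e₀ : G, dist o (e₀ • o) ≤ K₁ ∧
      ∃ s : ℕ, 1 ≤ s ∧ e₀ * f ^ s * e₀⁻¹ = (f ^ s)⁻¹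
    · obtain ⟨e₀, he₀, s₀, hs₀, hinv₀⟩ := hemp
      refine (hplus2.image (fun e => e₀ * e)).subset ?_
      rintro e ⟨he, s, hs, hinv⟩
      refine ⟨e₀⁻¹ * e, ⟨?_, s₀ * s, Nat.mul_pos hs₀ hs, ?_⟩, ?_⟩
      · have h1 : dist o ((e₀⁻¹ * e) • o) = dist (e₀ • o) (e • o) := by
          rw [mul_smul, ← dist_smul e₀ o, smul_inv_smul]
        rw [h1]
        have h2 := dist_triangle (e₀ • o) o (e • o)
        rw [dist_comm (e₀ • o) o] at h2
        linarith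
      · have h1 : e * f ^ (s₀ * s) * e⁻¹ = (f ^ (s₀ * s))⁻¹ := by
          have h2 : (e * f ^ s * e⁻¹) ^ s₀ = ((f ^ s)⁻¹) ^ s₀ := by rw [hinv]
          rw [conj_pow, inv_pow, ← pow_mul, mul_comm s s₀] at h2
          exact h2
        have h3 : e₀ * f ^ (s₀ * s) * e₀⁻¹ = (f ^ (s₀ * s))⁻¹ := by
          have h2 : (e₀ * f ^ s₀ * e₀⁻¹) ^ s = ((f ^ s₀)⁻¹) ^ s := by rw [hinv₀]
          rw [conj_pow, inv_pow, ← pow_mul] at h2
          exact h2
        have h4 : e * f ^ (s₀ * s) * e⁻¹ = e₀ * f ^ (s₀ * s) * e₀⁻¹ := by rw [h1, h3]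
        calc e₀⁻¹ * e * f ^ (s₀ * s) = e₀⁻¹ * (e * f ^ (s₀ * s) * e⁻¹) * e := by group
          _ = e₀⁻¹ * (e₀ * f ^ (s₀ * s) * e₀⁻¹) * e := by rw [h4]
          _ = f ^ (s₀ * s) * (e₀⁻¹ * e) := by group
      · show e₀ * (e₀⁻¹ * e) = e
        group
    · push Not at hemp
      have : {e : G | dist o (e • o) ≤ K₁ ∧
          ∃ s : ℕ, 1 ≤ s ∧ e * f ^ s * e⁻¹ = (f ^ s)⁻¹} = ∅ := by
        ext e
        simp only [Set.mem_ofPred_eq, Set.mem_empty_iff_false, iff_false]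
        rintro ⟨he, s, hs, hinv⟩
        exact hemp e he s hs hinv
      rw [this]
      exact Set.finite_empty
  have hE : {e : G | dist o (e • o) ≤ K₁}.Finite := by
    refine (hplus.union hminus).subset ?_
    intro e he
    obtain ⟨s, hs, h1 | h1⟩ := H e
    · left
      refine ⟨he, s, hs, ?_⟩
      calc e * f ^ s = (e * f ^ s * e⁻¹) * e := by group
        _ = f ^ s * e := by rw [h1]
    · right
      exact ⟨he, s, hs, h1⟩
  -- the cosets
  have hquot : Finite (G ⧸ Subgroup.zpowers f) := by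
    have hsurj : ((fun e : G => ((e⁻¹ : G) : G ⧸ Subgroup.zpowers f)) ''
        {e : G | dist o (e • o) ≤ K₁}) = Set.univ := by
      rw [Set.eq_univ_iff_forall]
      intro x
      obtain ⟨g, rfl⟩ := QuotientGroup.mk_surjective x
      obtain ⟨i, hi⟩ := near_axis h hδ ax g⁻¹ (H g⁻¹)
      rw [← hK₁] at hi
      refine ⟨f ^ (-i) * g⁻¹, ?_, ?_⟩
      · show dist o ((f ^ (-i) * g⁻¹) • o) ≤ K₁
        have h1 : dist o ((f ^ (-i) * g⁻¹) • o) = dist (f ^ i • o) (g⁻¹ • o) := by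
          rw [mul_smul, ← dist_smul (f ^ i) o, ← mul_smul (f ^ i), ← zpow_add, add_neg_cancel,
            zpow_zero, one_smul]
        rw [h1]
        exact hi
      · show (((f ^ (-i) * g⁻¹)⁻¹ : G) : G ⧸ Subgroup.zpowers f) = (g : G ⧸ Subgroup.zpowers f)
        rw [QuotientGroup.eq, Subgroup.mem_zpowers_iff]
        refine ⟨-i, ?_⟩
        group
    have hfin : (Set.univ : Set (G ⧸ Subgroup.zpowers f)).Finite := by
      rw [← hsurj]
      exact hE.image _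
    exact Set.finite_univ_iff.1 hfin
  exact ⟨Subgroup.zpowers f, Subgroup.finiteIndex_of_finite_quotient, inferInstance⟩

end Pool.Agent.AcylTdc
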