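import Pool.Agent.AcylTdc.Defs

/-!
# Gromov products: basic facts (proved)
-/

open Filter Topology Set

namespace Pool.Agent.AcylTdc

section metric

variable {Y : Type*} [MetricSpace Y]

theorem gp_comm (o x y : Y) : gp o x y = gp o y x := by
  unfold gp
  rw [dist_comm x y]
  ring

theorem gp_nonneg (o x y : Y) : 0 ≤ gp o x y := by
  unfold gp
  have := dist_triangle x o y
  rw [dist_comm x o] at this
  linarith

theorem gp_self (o x : Y) : gp o x x = dist o x := by
  unfold gp
  rw [dist_self]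
  ring

theorem gp_le_left (o x y : Y) : gp o x y ≤ dist o x := by
  unfold gp
  have := dist_triangle o x y
  linarith

theorem gp_le_right (o x y : Y) : gp o x y ≤ dist o y := by
  rw [gp_comm]
  exact gp_le_left o y x

/-- `d(x,y) = d(o,x) + d(o,y) - 2 (x|y)_o` -/
theorem dist_eq_gp (o x y : Y) : dist x y = dist o x + dist o y - 2 * gp o x y := by
  unfold gp
  ring

/-- `(x|y)_o + (o|y)_x = d(o,x)` -/
theorem gp_add (o x y : Y) : gp o x y + gp x o y = dist o x := by
  unfold gp
  rw [dist_comm x o]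
  ring

theorem gp_lip_right (o x y y' : Y) : |gp o x y - gp o x y'| ≤ dist y y' := by
  unfold gp
  have h1 := dist_triangle o y y'
  have h2 := dist_triangle o y' y
  have h3 := dist_triangle x y y'
  have h4 := dist_triangle x y' y
  rw [dist_comm y' y] at h2 h4
  rw [abs_le]
  constructor <;> linarith

theorem gp_lip_left (o x x' y : Y) : |gp o x y - gp o x' y| ≤ dist x x' := by
  rw [gp_comm o x, gp_comm o x']
  exact gp_lip_right o y x x'

theorem gp_lip_base (o o' x y : Y) : |gp o x y - gp o' x y| ≤ dist o o' := by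
  unfold gp
  have h1 := dist_triangle o o' x
  have h2 := dist_triangle o' o x
  have h3 := dist_triangle o o' y
  have h4 := dist_triangle o' o y
  rw [dist_comm o' o] at h2 h4
  rw [abs_le]
  constructor <;> linarith

theorem gp_zero_of_between (o x y : Y) (h : dist x y = dist o x + dist o y) : gp o x y = 0 := by
  unfold gp
  rw [h]
  ring

variable {δ : ℝ}

theorem Hyp.ineq (h : Hyp Y δ) (o x y z : Y) : min (gp o x y) (gp o y z) - δ ≤ gp o x z :=
  h o x y z

theorem Hyp.mono (h : Hyp Y δ) {δ' : ℝ} (hd : δ ≤ δ') : Hyp Y δ' := by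
  intro o x y z
  have := h o x y z
  linarith

theorem Hyp.nonneg (h : Hyp Y δ) [Nonempty Y] : 0 ≤ δ := by
  obtain ⟨o⟩ := (inferInstance : Nonempty Y)
  have := h o o o o
  rw [gp_self, dist_self, min_self] at this
  linarith

/-- with two intermediate points -/
theorem Hyp.ineq3 (h : Hyp Y δ) (hδ : 0 ≤ δ) (o x y z w : Y) :
    min (gp o x y) (min (gp o y z) (gp o z w)) - 2 * δ ≤ gp o x w := by
  have h1 := h o x y w
  have h2 := h o y z w
  have h3 : min (gp o x y) (min (gp o y z) (gp o z w)) - δ ≤ min (gp o x y) (gp o y w) := by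
    refine le_min ?_ ?_
    · have := min_le_left (gp o x y) (min (gp o y z) (gp o z w))
      linarith
    · have := min_le_right (gp o x y) (min (gp o y z) (gp o z w))
      linarith
  linarith

/-- the four point inequality -/
theorem Hyp.four_point (h : Hyp Y δ) (x y z w : Y) :
    dist x y + dist z w ≤ max (dist x z + dist y w) (dist x w + dist y z) + 2 * δ := by
  have h1 := h x z y w
  unfold gp at h1
  rw [dist_comm z y] at h1
  rcases min_cases ((dist x z + dist x y - dist y z) / 2) ((dist x y + dist x w - dist y w) / 2)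
    with ⟨h2, _⟩ | ⟨h2, _⟩
  · rw [h2] at h1
    have := le_max_right (dist x z + dist y w) (dist x w + dist y z)
    linarith
  · rw [h2] at h1
    have := le_max_left (dist x z + dist y w) (dist x w + dist y z)
    linarith

/-- Two points near a geodesic from `u` to `v`, at about the same distance from `u`, are close. -/
theorem Hyp.close (h : Hyp Y δ) (u v q q' : Y) {K : ℝ} (hq : gp q u v ≤ K) (hq' : gp q' u v ≤ K) :
    dist q q' ≤ |dist u q - dist u q'| + 2 * K + 2 * δ := by
  have h1 := h.four_point q q' u v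
  unfold gp at hq hq'
  have c1 := dist_comm q u
  have c2 := dist_comm q' u
  have a1 := le_abs_self (dist u q - dist u q')
  have a2 := neg_abs_le (dist u q - dist u q')
  rcases max_cases (dist q u + dist q' v) (dist q v + dist q' u) with ⟨h2, _⟩ | ⟨h2, _⟩
  · rw [h2] at h1
    linarith
  · rw [h2] at h1
    linarith

/-- a point on a geodesic -/
theorem Geod.point (hg : Geod Y) (x y : Y) {t : ℝ} (h0 : 0 ≤ t) (h1 : t ≤ dist x y) :
    ∃ p : Y, dist x p = t ∧ dist p y = dist x y - t := by
  obtain ⟨γ, hx, hy, hγ⟩ := hg x y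
  refine ⟨γ t, ?_, ?_⟩
  · have := hγ 0 ⟨le_rfl, dist_nonneg⟩ t ⟨h0, h1⟩
    rw [hx] at this
    rw [this, zero_sub, abs_neg, abs_of_nonneg h0]
  · have := hγ t ⟨h0, h1⟩ (dist x y) ⟨dist_nonneg, le_rfl⟩
    rw [hy] at this
    rw [this, abs_sub_comm, abs_of_nonneg (by linarith)]

/-- two points on the same geodesic -/
theorem Geod.two_points (hg : Geod Y) (x y : Y) {s t : ℝ} (h0 : 0 ≤ s) (hst : s ≤ t)
    (h1 : t ≤ dist x y) :
    ∃ p q : Y, dist x p = s ∧ dist p y = dist x y - s ∧ dist x q = t ∧ dist q y = dist x y - t ∧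
      dist p q = t - s := by
  obtain ⟨γ, hx, hy, hγ⟩ := hg x y
  have hs1 : s ≤ dist x y := hst.trans h1
  have ht0 : 0 ≤ t := h0.trans hst
  refine ⟨γ s, γ t, ?_, ?_, ?_, ?_, ?_⟩
  · have := hγ 0 ⟨le_rfl, dist_nonneg⟩ s ⟨h0, hs1⟩
    rw [hx] at this
    rw [this, zero_sub, abs_neg, abs_of_nonneg h0]
  · have := hγ s ⟨h0, hs1⟩ (dist x y) ⟨dist_nonneg, le_rfl⟩
    rw [hy] at this
    rw [this, abs_sub_comm, abs_of_nonneg (by linarith)]
  · have := hγ 0 ⟨le_rfl, dist_nonneg⟩ t ⟨ht0, h1⟩
    rw [hx] at this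
    rw [this, zero_sub, abs_neg, abs_of_nonneg ht0]
  · have := hγ t ⟨ht0, h1⟩ (dist x y) ⟨dist_nonneg, le_rfl⟩
    rw [hy] at this
    rw [this, abs_sub_comm, abs_of_nonneg (by linarith)]
  · rw [hγ s ⟨h0, hs1⟩ t ⟨ht0, h1⟩, abs_sub_comm, abs_of_nonneg (by linarith)]

end metric

section action

variable {G Y : Type*} [Group G] [MetricSpace Y] [MulAction G Y] [IsIsometricSMul G Y]

theorem gp_smul (g : G) (o x y : Y) : gp (g • o) (g • x) (g • y) = gp o x y := by
  unfold gp
  rw [dist_smul, dist_smul, dist_smul]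

/-- `d(x, (g h) x) ≤ d(x, g x) + d(x, h x)` -/
theorem dist_mul_smul_le (g h : G) (x : Y) :
    dist x ((g * h) • x) ≤ dist x (g • x) + dist x (h • x) := by
  rw [mul_smul]
  have := dist_triangle x (g • x) (g • h • x)
  rw [dist_smul] at this
  exact this

theorem dist_inv_smul (g : G) (x : Y) : dist x (g⁻¹ • x) = dist x (g • x) := by
  have := dist_smul g x (g⁻¹ • x)
  rw [smul_inv_smul] at this
  rw [← this, dist_comm]

end action

end Pool.Agent.AcylTdc
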