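import Mathlib
import Pool.Agent.TwistedRatio.Defs

/-!
# Acylindrically hyperbolic groups: definitions
-/

open Filter Topology Set

namespace Pool.Agent.AcylTdc

/-- The Gromov product `(x|y)_o`. -/
noncomputable def gp {Y : Type*} [MetricSpace Y] (o x y : Y) : ℝ :=
  (dist o x + dist o y - dist x y) / 2

/-- `Y` is `δ`-hyperbolic in the sense of Gromov: `(x|z)_o ≥ min((x|y)_o, (y|z)_o) - δ` for all
points `o, x, y, z`. -/
def Hyp (Y : Type*) [MetricSpace Y] (δ : ℝ) : Prop :=
  ∀ o x y z : Y, min (gp o x y) (gp o y z) - δ ≤ gp o x z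

/-- `Y` is a geodesic space: any two points are joined by a geodesic segment. -/
def Geod (Y : Type*) [MetricSpace Y] : Prop :=
  ∀ x y : Y, ∃ γ : ℝ → Y, γ 0 = x ∧ γ (dist x y) = y ∧
    ∀ s ∈ Icc 0 (dist x y), ∀ t ∈ Icc 0 (dist x y), dist (γ s) (γ t) = |s - t|

/-- The action of `G` on `Y` is acylindrical: for every `ε` there are `R` and `N` such that for all
points `x, y` at distance at least `R` at most `N` elements of `G` move both `x` and `y` by at most
`ε`. -/
def Acyl (G Y : Type*) [Group G] [MetricSpace Y] [MulAction G Y] : Prop :=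
  ∀ ε : ℝ, ∃ (R : ℝ) (N : ℕ), ∀ x y : Y, R ≤ dist x y →
    {g : G | dist x (g • x) ≤ ε ∧ dist y (g • y) ≤ ε}.encard ≤ N

/-- `g` is loxodromic on `Y`: it has positive stable translation length. -/
def Lox {G : Type*} (Y : Type*) [Group G] [MetricSpace Y] [MulAction G Y] (g : G) : Prop :=
  ∃ (y : Y) (ε : ℝ), 0 < ε ∧ ∀ n : ℕ, ε * n ≤ dist y (g ^ n • y)

/-- The orbits of `G` on `Y` are unbounded. -/
def UnbddOrbits (G Y : Type*) [Group G] [MetricSpace Y] [MulAction G Y] : Prop :=
  ∃ y : Y, ∀ R : ℝ, ∃ g : G, R < dist y (g • y)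

/-- `G` is virtually cyclic. -/
def VirtCyclic (G : Type*) [Group G] : Prop :=
  ∃ H : Subgroup G, H.FiniteIndex ∧ IsCyclic H

/-- The group `G` is acylindrically hyperbolic: it is not virtually cyclic and it has an acylindrical
action by isometries with unbounded orbits on a geodesic Gromov hyperbolic metric space (for an
acylindrical action of a group that is not virtually cyclic this is the same as being
non-elementary). -/
def AcylHyp.{u, v} (G : Type u) [Group G] : Prop :=
  ¬ VirtCyclic G ∧ ∃ (Y : Type v) (_ : MetricSpace Y) (_ : MulAction G Y),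
    IsIsometricSMul G Y ∧ (∃ δ, Hyp Y δ) ∧ Geod Y ∧ Acyl G Y ∧ UnbddOrbits G Y

end Pool.Agent.AcylTdc
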