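import Pool.Agent.AcylTdc.A10
import Pool.Agent.AcylTdc.A13
import Pool.Agent.AcylTdc.A14
import Pool.Agent.AcylTdc.A16
import Pool.Agent.AcylTdc.A17
import Pool.Agent.AcylTdc.A18

open Filter Topology Set Pool.Agent.TwistedRatio

namespace Pool.Agent.AcylTdc

section

variable {G Y : Type*} [Group G] [MetricSpace Y] [MulAction G Y] [IsIsometricSMul G Y] {δ : ℝ}

theorem Lox.conj {f : G} (hf : Lox Y f) (g : G) : Lox Y (g * f * g⁻¹) := by
  obtain ⟨y, ε, hε, hy⟩ := hf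
  refine ⟨g • y, ε, hε, fun n => ?_⟩
  have : (g * f * g⁻¹) ^ n • g • y = g • f ^ n • y := by
    rw [conj_pow, mul_smul, mul_smul, inv_smul_smul]
  rw [this, dist_smul]
  exact hy n

theorem exists_growth (h : Hyp Y δ) (hδ : 0 ≤ δ) (hac : Acyl G Y) (hnvc : ¬ VirtCyclic G)
    {f : G} {o : Y} {C : ℝ} (ax : Axis δ f o C) {X : Set G} (hX : X.Finite)
    (hgen : Subgroup.closure X = ⊤) :
    ∃ c : ℕ, 1 ≤ c ∧ ∀ n, 2 ^ n ≤ (ball X (c * n)).ncard := by
  by_cases H : ∀ g : G, ∀ B : ℝ, ∃ m n : ℤ, B < gp o (f ^ m • o) ((g * f * g⁻¹) ^ n • o)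
  · exact absurd (virtCyclic_of_commensurate h hδ hac ax
      fun g => commensurate_of_unbounded h hδ hac ax g (H g)) hnvc
  · push Not at H
    obtain ⟨g, B, hB⟩ := H
    obtain ⟨m, hm, Cb, hb⟩ := (ax.lox.conj g).exists_axis h hδ o
    refine exp_growth h hδ ax hb (B := B) (fun i j => ?_) hX hgen
    rw [← zpow_natCast, ← zpow_mul]
    exact hB _ _

theorem tendsto_of_growth {X : Set G}
    (hgrow : ∃ c : ℕ, 1 ≤ c ∧ ∀ n, 2 ^ n ≤ (ball X (c * n)).ncard) (hX : X.Finite) :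
    Tendsto (fun n => (ball X n).ncard) atTop atTop := by
  obtain ⟨c, hc, hn⟩ := hgrow
  have hmono : Monotone fun n => (ball X n).ncard := fun m n hmn =>
    Set.ncard_le_ncard (ball_mono hmn) (ball_finite hX n)
  refine tendsto_atTop_atTop_of_monotone hmono fun b => ⟨c * b, ?_⟩
  exact (Nat.lt_two_pow_self (n := b)).le.trans (hn b)

/-- The main theorem for an explicit action. -/
theorem tdc_tendsto_zero (hY : ∃ δ, Hyp Y δ) (hgeo : Geod Y) (hac : Acyl G Y)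
    (hunb : UnbddOrbits G Y) (hnvc : ¬ VirtCyclic G) {X : Set G} (hX : X.Finite)
    (hgen : Subgroup.closure X = ⊤) (φ : G →* G) :
    Tendsto (fun n : ℕ =>
      (({p : G × G | p.1 ∈ ball X n ∧ p.2 ∈ ball X n ∧ p.1 * p.2 = p.2 * φ p.1}).ncard : ℝ) /
        ((ball X n).ncard : ℝ) ^ 2) atTop (𝓝 0) := by
  obtain ⟨δ, h⟩ := hY
  obtain ⟨o, _⟩ := id hunb
  haveI : Nonempty Y := ⟨o⟩
  have hδ := h.nonneg
  obtain ⟨f, hf⟩ := exists_lox h hδ hgeo hac hX hgen hunb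
  obtain ⟨m, hm, C, ax⟩ := hf.exists_axis h hδ o
  have hgrow := exists_growth h hδ hac hnvc ax hX hgen
  obtain ⟨k, hk⟩ := centralizer_negligible h hδ hgeo hac ax hX hgen hgrow
  refine tdc_tendsto hX φ (tendsto_of_growth hgrow hX) k fun ε hε => ?_
  obtain ⟨n₀, hn₀⟩ := hk ε hε
  exact ⟨n₀, fun n hn S hS => hn₀ n hn φ S hS⟩

end

/-- **Theorem.** The degree of twisted commutativity of an acylindrically hyperbolic group is zero. -/
theorem tdc_eq_zero.{u, v} {G : Type u} [Group G] (hG : AcylHyp.{u, v} G) {X : Set G} (hX : X.Finite)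
    (hgen : Subgroup.closure X = ⊤) (φ : G →* G) :
    tdc X φ = 0 ∧ Tendsto (fun n : ℕ =>
      (({p : G × G | p.1 ∈ ball X n ∧ p.2 ∈ ball X n ∧ p.1 * p.2 = p.2 * φ p.1}).ncard : ℝ) /
        ((ball X n).ncard : ℝ) ^ 2) atTop (𝓝 0) := by
  obtain ⟨hnvc, Y, i1, i2, hiso, hY, hgeo, hac, hunb⟩ := hG
  have := tdc_tendsto_zero hY hgeo hac hunb hnvc hX hgen φ
  exact ⟨this.limsup_eq, this⟩

end Pool.Agent.AcylTdc
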